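import Pool.Agent.Gen.F5.X1C2D3Cm3.S000
import Pool.Agent.Gen.F5.X1C2D3Cm3.S001
import Pool.Agent.Gen.F5.X1C2D3Cm3.S002

set_option autoImplicit false
set_option maxRecDepth 100000

namespace Pool.Agent.Gen.F5.X1C2D3Cm3

open Pool.Agent.Helper72.F5

def n0 : Cl (O (nat_lit 3)) (R (nat_lit 14465))
    (p (nat_lit 0x20000c) (nat_lit 0) (p (nat_lit 0xb0014) (nat_lit 0) (p (nat_lit 0x200004) (nat_lit 1) (p (nat_lit 0x109) (nat_lit 0) (p (nat_lit 0x101) (nat_lit 0) (p (nat_lit 0x81) (nat_lit 1) (p (nat_lit 0xc1) (nat_lit 1) (p (nat_lit 0x119) (nat_lit 1) (p (nat_lit 0xd1) (nat_lit 0) (p (nat_lit 0x89) (nat_lit 0) (p (nat_lit 0x41) (nat_lit 0) (p (nat_lit 0x8a0b0a89889a) (nat_lit 0) (p (nat_lit 0x98a8a09081a) (nat_lit 0) (p (nat_lit 0x89080988879a) (nat_lit 0) (p (nat_lit 0x8878908071a) (nat_lit 0) (p (nat_lit 0x80000800080887868a) (nat_lit 0) (p (nat_lit 0x8888070602) (nat_lit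 0) (p (nat_lit 0x807868582) (nat_lit 0) (p (nat_lit 0x8587060502) (nat_lit 0) (p (nat_lit 0x506858482) (nat_lit 0) (p (nat_lit 0x160014) (nat_lit 0) (p (nat_lit 0x68612) (nat_lit 0) (p (nat_lit 0x50592) (nat_lit 0) (p (nat_lit 0x38512) (nat_lit 0) (p (nat_lit 0x50392) (nat_lit 0) (p (nat_lit 0x38312) (nat_lit 0) (p (nat_lit 0x20292) (nat_lit 0) (p (nat_lit 0x38112) (nat_lit 0) (p (nat_lit 0x20092) (nat_lit 0) (p (nat_lit 0x8012) (nat_lit 0) pn)))))))))))))))))))))))))))))) :=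
  Cl.node (nat_lit 0x111) (nat_lit 2) (by decide +kernel) (ClAll.succ (ClAll.succ ClAll.zero s17) s18)

def n1 : Cl (O (nat_lit 3)) (R (nat_lit 14465))
    (p (nat_lit 0x109) (nat_lit 0) (p (nat_lit 0xb0014) (nat_lit 0) (p (nat_lit 0x20000c) (nat_lit 1) (p (nat_lit 0x200004) (nat_lit 0) (p (nat_lit 0x89) (nat_lit 1) (p (nat_lit 0xc1) (nat_lit 1) (p (nat_lit 0x101) (nat_lit 1) (p (nat_lit 0x119) (nat_lit 0) (p (nat_lit 0xd1) (nat_lit 0) (p (nat_lit 0x81) (nat_lit 0) (p (nat_lit 0x41) (nat_lit 1) (p (nat_lit 0x8a0b0a89889a) (nat_lit 0) (p (nat_lit 0x98a8a09081a) (nat_lit 0) (p (nat_lit 0x89080988879a) (nat_lit 0) (p (nat_lit 0x8878908071a) (nat_lit 0) (p (nat_lit 0x80000800080887868a) (nat_lit 0) (p (nat_lit 0x8888070602) (nat_lit 0) (p (nat_lit 0x807868582) (nat_lit 0) (p (nat_lit 0x8587060502) (nat_lit 0) (p (nat_lit 0x506858482) (nat_lit 0) (p (nat_lit 0x160014) (nat_lit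 0) (p (nat_lit 0x68612) (nat_lit 0) (p (nat_lit 0x50592) (nat_lit 0) (p (nat_lit 0x38512) (nat_lit 0) (p (nat_lit 0x50392) (nat_lit 0) (p (nat_lit 0x38312) (nat_lit 0) (p (nat_lit 0x20292) (nat_lit 0) (p (nat_lit 0x38112) (nat_lit 0) (p (nat_lit 0x20092) (nat_lit 0) (p (nat_lit 0x8012) (nat_lit 0) pn)))))))))))))))))))))))))))))) :=
  Cl.node (nat_lit 0x101) (nat_lit 2) (by decide +kernel) (ClAll.succ (ClAll.succ ClAll.zero s67) s68)

def n2 : Cl (O (nat_lit 3)) (R (nat_lit 14465))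
    (p (nat_lit 0xc9) (nat_lit 1) (p (nat_lit 0xb0014) (nat_lit 0) (p (nat_lit 0x20000c) (nat_lit 1) (p (nat_lit 0x200004) (nat_lit 0) (p (nat_lit 0x89) (nat_lit 1) (p (nat_lit 0x101) (nat_lit 1) (p (nat_lit 0xc1) (nat_lit 1) (p (nat_lit 0x119) (nat_lit 1) (p (nat_lit 0xd1) (nat_lit 0) (p (nat_lit 0x81) (nat_lit 0) (p (nat_lit 0x41) (nat_lit 1) (p (nat_lit 0x8a0b0a89889a) (nat_lit 0) (p (nat_lit 0x98a8a09081a) (nat_lit 0) (p (nat_lit 0x89080988879a) (nat_lit 0) (p (nat_lit 0x8878908071a) (nat_lit 0) (p (nat_lit 0x80000800080887868a) (nat_lit 0) (p (nat_lit 0x8888070602) (nat_lit 0) (p (nat_lit 0x807868582) (nat_lit 0) (p (nat_lit 0x8587060502) (nat_lit 0) (p (nat_lit 0x506858482) (nat_lit 0) (p (nat_lit 0x160014) (nat_lit 0) (p (nat_lit 0x68612) (nat_lit 0) (p (nat_lit 0x50592) (nat_lit 0) (p (nat_lit 0x38512) (nat_lit 0) (p (nat_lit 0x50392) (nat_lit 0) (p (nat_lit 0x38312)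 (nat_lit 0) (p (nat_lit 0x20292) (nat_lit 0) (p (nat_lit 0x38112) (nat_lit 0) (p (nat_lit 0x20092) (nat_lit 0) (p (nat_lit 0x8012) (nat_lit 0) pn)))))))))))))))))))))))))))))) :=
  Cl.node (nat_lit 0x41) (nat_lit 2) (by decide +kernel) (ClAll.succ (ClAll.succ ClAll.zero s94) s95)

def n3 : Cl (O (nat_lit 3)) (R (nat_lit 14465))
    (p (nat_lit 0xb0014) (nat_lit 0) (p (nat_lit 0x200004) (nat_lit 1) (p (nat_lit 0x109) (nat_lit 0) (p (nat_lit 0x101) (nat_lit 0) (p (nat_lit 0x81) (nat_lit 1) (p (nat_lit 0xc1) (nat_lit 1) (p (nat_lit 0x119) (nat_lit 1) (p (nat_lit 0xd1) (nat_lit 0) (p (nat_lit 0x89) (nat_lit 0) (p (nat_lit 0x41) (nat_lit 0) (p (nat_lit 0x8a0b0a89889a) (nat_lit 0) (p (nat_lit 0x98a8a09081a) (nat_lit 0) (p (nat_lit 0x89080988879a) (nat_lit 0) (p (nat_lit 0x8878908071a) (nat_lit 0) (p (nat_lit 0x80000800080887868a) (nat_lit 0) (p (nat_lit 0x8888070602) (nat_lit 0)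 (p (nat_lit 0x807868582) (nat_lit 0) (p (nat_lit 0x8587060502) (nat_lit 0) (p (nat_lit 0x506858482) (nat_lit 0) (p (nat_lit 0x160014) (nat_lit 0) (p (nat_lit 0x68612) (nat_lit 0) (p (nat_lit 0x50592) (nat_lit 0) (p (nat_lit 0x38512) (nat_lit 0) (p (nat_lit 0x50392) (nat_lit 0) (p (nat_lit 0x38312) (nat_lit 0) (p (nat_lit 0x20292) (nat_lit 0) (p (nat_lit 0x38112) (nat_lit 0) (p (nat_lit 0x20092) (nat_lit 0) (p (nat_lit 0x8012) (nat_lit 0) pn))))))))))))))))))))))))))))) :=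
  Cl.node (nat_lit 0x20000c) (nat_lit 2) (by decide +kernel) (ClAll.succ (ClAll.succ ClAll.zero n0) s19)

def n4 : Cl (O (nat_lit 3)) (R (nat_lit 14465))
    (p (nat_lit 0xd1) (nat_lit 0) (p (nat_lit 0x20000c) (nat_lit 0) (p (nat_lit 0xb0014) (nat_lit 0) (p (nat_lit 0x200004) (nat_lit 1) (p (nat_lit 0x101) (nat_lit 1) (p (nat_lit 0xc1) (nat_lit 1) (p (nat_lit 0x119) (nat_lit 1) (p (nat_lit 0xc9) (nat_lit 0) (p (nat_lit 0x89) (nat_lit 1) (p (nat_lit 0x41) (nat_lit 0) (p (nat_lit 0x8a0b0a89889a) (nat_lit 0) (p (nat_lit 0x98a8a09081a) (nat_lit 0) (p (nat_lit 0x89080988879a) (nat_lit 0) (p (nat_lit 0x8878908071a) (nat_lit 0) (p (nat_lit 0x80000800080887868a) (nat_lit 0) (p (nat_lit 0x8888070602) (nat_lit 0) (p (nat_lit 0x807868582) (nat_lit 0) (p (nat_lit 0x8587060502) (nat_lit 0) (p (nat_lit 0x506858482) (nat_lit 0) (p (nat_lit 0x160014) (nat_lit 0) (p (nat_lit 0x68612) (nat_lit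 0) (p (nat_lit 0x50592) (nat_lit 0) (p (nat_lit 0x38512) (nat_lit 0) (p (nat_lit 0x50392) (nat_lit 0) (p (nat_lit 0x38312) (nat_lit 0) (p (nat_lit 0x20292) (nat_lit 0) (p (nat_lit 0x38112) (nat_lit 0) (p (nat_lit 0x20092) (nat_lit 0) (p (nat_lit 0x8012) (nat_lit 0) pn))))))))))))))))))))))))))))) :=
  Cl.node (nat_lit 0x41) (nat_lit 2) (by decide +kernel) (ClAll.succ (ClAll.succ ClAll.zero s45) s46)

def n5 : Cl (O (nat_lit 3)) (R (nat_lit 14465))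
    (p (nat_lit 0xb0014) (nat_lit 0) (p (nat_lit 0x20000c) (nat_lit 1) (p (nat_lit 0x200004) (nat_lit 0) (p (nat_lit 0x89) (nat_lit 1) (p (nat_lit 0xc1) (nat_lit 1) (p (nat_lit 0x101) (nat_lit 1) (p (nat_lit 0x119) (nat_lit 0) (p (nat_lit 0xd1) (nat_lit 0) (p (nat_lit 0x81) (nat_lit 0) (p (nat_lit 0x41) (nat_lit 1) (p (nat_lit 0x8a0b0a89889a) (nat_lit 0) (p (nat_lit 0x98a8a09081a) (nat_lit 0) (p (nat_lit 0x89080988879a) (nat_lit 0) (p (nat_lit 0x8878908071a) (nat_lit 0) (p (nat_lit 0x80000800080887868a) (nat_lit 0) (p (nat_lit 0x8888070602) (nat_lit 0) (p (nat_lit 0x807868582) (nat_lit 0) (p (nat_lit 0x8587060502) (nat_lit 0) (p (nat_lit 0x506858482) (nat_lit 0) (p (nat_lit 0x160014) (nat_lit 0) (p (nat_lit 0x68612) (nat_lit 0) (p (nat_lit 0x50592) (nat_lit 0) (p (nat_lit 0x38512) (nat_lit 0) (p (nat_lit 0x50392) (nat_lit 0) (p (nat_lit 0x38312) (nat_lit 0) (p (nat_lit 0x20292)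 (nat_lit 0) (p (nat_lit 0x38112) (nat_lit 0) (p (nat_lit 0x20092) (nat_lit 0) (p (nat_lit 0x8012) (nat_lit 0) pn))))))))))))))))))))))))))))) :=
  Cl.node (nat_lit 0x109) (nat_lit 2) (by decide +kernel) (ClAll.succ (ClAll.succ ClAll.zero n1) s69)

def n6 : Cl (O (nat_lit 3)) (R (nat_lit 14465))
    (p (nat_lit 0xb0014) (nat_lit 0) (p (nat_lit 0x200004) (nat_lit 1) (p (nat_lit 0x109) (nat_lit 1) (p (nat_lit 0x89) (nat_lit 1) (p (nat_lit 0xc9) (nat_lit 1) (p (nat_lit 0xc1) (nat_lit 0) (p (nat_lit 0x119) (nat_lit 1) (p (nat_lit 0xd1) (nat_lit 0) (p (nat_lit 0x81) (nat_lit 0) (p (nat_lit 0x41) (nat_lit 1) (p (nat_lit 0x8a0b0a89889a) (nat_lit 0) (p (nat_lit 0x98a8a09081a) (nat_lit 0) (p (nat_lit 0x89080988879a) (nat_lit 0) (p (nat_lit 0x8878908071a) (nat_lit 0) (p (nat_lit 0x80000800080887868a) (nat_lit 0) (p (nat_lit 0x8888070602) (nat_lit 0) (p (nat_lit 0x807868582) (nat_lit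 0) (p (nat_lit 0x8587060502) (nat_lit 0) (p (nat_lit 0x506858482) (nat_lit 0) (p (nat_lit 0x160014) (nat_lit 0) (p (nat_lit 0x68612) (nat_lit 0) (p (nat_lit 0x50592) (nat_lit 0) (p (nat_lit 0x38512) (nat_lit 0) (p (nat_lit 0x50392) (nat_lit 0) (p (nat_lit 0x38312) (nat_lit 0) (p (nat_lit 0x20292) (nat_lit 0) (p (nat_lit 0x38112) (nat_lit 0) (p (nat_lit 0x20092) (nat_lit 0) (p (nat_lit 0x8012) (nat_lit 0) pn))))))))))))))))))))))))))))) :=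
  Cl.node (nat_lit 0x20000c) (nat_lit 2) (by decide +kernel) (ClAll.succ (ClAll.succ ClAll.zero s79) s80)

def n7 : Cl (O (nat_lit 3)) (R (nat_lit 14465))
    (p (nat_lit 0xb0014) (nat_lit 0) (p (nat_lit 0x200004) (nat_lit 1) (p (nat_lit 0x109) (nat_lit 1) (p (nat_lit 0x89) (nat_lit 1) (p (nat_lit 0x101) (nat_lit 0) (p (nat_lit 0xc1) (nat_lit 1) (p (nat_lit 0x119) (nat_lit 1) (p (nat_lit 0xd1) (nat_lit 0) (p (nat_lit 0x81) (nat_lit 0) (p (nat_lit 0x41) (nat_lit 1) (p (nat_lit 0x8a0b0a89889a) (nat_lit 0) (p (nat_lit 0x98a8a09081a) (nat_lit 0) (p (nat_lit 0x89080988879a) (nat_lit 0) (p (nat_lit 0x8878908071a) (nat_lit 0) (p (nat_lit 0x80000800080887868a) (nat_lit 0) (p (nat_lit 0x8888070602) (nat_lit 0) (p (nat_lit 0x807868582) (nat_lit 0) (p (nat_lit 0x8587060502) (nat_lit 0) (p (nat_lit 0x506858482) (nat_lit 0) (p (nat_lit 0x160014) (nat_lit 0) (p (nat_lit 0x68612) (nat_lit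 0) (p (nat_lit 0x50592) (nat_lit 0) (p (nat_lit 0x38512) (nat_lit 0) (p (nat_lit 0x50392) (nat_lit 0) (p (nat_lit 0x38312) (nat_lit 0) (p (nat_lit 0x20292) (nat_lit 0) (p (nat_lit 0x38112) (nat_lit 0) (p (nat_lit 0x20092) (nat_lit 0) (p (nat_lit 0x8012) (nat_lit 0) pn))))))))))))))))))))))))))))) :=
  Cl.node (nat_lit 0x20000c) (nat_lit 2) (by decide +kernel) (ClAll.succ (ClAll.succ ClAll.zero s87) s88)

def n8 : Cl (O (nat_lit 3)) (R (nat_lit 14465))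
    (p (nat_lit 0xb0014) (nat_lit 0) (p (nat_lit 0x20000c) (nat_lit 1) (p (nat_lit 0x200004) (nat_lit 0) (p (nat_lit 0x89) (nat_lit 1) (p (nat_lit 0x101) (nat_lit 1) (p (nat_lit 0xc1) (nat_lit 1) (p (nat_lit 0x119) (nat_lit 1) (p (nat_lit 0xd1) (nat_lit 0) (p (nat_lit 0x81) (nat_lit 0) (p (nat_lit 0x41) (nat_lit 1) (p (nat_lit 0x8a0b0a89889a) (nat_lit 0) (p (nat_lit 0x98a8a09081a) (nat_lit 0) (p (nat_lit 0x89080988879a) (nat_lit 0) (p (nat_lit 0x8878908071a) (nat_lit 0) (p (nat_lit 0x80000800080887868a) (nat_lit 0) (p (nat_lit 0x8888070602) (nat_lit 0) (p (nat_lit 0x807868582) (nat_lit 0) (p (nat_lit 0x8587060502) (nat_lit 0) (p (nat_lit 0x506858482) (nat_lit 0) (p (nat_lit 0x160014) (nat_lit 0) (p (nat_lit 0x68612) (nat_lit 0) (p (nat_lit 0x50592) (nat_lit 0) (p (nat_lit 0x38512) (nat_lit 0) (p (nat_lit 0x50392) (nat_lit 0) (p (nat_lit 0x38312) (nat_lit 0) (p (nat_lit 0x20292)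 (nat_lit 0) (p (nat_lit 0x38112) (nat_lit 0) (p (nat_lit 0x20092) (nat_lit 0) (p (nat_lit 0x8012) (nat_lit 0) pn))))))))))))))))))))))))))))) :=
  Cl.node (nat_lit 0xc9) (nat_lit 2) (by decide +kernel) (ClAll.succ (ClAll.succ ClAll.zero s93) n2)

def n9 : Cl (O (nat_lit 3)) (R (nat_lit 14465))
    (p (nat_lit 0xb0014) (nat_lit 0) (p (nat_lit 0x20000c) (nat_lit 1) (p (nat_lit 0x200004) (nat_lit 0) (p (nat_lit 0x111) (nat_lit 1) (p (nat_lit 0xd1) (nat_lit 1) (p (nat_lit 0xc9) (nat_lit 0) (p (nat_lit 0x119) (nat_lit 1) (p (nat_lit 0xc1) (nat_lit 0) (p (nat_lit 0x81) (nat_lit 1) (p (nat_lit 0x41) (nat_lit 1) (p (nat_lit 0x8a0b0a89889a) (nat_lit 0) (p (nat_lit 0x98a8a09081a) (nat_lit 0) (p (nat_lit 0x89080988879a) (nat_lit 0) (p (nat_lit 0x8878908071a) (nat_lit 0) (p (nat_lit 0x80000800080887868a) (nat_lit 0) (p (nat_lit 0x8888070602) (nat_lit 0) (p (nat_lit 0x807868582) (nat_lit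 0) (p (nat_lit 0x8587060502) (nat_lit 0) (p (nat_lit 0x506858482) (nat_lit 0) (p (nat_lit 0x160014) (nat_lit 0) (p (nat_lit 0x68612) (nat_lit 0) (p (nat_lit 0x50592) (nat_lit 0) (p (nat_lit 0x38512) (nat_lit 0) (p (nat_lit 0x50392) (nat_lit 0) (p (nat_lit 0x38312) (nat_lit 0) (p (nat_lit 0x20292) (nat_lit 0) (p (nat_lit 0x38112) (nat_lit 0) (p (nat_lit 0x20092) (nat_lit 0) (p (nat_lit 0x8012) (nat_lit 0) pn))))))))))))))))))))))))))))) :=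
  Cl.node (nat_lit 0x89) (nat_lit 2) (by decide +kernel) (ClAll.succ (ClAll.succ ClAll.zero s127) s128)

def n10 : Cl (O (nat_lit 3)) (R (nat_lit 14465))
    (p (nat_lit 0x200004) (nat_lit 1) (p (nat_lit 0x109) (nat_lit 0) (p (nat_lit 0x101) (nat_lit 0) (p (nat_lit 0x81) (nat_lit 1) (p (nat_lit 0xc1) (nat_lit 1) (p (nat_lit 0x119) (nat_lit 1) (p (nat_lit 0xd1) (nat_lit 0) (p (nat_lit 0x89) (nat_lit 0) (p (nat_lit 0x41) (nat_lit 0) (p (nat_lit 0x8a0b0a89889a) (nat_lit 0) (p (nat_lit 0x98a8a09081a) (nat_lit 0) (p (nat_lit 0x89080988879a) (nat_lit 0) (p (nat_lit 0x8878908071a) (nat_lit 0) (p (nat_lit 0x80000800080887868a) (nat_lit 0) (p (nat_lit 0x8888070602) (nat_lit 0) (p (nat_lit 0x807868582) (nat_lit 0) (p (nat_lit 0x8587060502) (nat_lit 0) (p (nat_lit 0x506858482) (nat_lit 0) (p (nat_lit 0x160014) (nat_lit 0) (p (nat_lit 0x68612) (nat_lit 0) (p (nat_lit 0x50592) (nat_lit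 0) (p (nat_lit 0x38512) (nat_lit 0) (p (nat_lit 0x50392) (nat_lit 0) (p (nat_lit 0x38312) (nat_lit 0) (p (nat_lit 0x20292) (nat_lit 0) (p (nat_lit 0x38112) (nat_lit 0) (p (nat_lit 0x20092) (nat_lit 0) (p (nat_lit 0x8012) (nat_lit 0) pn)))))))))))))))))))))))))))) :=
  Cl.node (nat_lit 0xb0014) (nat_lit 2) (by decide +kernel) (ClAll.succ (ClAll.succ ClAll.zero n3) s20)

def n11 : Cl (O (nat_lit 3)) (R (nat_lit 14465))
    (p (nat_lit 0x20000c) (nat_lit 0) (p (nat_lit 0xb0014) (nat_lit 0) (p (nat_lit 0x200004) (nat_lit 1) (p (nat_lit 0x101) (nat_lit 1) (p (nat_lit 0xc1) (nat_lit 1) (p (nat_lit 0x119) (nat_lit 1) (p (nat_lit 0xc9) (nat_lit 0) (p (nat_lit 0x89) (nat_lit 1) (p (nat_lit 0x41) (nat_lit 0) (p (nat_lit 0x8a0b0a89889a) (nat_lit 0) (p (nat_lit 0x98a8a09081a) (nat_lit 0) (p (nat_lit 0x89080988879a) (nat_lit 0) (p (nat_lit 0x8878908071a) (nat_lit 0) (p (nat_lit 0x80000800080887868a)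 (nat_lit 0) (p (nat_lit 0x8888070602) (nat_lit 0) (p (nat_lit 0x807868582) (nat_lit 0) (p (nat_lit 0x8587060502) (nat_lit 0) (p (nat_lit 0x506858482) (nat_lit 0) (p (nat_lit 0x160014) (nat_lit 0) (p (nat_lit 0x68612) (nat_lit 0) (p (nat_lit 0x50592) (nat_lit 0) (p (nat_lit 0x38512) (nat_lit 0) (p (nat_lit 0x50392) (nat_lit 0) (p (nat_lit 0x38312) (nat_lit 0) (p (nat_lit 0x20292) (nat_lit 0) (p (nat_lit 0x38112) (nat_lit 0) (p (nat_lit 0x20092) (nat_lit 0) (p (nat_lit 0x8012) (nat_lit 0) pn)))))))))))))))))))))))))))) :=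
  Cl.node (nat_lit 0xd1) (nat_lit 2) (by decide +kernel) (ClAll.succ (ClAll.succ ClAll.zero n4) s47)

def n12 : Cl (O (nat_lit 3)) (R (nat_lit 14465))
    (p (nat_lit 0x20000c) (nat_lit 0) (p (nat_lit 0x200004) (nat_lit 0) (p (nat_lit 0x89) (nat_lit 0) (p (nat_lit 0x109) (nat_lit 1) (p (nat_lit 0x101) (nat_lit 0) (p (nat_lit 0x119) (nat_lit 0) (p (nat_lit 0xd1) (nat_lit 0) (p (nat_lit 0x81) (nat_lit 0) (p (nat_lit 0x41) (nat_lit 1) (p (nat_lit 0x8a0b0a89889a) (nat_lit 0) (p (nat_lit 0x98a8a09081a) (nat_lit 0) (p (nat_lit 0x89080988879a) (nat_lit 0) (p (nat_lit 0x8878908071a) (nat_lit 0) (p (nat_lit 0x80000800080887868a) (nat_lit 0) (p (nat_lit 0x8888070602) (nat_lit 0) (p (nat_lit 0x807868582) (nat_lit 0) (p (nat_lit 0x8587060502) (nat_lit 0) (p (nat_lit 0x506858482) (nat_lit 0) (p (nat_lit 0x160014) (nat_lit 0) (p (nat_lit 0x68612) (nat_lit 0) (p (nat_lit 0x50592) (nat_lit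 0) (p (nat_lit 0x38512) (nat_lit 0) (p (nat_lit 0x50392) (nat_lit 0) (p (nat_lit 0x38312) (nat_lit 0) (p (nat_lit 0x20292) (nat_lit 0) (p (nat_lit 0x38112) (nat_lit 0) (p (nat_lit 0x20092) (nat_lit 0) (p (nat_lit 0x8012) (nat_lit 0) pn)))))))))))))))))))))))))))) :=
  Cl.node (nat_lit 0x111) (nat_lit 2) (by decide +kernel) (ClAll.succ (ClAll.succ ClAll.zero s52) s53)

def n13 : Cl (O (nat_lit 3)) (R (nat_lit 14465))
    (p (nat_lit 0x20000c) (nat_lit 1) (p (nat_lit 0x200004) (nat_lit 0) (p (nat_lit 0x89) (nat_lit 1) (p (nat_lit 0xc1) (nat_lit 1) (p (nat_lit 0x101) (nat_lit 1) (p (nat_lit 0x119) (nat_lit 0) (p (nat_lit 0xd1) (nat_lit 0) (p (nat_lit 0x81) (nat_lit 0) (p (nat_lit 0x41) (nat_lit 1) (p (nat_lit 0x8a0b0a89889a) (nat_lit 0) (p (nat_lit 0x98a8a09081a) (nat_lit 0) (p (nat_lit 0x89080988879a) (nat_lit 0) (p (nat_lit 0x8878908071a) (nat_lit 0) (p (nat_lit 0x80000800080887868a)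 (nat_lit 0) (p (nat_lit 0x8888070602) (nat_lit 0) (p (nat_lit 0x807868582) (nat_lit 0) (p (nat_lit 0x8587060502) (nat_lit 0) (p (nat_lit 0x506858482) (nat_lit 0) (p (nat_lit 0x160014) (nat_lit 0) (p (nat_lit 0x68612) (nat_lit 0) (p (nat_lit 0x50592) (nat_lit 0) (p (nat_lit 0x38512) (nat_lit 0) (p (nat_lit 0x50392) (nat_lit 0) (p (nat_lit 0x38312) (nat_lit 0) (p (nat_lit 0x20292) (nat_lit 0) (p (nat_lit 0x38112) (nat_lit 0) (p (nat_lit 0x20092) (nat_lit 0) (p (nat_lit 0x8012) (nat_lit 0) pn)))))))))))))))))))))))))))) :=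
  Cl.node (nat_lit 0xb0014) (nat_lit 2) (by decide +kernel) (ClAll.succ (ClAll.succ ClAll.zero n5) s70)

def n14 : Cl (O (nat_lit 3)) (R (nat_lit 14465))
    (p (nat_lit 0xb0014) (nat_lit 0) (p (nat_lit 0x200004) (nat_lit 1) (p (nat_lit 0x89) (nat_lit 1) (p (nat_lit 0xc1) (nat_lit 1) (p (nat_lit 0x101) (nat_lit 1) (p (nat_lit 0x119) (nat_lit 0) (p (nat_lit 0xd1) (nat_lit 0) (p (nat_lit 0x81) (nat_lit 0) (p (nat_lit 0x41) (nat_lit 1) (p (nat_lit 0x8a0b0a89889a) (nat_lit 0) (p (nat_lit 0x98a8a09081a) (nat_lit 0) (p (nat_lit 0x89080988879a) (nat_lit 0) (p (nat_lit 0x8878908071a) (nat_lit 0) (p (nat_lit 0x80000800080887868a) (nat_lit 0) (p (nat_lit 0x8888070602) (nat_lit 0) (p (nat_lit 0x807868582) (nat_lit 0) (p (nat_lit 0x8587060502) (nat_lit 0) (p (nat_lit 0x506858482) (nat_lit 0) (p (nat_lit 0x160014) (nat_lit 0) (p (nat_lit 0x68612) (nat_lit 0) (p (nat_lit 0x50592) (nat_lit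 0) (p (nat_lit 0x38512) (nat_lit 0) (p (nat_lit 0x50392) (nat_lit 0) (p (nat_lit 0x38312) (nat_lit 0) (p (nat_lit 0x20292) (nat_lit 0) (p (nat_lit 0x38112) (nat_lit 0) (p (nat_lit 0x20092) (nat_lit 0) (p (nat_lit 0x8012) (nat_lit 0) pn)))))))))))))))))))))))))))) :=
  Cl.node (nat_lit 0x20000c) (nat_lit 2) (by decide +kernel) (ClAll.succ (ClAll.succ ClAll.zero s71) s72)

def n15 : Cl (O (nat_lit 3)) (R (nat_lit 14465))
    (p (nat_lit 0x200004) (nat_lit 1) (p (nat_lit 0x109) (nat_lit 1) (p (nat_lit 0x89) (nat_lit 1) (p (nat_lit 0xc9) (nat_lit 1) (p (nat_lit 0xc1) (nat_lit 0) (p (nat_lit 0x119) (nat_lit 1) (p (nat_lit 0xd1) (nat_lit 0) (p (nat_lit 0x81) (nat_lit 0) (p (nat_lit 0x41) (nat_lit 1) (p (nat_lit 0x8a0b0a89889a) (nat_lit 0) (p (nat_lit 0x98a8a09081a) (nat_lit 0) (p (nat_lit 0x89080988879a) (nat_lit 0) (p (nat_lit 0x8878908071a) (nat_lit 0) (p (nat_lit 0x80000800080887868a)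 (nat_lit 0) (p (nat_lit 0x8888070602) (nat_lit 0) (p (nat_lit 0x807868582) (nat_lit 0) (p (nat_lit 0x8587060502) (nat_lit 0) (p (nat_lit 0x506858482) (nat_lit 0) (p (nat_lit 0x160014) (nat_lit 0) (p (nat_lit 0x68612) (nat_lit 0) (p (nat_lit 0x50592) (nat_lit 0) (p (nat_lit 0x38512) (nat_lit 0) (p (nat_lit 0x50392) (nat_lit 0) (p (nat_lit 0x38312) (nat_lit 0) (p (nat_lit 0x20292) (nat_lit 0) (p (nat_lit 0x38112) (nat_lit 0) (p (nat_lit 0x20092) (nat_lit 0) (p (nat_lit 0x8012) (nat_lit 0) pn)))))))))))))))))))))))))))) :=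
  Cl.node (nat_lit 0xb0014) (nat_lit 2) (by decide +kernel) (ClAll.succ (ClAll.succ ClAll.zero n6) s81)

def n16 : Cl (O (nat_lit 3)) (R (nat_lit 14465))
    (p (nat_lit 0x200004) (nat_lit 0) (p (nat_lit 0x109) (nat_lit 1) (p (nat_lit 0x89) (nat_lit 1) (p (nat_lit 0x101) (nat_lit 0) (p (nat_lit 0xc1) (nat_lit 1) (p (nat_lit 0x119) (nat_lit 1) (p (nat_lit 0xd1) (nat_lit 0) (p (nat_lit 0x81) (nat_lit 0) (p (nat_lit 0x41) (nat_lit 1) (p (nat_lit 0x8a0b0a89889a) (nat_lit 0) (p (nat_lit 0x98a8a09081a) (nat_lit 0) (p (nat_lit 0x89080988879a) (nat_lit 0) (p (nat_lit 0x8878908071a) (nat_lit 0) (p (nat_lit 0x80000800080887868a) (nat_lit 0) (p (nat_lit 0x8888070602) (nat_lit 0) (p (nat_lit 0x807868582) (nat_lit 0) (p (nat_lit 0x8587060502) (nat_lit 0) (p (nat_lit 0x506858482) (nat_lit 0) (p (nat_lit 0x160014) (nat_lit 0) (p (nat_lit 0x68612) (nat_lit 0) (p (nat_lit 0x50592) (nat_lit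 0) (p (nat_lit 0x38512) (nat_lit 0) (p (nat_lit 0x50392) (nat_lit 0) (p (nat_lit 0x38312) (nat_lit 0) (p (nat_lit 0x20292) (nat_lit 0) (p (nat_lit 0x38112) (nat_lit 0) (p (nat_lit 0x20092) (nat_lit 0) (p (nat_lit 0x8012) (nat_lit 0) pn)))))))))))))))))))))))))))) :=
  Cl.node (nat_lit 0x20000c) (nat_lit 2) (by decide +kernel) (ClAll.succ (ClAll.succ ClAll.zero s85) s86)

def n17 : Cl (O (nat_lit 3)) (R (nat_lit 14465))
    (p (nat_lit 0x200004) (nat_lit 1) (p (nat_lit 0x109) (nat_lit 1) (p (nat_lit 0x89) (nat_lit 1) (p (nat_lit 0x101) (nat_lit 0) (p (nat_lit 0xc1) (nat_lit 1) (p (nat_lit 0x119) (nat_lit 1) (p (nat_lit 0xd1) (nat_lit 0) (p (nat_lit 0x81) (nat_lit 0) (p (nat_lit 0x41) (nat_lit 1) (p (nat_lit 0x8a0b0a89889a) (nat_lit 0) (p (nat_lit 0x98a8a09081a) (nat_lit 0) (p (nat_lit 0x89080988879a) (nat_lit 0) (p (nat_lit 0x8878908071a) (nat_lit 0) (p (nat_lit 0x80000800080887868a)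 (nat_lit 0) (p (nat_lit 0x8888070602) (nat_lit 0) (p (nat_lit 0x807868582) (nat_lit 0) (p (nat_lit 0x8587060502) (nat_lit 0) (p (nat_lit 0x506858482) (nat_lit 0) (p (nat_lit 0x160014) (nat_lit 0) (p (nat_lit 0x68612) (nat_lit 0) (p (nat_lit 0x50592) (nat_lit 0) (p (nat_lit 0x38512) (nat_lit 0) (p (nat_lit 0x50392) (nat_lit 0) (p (nat_lit 0x38312) (nat_lit 0) (p (nat_lit 0x20292) (nat_lit 0) (p (nat_lit 0x38112) (nat_lit 0) (p (nat_lit 0x20092) (nat_lit 0) (p (nat_lit 0x8012) (nat_lit 0) pn)))))))))))))))))))))))))))) :=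
  Cl.node (nat_lit 0xb0014) (nat_lit 2) (by decide +kernel) (ClAll.succ (ClAll.succ ClAll.zero n7) s89)

def n18 : Cl (O (nat_lit 3)) (R (nat_lit 14465))
    (p (nat_lit 0x20000c) (nat_lit 1) (p (nat_lit 0x200004) (nat_lit 0) (p (nat_lit 0x89) (nat_lit 1) (p (nat_lit 0x101) (nat_lit 1) (p (nat_lit 0xc1) (nat_lit 1) (p (nat_lit 0x119) (nat_lit 1) (p (nat_lit 0xd1) (nat_lit 0) (p (nat_lit 0x81) (nat_lit 0) (p (nat_lit 0x41) (nat_lit 1) (p (nat_lit 0x8a0b0a89889a) (nat_lit 0) (p (nat_lit 0x98a8a09081a) (nat_lit 0) (p (nat_lit 0x89080988879a) (nat_lit 0) (p (nat_lit 0x8878908071a) (nat_lit 0) (p (nat_lit 0x80000800080887868a) (nat_lit 0) (p (nat_lit 0x8888070602) (nat_lit 0) (p (nat_lit 0x807868582) (nat_lit 0) (p (nat_lit 0x8587060502) (nat_lit 0) (p (nat_lit 0x506858482) (nat_lit 0) (p (nat_lit 0x160014) (nat_lit 0) (p (nat_lit 0x68612) (nat_lit 0) (p (nat_lit 0x50592) (nat_lit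 0) (p (nat_lit 0x38512) (nat_lit 0) (p (nat_lit 0x50392) (nat_lit 0) (p (nat_lit 0x38312) (nat_lit 0) (p (nat_lit 0x20292) (nat_lit 0) (p (nat_lit 0x38112) (nat_lit 0) (p (nat_lit 0x20092) (nat_lit 0) (p (nat_lit 0x8012) (nat_lit 0) pn)))))))))))))))))))))))))))) :=
  Cl.node (nat_lit 0xb0014) (nat_lit 2) (by decide +kernel) (ClAll.succ (ClAll.succ ClAll.zero n8) s96)

def n19 : Cl (O (nat_lit 3)) (R (nat_lit 14465))
    (p (nat_lit 0x200004) (nat_lit 0) (p (nat_lit 0xc9) (nat_lit 0) (p (nat_lit 0x89) (nat_lit 1) (p (nat_lit 0x109) (nat_lit 1) (p (nat_lit 0x101) (nat_lit 0) (p (nat_lit 0x111) (nat_lit 0) (p (nat_lit 0xd1) (nat_lit 1) (p (nat_lit 0x81) (nat_lit 0) (p (nat_lit 0x41) (nat_lit 1) (p (nat_lit 0x8a0b0a89889a) (nat_lit 0) (p (nat_lit 0x98a8a09081a) (nat_lit 0) (p (nat_lit 0x89080988879a) (nat_lit 0) (p (nat_lit 0x8878908071a) (nat_lit 0) (p (nat_lit 0x80000800080887868a)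 (nat_lit 0) (p (nat_lit 0x8888070602) (nat_lit 0) (p (nat_lit 0x807868582) (nat_lit 0) (p (nat_lit 0x8587060502) (nat_lit 0) (p (nat_lit 0x506858482) (nat_lit 0) (p (nat_lit 0x160014) (nat_lit 0) (p (nat_lit 0x68612) (nat_lit 0) (p (nat_lit 0x50592) (nat_lit 0) (p (nat_lit 0x38512) (nat_lit 0) (p (nat_lit 0x50392) (nat_lit 0) (p (nat_lit 0x38312) (nat_lit 0) (p (nat_lit 0x20292) (nat_lit 0) (p (nat_lit 0x38112) (nat_lit 0) (p (nat_lit 0x20092) (nat_lit 0) (p (nat_lit 0x8012) (nat_lit 0) pn)))))))))))))))))))))))))))) :=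
  Cl.node (nat_lit 0x20000c) (nat_lit 2) (by decide +kernel) (ClAll.succ (ClAll.succ ClAll.zero s100) s101)

def n20 : Cl (O (nat_lit 3)) (R (nat_lit 14465))
    (p (nat_lit 0x20000c) (nat_lit 1) (p (nat_lit 0x200004) (nat_lit 0) (p (nat_lit 0x111) (nat_lit 1) (p (nat_lit 0xd1) (nat_lit 1) (p (nat_lit 0xc9) (nat_lit 0) (p (nat_lit 0x119) (nat_lit 1) (p (nat_lit 0xc1) (nat_lit 0) (p (nat_lit 0x81) (nat_lit 1) (p (nat_lit 0x41) (nat_lit 1) (p (nat_lit 0x8a0b0a89889a) (nat_lit 0) (p (nat_lit 0x98a8a09081a) (nat_lit 0) (p (nat_lit 0x89080988879a) (nat_lit 0) (p (nat_lit 0x8878908071a) (nat_lit 0) (p (nat_lit 0x80000800080887868a) (nat_lit 0) (p (nat_lit 0x8888070602) (nat_lit 0) (p (nat_lit 0x807868582) (nat_lit 0) (p (nat_lit 0x8587060502) (nat_lit 0) (p (nat_lit 0x506858482) (nat_lit 0) (p (nat_lit 0x160014) (nat_lit 0) (p (nat_lit 0x68612) (nat_lit 0) (p (nat_lit 0x50592)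 (nat_lit 0) (p (nat_lit 0x38512) (nat_lit 0) (p (nat_lit 0x50392) (nat_lit 0) (p (nat_lit 0x38312) (nat_lit 0) (p (nat_lit 0x20292) (nat_lit 0) (p (nat_lit 0x38112) (nat_lit 0) (p (nat_lit 0x20092) (nat_lit 0) (p (nat_lit 0x8012) (nat_lit 0) pn)))))))))))))))))))))))))))) :=
  Cl.node (nat_lit 0xb0014) (nat_lit 2) (by decide +kernel) (ClAll.succ (ClAll.succ ClAll.zero n9) s129)

def n21 : Cl (O (nat_lit 3)) (R (nat_lit 14465))
    (p (nat_lit 0xb0014) (nat_lit 0) (p (nat_lit 0x200004) (nat_lit 1) (p (nat_lit 0x111) (nat_lit 1) (p (nat_lit 0x109) (nat_lit 0) (p (nat_lit 0xc9) (nat_lit 1) (p (nat_lit 0x119) (nat_lit 1) (p (nat_lit 0xc1) (nat_lit 0) (p (nat_lit 0x81) (nat_lit 1) (p (nat_lit 0x41) (nat_lit 1) (p (nat_lit 0x8a0b0a89889a) (nat_lit 0) (p (nat_lit 0x98a8a09081a) (nat_lit 0) (p (nat_lit 0x89080988879a) (nat_lit 0) (p (nat_lit 0x8878908071a) (nat_lit 0) (p (nat_lit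 0x80000800080887868a) (nat_lit 0) (p (nat_lit 0x8888070602) (nat_lit 0) (p (nat_lit 0x807868582) (nat_lit 0) (p (nat_lit 0x8587060502) (nat_lit 0) (p (nat_lit 0x506858482) (nat_lit 0) (p (nat_lit 0x160014) (nat_lit 0) (p (nat_lit 0x68612) (nat_lit 0) (p (nat_lit 0x50592) (nat_lit 0) (p (nat_lit 0x38512) (nat_lit 0) (p (nat_lit 0x50392) (nat_lit 0) (p (nat_lit 0x38312) (nat_lit 0) (p (nat_lit 0x20292) (nat_lit 0) (p (nat_lit 0x38112) (nat_lit 0) (p (nat_lit 0x20092) (nat_lit 0) (p (nat_lit 0x8012) (nat_lit 0) pn)))))))))))))))))))))))))))) :=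
  Cl.node (nat_lit 0x20000c) (nat_lit 2) (by decide +kernel) (ClAll.succ (ClAll.succ ClAll.zero s135) s136)

def n22 : Cl (O (nat_lit 3)) (R (nat_lit 14465))
    (p (nat_lit 0xc9) (nat_lit 0) (p (nat_lit 0xc1) (nat_lit 0) (p (nat_lit 0x81) (nat_lit 1) (p (nat_lit 0x101) (nat_lit 1) (p (nat_lit 0x119) (nat_lit 0) (p (nat_lit 0xd1) (nat_lit 0) (p (nat_lit 0x89) (nat_lit 0) (p (nat_lit 0x41) (nat_lit 0) (p (nat_lit 0x8a0b0a89889a) (nat_lit 0) (p (nat_lit 0x98a8a09081a) (nat_lit 0) (p (nat_lit 0x89080988879a) (nat_lit 0) (p (nat_lit 0x8878908071a) (nat_lit 0) (p (nat_lit 0x80000800080887868a) (nat_lit 0) (p (nat_lit 0x8888070602) (nat_lit 0) (p (nat_lit 0x807868582) (nat_lit 0) (p (nat_lit 0x8587060502) (nat_lit 0) (p (nat_lit 0x506858482) (nat_lit 0) (p (nat_lit 0x160014) (nat_lit 0) (p (nat_lit 0x68612) (nat_lit 0) (p (nat_lit 0x50592) (nat_lit 0) (p (nat_lit 0x38512) (nat_lit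 0) (p (nat_lit 0x50392) (nat_lit 0) (p (nat_lit 0x38312) (nat_lit 0) (p (nat_lit 0x20292) (nat_lit 0) (p (nat_lit 0x38112) (nat_lit 0) (p (nat_lit 0x20092) (nat_lit 0) (p (nat_lit 0x8012) (nat_lit 0) pn))))))))))))))))))))))))))) :=
  Cl.node (nat_lit 0x200004) (nat_lit 2) (by decide +kernel) (ClAll.succ (ClAll.succ ClAll.zero s6) s7)

def n23 : Cl (O (nat_lit 3)) (R (nat_lit 14465))
    (p (nat_lit 0x109) (nat_lit 0) (p (nat_lit 0x101) (nat_lit 0) (p (nat_lit 0x81) (nat_lit 1) (p (nat_lit 0xc1) (nat_lit 1) (p (nat_lit 0x119) (nat_lit 1) (p (nat_lit 0xd1) (nat_lit 0) (p (nat_lit 0x89) (nat_lit 0) (p (nat_lit 0x41) (nat_lit 0) (p (nat_lit 0x8a0b0a89889a) (nat_lit 0) (p (nat_lit 0x98a8a09081a) (nat_lit 0) (p (nat_lit 0x89080988879a) (nat_lit 0) (p (nat_lit 0x8878908071a) (nat_lit 0) (p (nat_lit 0x80000800080887868a) (nat_lit 0) (p (nat_lit 0x8888070602) (nat_lit 0) (p (nat_lit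 0x807868582) (nat_lit 0) (p (nat_lit 0x8587060502) (nat_lit 0) (p (nat_lit 0x506858482) (nat_lit 0) (p (nat_lit 0x160014) (nat_lit 0) (p (nat_lit 0x68612) (nat_lit 0) (p (nat_lit 0x50592) (nat_lit 0) (p (nat_lit 0x38512) (nat_lit 0) (p (nat_lit 0x50392) (nat_lit 0) (p (nat_lit 0x38312) (nat_lit 0) (p (nat_lit 0x20292) (nat_lit 0) (p (nat_lit 0x38112) (nat_lit 0) (p (nat_lit 0x20092) (nat_lit 0) (p (nat_lit 0x8012) (nat_lit 0) pn))))))))))))))))))))))))))) :=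
  Cl.node (nat_lit 0x200004) (nat_lit 2) (by decide +kernel) (ClAll.succ (ClAll.succ ClAll.zero s16) n10)

def n24 : Cl (O (nat_lit 3)) (R (nat_lit 14465))
    (p (nat_lit 0xb0014) (nat_lit 0) (p (nat_lit 0x200004) (nat_lit 1) (p (nat_lit 0x101) (nat_lit 1) (p (nat_lit 0xc1) (nat_lit 1) (p (nat_lit 0x119) (nat_lit 1) (p (nat_lit 0xc9) (nat_lit 0) (p (nat_lit 0x89) (nat_lit 1) (p (nat_lit 0x41) (nat_lit 0) (p (nat_lit 0x8a0b0a89889a) (nat_lit 0) (p (nat_lit 0x98a8a09081a) (nat_lit 0) (p (nat_lit 0x89080988879a) (nat_lit 0) (p (nat_lit 0x8878908071a) (nat_lit 0) (p (nat_lit 0x80000800080887868a) (nat_lit 0) (p (nat_lit 0x8888070602) (nat_lit 0) (p (nat_lit 0x807868582) (nat_lit 0) (p (nat_lit 0x8587060502) (nat_lit 0) (p (nat_lit 0x506858482) (nat_lit 0) (p (nat_lit 0x160014) (nat_lit 0) (p (nat_lit 0x68612) (nat_lit 0) (p (nat_lit 0x50592) (nat_lit 0) (p (nat_lit 0x38512)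 (nat_lit 0) (p (nat_lit 0x50392) (nat_lit 0) (p (nat_lit 0x38312) (nat_lit 0) (p (nat_lit 0x20292) (nat_lit 0) (p (nat_lit 0x38112) (nat_lit 0) (p (nat_lit 0x20092) (nat_lit 0) (p (nat_lit 0x8012) (nat_lit 0) pn))))))))))))))))))))))))))) :=
  Cl.node (nat_lit 0x20000c) (nat_lit 2) (by decide +kernel) (ClAll.succ (ClAll.succ ClAll.zero n11) s48)

def n25 : Cl (O (nat_lit 3)) (R (nat_lit 14465))
    (p (nat_lit 0x200004) (nat_lit 0) (p (nat_lit 0x89) (nat_lit 0) (p (nat_lit 0x109) (nat_lit 1) (p (nat_lit 0x101) (nat_lit 0) (p (nat_lit 0x119) (nat_lit 0) (p (nat_lit 0xd1) (nat_lit 0) (p (nat_lit 0x81) (nat_lit 0) (p (nat_lit 0x41) (nat_lit 1) (p (nat_lit 0x8a0b0a89889a) (nat_lit 0) (p (nat_lit 0x98a8a09081a) (nat_lit 0) (p (nat_lit 0x89080988879a) (nat_lit 0) (p (nat_lit 0x8878908071a) (nat_lit 0) (p (nat_lit 0x80000800080887868a) (nat_lit 0) (p (nat_lit 0x8888070602) (nat_lit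 0) (p (nat_lit 0x807868582) (nat_lit 0) (p (nat_lit 0x8587060502) (nat_lit 0) (p (nat_lit 0x506858482) (nat_lit 0) (p (nat_lit 0x160014) (nat_lit 0) (p (nat_lit 0x68612) (nat_lit 0) (p (nat_lit 0x50592) (nat_lit 0) (p (nat_lit 0x38512) (nat_lit 0) (p (nat_lit 0x50392) (nat_lit 0) (p (nat_lit 0x38312) (nat_lit 0) (p (nat_lit 0x20292) (nat_lit 0) (p (nat_lit 0x38112) (nat_lit 0) (p (nat_lit 0x20092) (nat_lit 0) (p (nat_lit 0x8012) (nat_lit 0) pn))))))))))))))))))))))))))) :=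
  Cl.node (nat_lit 0x20000c) (nat_lit 2) (by decide +kernel) (ClAll.succ (ClAll.succ ClAll.zero n12) s54)

def n26 : Cl (O (nat_lit 3)) (R (nat_lit 14465))
    (p (nat_lit 0xc9) (nat_lit 0) (p (nat_lit 0x89) (nat_lit 1) (p (nat_lit 0x109) (nat_lit 1) (p (nat_lit 0x101) (nat_lit 0) (p (nat_lit 0x119) (nat_lit 0) (p (nat_lit 0xd1) (nat_lit 0) (p (nat_lit 0x81) (nat_lit 0) (p (nat_lit 0x41) (nat_lit 1) (p (nat_lit 0x8a0b0a89889a) (nat_lit 0) (p (nat_lit 0x98a8a09081a) (nat_lit 0) (p (nat_lit 0x89080988879a) (nat_lit 0) (p (nat_lit 0x8878908071a) (nat_lit 0) (p (nat_lit 0x80000800080887868a) (nat_lit 0) (p (nat_lit 0x8888070602) (nat_lit 0) (p (nat_lit 0x807868582) (nat_lit 0) (p (nat_lit 0x8587060502) (nat_lit 0) (p (nat_lit 0x506858482) (nat_lit 0) (p (nat_lit 0x160014) (nat_lit 0) (p (nat_lit 0x68612) (nat_lit 0) (p (nat_lit 0x50592) (nat_lit 0) (p (nat_lit 0x38512) (nat_lit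 0) (p (nat_lit 0x50392) (nat_lit 0) (p (nat_lit 0x38312) (nat_lit 0) (p (nat_lit 0x20292) (nat_lit 0) (p (nat_lit 0x38112) (nat_lit 0) (p (nat_lit 0x20092) (nat_lit 0) (p (nat_lit 0x8012) (nat_lit 0) pn))))))))))))))))))))))))))) :=
  Cl.node (nat_lit 0x200004) (nat_lit 2) (by decide +kernel) (ClAll.succ (ClAll.succ ClAll.zero s56) s57)

def n27 : Cl (O (nat_lit 3)) (R (nat_lit 14465))
    (p (nat_lit 0xc9) (nat_lit 0) (p (nat_lit 0x89) (nat_lit 1) (p (nat_lit 0xc1) (nat_lit 0) (p (nat_lit 0x101) (nat_lit 1) (p (nat_lit 0x119) (nat_lit 0) (p (nat_lit 0xd1) (nat_lit 0) (p (nat_lit 0x81) (nat_lit 0) (p (nat_lit 0x41) (nat_lit 1) (p (nat_lit 0x8a0b0a89889a) (nat_lit 0) (p (nat_lit 0x98a8a09081a) (nat_lit 0) (p (nat_lit 0x89080988879a) (nat_lit 0) (p (nat_lit 0x8878908071a) (nat_lit 0) (p (nat_lit 0x80000800080887868a) (nat_lit 0) (p (nat_lit 0x8888070602) (nat_lit 0) (p (nat_lit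 0x807868582) (nat_lit 0) (p (nat_lit 0x8587060502) (nat_lit 0) (p (nat_lit 0x506858482) (nat_lit 0) (p (nat_lit 0x160014) (nat_lit 0) (p (nat_lit 0x68612) (nat_lit 0) (p (nat_lit 0x50592) (nat_lit 0) (p (nat_lit 0x38512) (nat_lit 0) (p (nat_lit 0x50392) (nat_lit 0) (p (nat_lit 0x38312) (nat_lit 0) (p (nat_lit 0x20292) (nat_lit 0) (p (nat_lit 0x38112) (nat_lit 0) (p (nat_lit 0x20092) (nat_lit 0) (p (nat_lit 0x8012) (nat_lit 0) pn))))))))))))))))))))))))))) :=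
  Cl.node (nat_lit 0x200004) (nat_lit 2) (by decide +kernel) (ClAll.succ (ClAll.succ ClAll.zero s61) s62)

def n28 : Cl (O (nat_lit 3)) (R (nat_lit 14465))
    (p (nat_lit 0xc9) (nat_lit 1) (p (nat_lit 0x89) (nat_lit 1) (p (nat_lit 0xc1) (nat_lit 0) (p (nat_lit 0x101) (nat_lit 1) (p (nat_lit 0x119) (nat_lit 0) (p (nat_lit 0xd1) (nat_lit 0) (p (nat_lit 0x81) (nat_lit 0) (p (nat_lit 0x41) (nat_lit 1) (p (nat_lit 0x8a0b0a89889a) (nat_lit 0) (p (nat_lit 0x98a8a09081a) (nat_lit 0) (p (nat_lit 0x89080988879a) (nat_lit 0) (p (nat_lit 0x8878908071a) (nat_lit 0) (p (nat_lit 0x80000800080887868a) (nat_lit 0) (p (nat_lit 0x8888070602) (nat_lit 0) (p (nat_lit 0x807868582) (nat_lit 0) (p (nat_lit 0x8587060502) (nat_lit 0) (p (nat_lit 0x506858482) (nat_lit 0) (p (nat_lit 0x160014) (nat_lit 0) (p (nat_lit 0x68612) (nat_lit 0) (p (nat_lit 0x50592) (nat_lit 0) (p (nat_lit 0x38512) (nat_lit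 0) (p (nat_lit 0x50392) (nat_lit 0) (p (nat_lit 0x38312) (nat_lit 0) (p (nat_lit 0x20292) (nat_lit 0) (p (nat_lit 0x38112) (nat_lit 0) (p (nat_lit 0x20092) (nat_lit 0) (p (nat_lit 0x8012) (nat_lit 0) pn))))))))))))))))))))))))))) :=
  Cl.node (nat_lit 0x200004) (nat_lit 2) (by decide +kernel) (ClAll.succ (ClAll.succ ClAll.zero s63) s64)

def n29 : Cl (O (nat_lit 3)) (R (nat_lit 14465))
    (p (nat_lit 0x200004) (nat_lit 0) (p (nat_lit 0x89) (nat_lit 1) (p (nat_lit 0xc1) (nat_lit 1) (p (nat_lit 0x101) (nat_lit 1) (p (nat_lit 0x119) (nat_lit 0) (p (nat_lit 0xd1) (nat_lit 0) (p (nat_lit 0x81) (nat_lit 0) (p (nat_lit 0x41) (nat_lit 1) (p (nat_lit 0x8a0b0a89889a) (nat_lit 0) (p (nat_lit 0x98a8a09081a) (nat_lit 0) (p (nat_lit 0x89080988879a) (nat_lit 0) (p (nat_lit 0x8878908071a) (nat_lit 0) (p (nat_lit 0x80000800080887868a) (nat_lit 0) (p (nat_lit 0x8888070602) (nat_lit 0) (p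 (nat_lit 0x807868582) (nat_lit 0) (p (nat_lit 0x8587060502) (nat_lit 0) (p (nat_lit 0x506858482) (nat_lit 0) (p (nat_lit 0x160014) (nat_lit 0) (p (nat_lit 0x68612) (nat_lit 0) (p (nat_lit 0x50592) (nat_lit 0) (p (nat_lit 0x38512) (nat_lit 0) (p (nat_lit 0x50392) (nat_lit 0) (p (nat_lit 0x38312) (nat_lit 0) (p (nat_lit 0x20292) (nat_lit 0) (p (nat_lit 0x38112) (nat_lit 0) (p (nat_lit 0x20092) (nat_lit 0) (p (nat_lit 0x8012) (nat_lit 0) pn))))))))))))))))))))))))))) :=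
  Cl.node (nat_lit 0x20000c) (nat_lit 2) (by decide +kernel) (ClAll.succ (ClAll.succ ClAll.zero s66) n13)

def n30 : Cl (O (nat_lit 3)) (R (nat_lit 14465))
    (p (nat_lit 0x200004) (nat_lit 1) (p (nat_lit 0x89) (nat_lit 1) (p (nat_lit 0xc1) (nat_lit 1) (p (nat_lit 0x101) (nat_lit 1) (p (nat_lit 0x119) (nat_lit 0) (p (nat_lit 0xd1) (nat_lit 0) (p (nat_lit 0x81) (nat_lit 0) (p (nat_lit 0x41) (nat_lit 1) (p (nat_lit 0x8a0b0a89889a) (nat_lit 0) (p (nat_lit 0x98a8a09081a) (nat_lit 0) (p (nat_lit 0x89080988879a) (nat_lit 0) (p (nat_lit 0x8878908071a) (nat_lit 0) (p (nat_lit 0x80000800080887868a) (nat_lit 0) (p (nat_lit 0x8888070602) (nat_lit 0) (p (nat_lit 0x807868582) (nat_lit 0) (p (nat_lit 0x8587060502) (nat_lit 0) (p (nat_lit 0x506858482) (nat_lit 0) (p (nat_lit 0x160014) (nat_lit 0) (p (nat_lit 0x68612) (nat_lit 0) (p (nat_lit 0x50592) (nat_lit 0) (p (nat_lit 0x38512) (nat_lit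 0) (p (nat_lit 0x50392) (nat_lit 0) (p (nat_lit 0x38312) (nat_lit 0) (p (nat_lit 0x20292) (nat_lit 0) (p (nat_lit 0x38112) (nat_lit 0) (p (nat_lit 0x20092) (nat_lit 0) (p (nat_lit 0x8012) (nat_lit 0) pn))))))))))))))))))))))))))) :=
  Cl.node (nat_lit 0xb0014) (nat_lit 2) (by decide +kernel) (ClAll.succ (ClAll.succ ClAll.zero n14) s73)

def n31 : Cl (O (nat_lit 3)) (R (nat_lit 14465))
    (p (nat_lit 0x109) (nat_lit 0) (p (nat_lit 0x89) (nat_lit 1) (p (nat_lit 0xc9) (nat_lit 1) (p (nat_lit 0xc1) (nat_lit 0) (p (nat_lit 0x119) (nat_lit 1) (p (nat_lit 0xd1) (nat_lit 0) (p (nat_lit 0x81) (nat_lit 0) (p (nat_lit 0x41) (nat_lit 1) (p (nat_lit 0x8a0b0a89889a) (nat_lit 0) (p (nat_lit 0x98a8a09081a) (nat_lit 0) (p (nat_lit 0x89080988879a) (nat_lit 0) (p (nat_lit 0x8878908071a) (nat_lit 0) (p (nat_lit 0x80000800080887868a) (nat_lit 0) (p (nat_lit 0x8888070602) (nat_lit 0) (p (nat_lit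 0x807868582) (nat_lit 0) (p (nat_lit 0x8587060502) (nat_lit 0) (p (nat_lit 0x506858482) (nat_lit 0) (p (nat_lit 0x160014) (nat_lit 0) (p (nat_lit 0x68612) (nat_lit 0) (p (nat_lit 0x50592) (nat_lit 0) (p (nat_lit 0x38512) (nat_lit 0) (p (nat_lit 0x50392) (nat_lit 0) (p (nat_lit 0x38312) (nat_lit 0) (p (nat_lit 0x20292) (nat_lit 0) (p (nat_lit 0x38112) (nat_lit 0) (p (nat_lit 0x20092) (nat_lit 0) (p (nat_lit 0x8012) (nat_lit 0) pn))))))))))))))))))))))))))) :=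
  Cl.node (nat_lit 0x200004) (nat_lit 2) (by decide +kernel) (ClAll.succ (ClAll.succ ClAll.zero s76) s77)

def n32 : Cl (O (nat_lit 3)) (R (nat_lit 14465))
    (p (nat_lit 0x109) (nat_lit 1) (p (nat_lit 0x89) (nat_lit 1) (p (nat_lit 0xc9) (nat_lit 1) (p (nat_lit 0xc1) (nat_lit 0) (p (nat_lit 0x119) (nat_lit 1) (p (nat_lit 0xd1) (nat_lit 0) (p (nat_lit 0x81) (nat_lit 0) (p (nat_lit 0x41) (nat_lit 1) (p (nat_lit 0x8a0b0a89889a) (nat_lit 0) (p (nat_lit 0x98a8a09081a) (nat_lit 0) (p (nat_lit 0x89080988879a) (nat_lit 0) (p (nat_lit 0x8878908071a) (nat_lit 0) (p (nat_lit 0x80000800080887868a) (nat_lit 0) (p (nat_lit 0x8888070602) (nat_lit 0) (p (nat_lit 0x807868582) (nat_lit 0) (p (nat_lit 0x8587060502) (nat_lit 0) (p (nat_lit 0x506858482) (nat_lit 0) (p (nat_lit 0x160014) (nat_lit 0) (p (nat_lit 0x68612) (nat_lit 0) (p (nat_lit 0x50592) (nat_lit 0) (p (nat_lit 0x38512) (nat_lit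 0) (p (nat_lit 0x50392) (nat_lit 0) (p (nat_lit 0x38312) (nat_lit 0) (p (nat_lit 0x20292) (nat_lit 0) (p (nat_lit 0x38112) (nat_lit 0) (p (nat_lit 0x20092) (nat_lit 0) (p (nat_lit 0x8012) (nat_lit 0) pn))))))))))))))))))))))))))) :=
  Cl.node (nat_lit 0x200004) (nat_lit 2) (by decide +kernel) (ClAll.succ (ClAll.succ ClAll.zero s78) n15)

def n33 : Cl (O (nat_lit 3)) (R (nat_lit 14465))
    (p (nat_lit 0x109) (nat_lit 0) (p (nat_lit 0x89) (nat_lit 1) (p (nat_lit 0x101) (nat_lit 0) (p (nat_lit 0xc1) (nat_lit 1) (p (nat_lit 0x119) (nat_lit 1) (p (nat_lit 0xd1) (nat_lit 0) (p (nat_lit 0x81) (nat_lit 0) (p (nat_lit 0x41) (nat_lit 1) (p (nat_lit 0x8a0b0a89889a) (nat_lit 0) (p (nat_lit 0x98a8a09081a) (nat_lit 0) (p (nat_lit 0x89080988879a) (nat_lit 0) (p (nat_lit 0x8878908071a) (nat_lit 0) (p (nat_lit 0x80000800080887868a) (nat_lit 0) (p (nat_lit 0x8888070602) (nat_lit 0) (p (nat_lit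 0x807868582) (nat_lit 0) (p (nat_lit 0x8587060502) (nat_lit 0) (p (nat_lit 0x506858482) (nat_lit 0) (p (nat_lit 0x160014) (nat_lit 0) (p (nat_lit 0x68612) (nat_lit 0) (p (nat_lit 0x50592) (nat_lit 0) (p (nat_lit 0x38512) (nat_lit 0) (p (nat_lit 0x50392) (nat_lit 0) (p (nat_lit 0x38312) (nat_lit 0) (p (nat_lit 0x20292) (nat_lit 0) (p (nat_lit 0x38112) (nat_lit 0) (p (nat_lit 0x20092) (nat_lit 0) (p (nat_lit 0x8012) (nat_lit 0) pn))))))))))))))))))))))))))) :=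
  Cl.node (nat_lit 0x200004) (nat_lit 2) (by decide +kernel) (ClAll.succ (ClAll.succ ClAll.zero s83) s84)

def n34 : Cl (O (nat_lit 3)) (R (nat_lit 14465))
    (p (nat_lit 0x109) (nat_lit 1) (p (nat_lit 0x89) (nat_lit 1) (p (nat_lit 0x101) (nat_lit 0) (p (nat_lit 0xc1) (nat_lit 1) (p (nat_lit 0x119) (nat_lit 1) (p (nat_lit 0xd1) (nat_lit 0) (p (nat_lit 0x81) (nat_lit 0) (p (nat_lit 0x41) (nat_lit 1) (p (nat_lit 0x8a0b0a89889a) (nat_lit 0) (p (nat_lit 0x98a8a09081a) (nat_lit 0) (p (nat_lit 0x89080988879a) (nat_lit 0) (p (nat_lit 0x8878908071a) (nat_lit 0) (p (nat_lit 0x80000800080887868a) (nat_lit 0) (p (nat_lit 0x8888070602) (nat_lit 0) (p (nat_lit 0x807868582) (nat_lit 0) (p (nat_lit 0x8587060502) (nat_lit 0) (p (nat_lit 0x506858482) (nat_lit 0) (p (nat_lit 0x160014) (nat_lit 0) (p (nat_lit 0x68612) (nat_lit 0) (p (nat_lit 0x50592) (nat_lit 0) (p (nat_lit 0x38512) (nat_lit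 0) (p (nat_lit 0x50392) (nat_lit 0) (p (nat_lit 0x38312) (nat_lit 0) (p (nat_lit 0x20292) (nat_lit 0) (p (nat_lit 0x38112) (nat_lit 0) (p (nat_lit 0x20092) (nat_lit 0) (p (nat_lit 0x8012) (nat_lit 0) pn))))))))))))))))))))))))))) :=
  Cl.node (nat_lit 0x200004) (nat_lit 2) (by decide +kernel) (ClAll.succ (ClAll.succ ClAll.zero n16) n17)

def n35 : Cl (O (nat_lit 3)) (R (nat_lit 14465))
    (p (nat_lit 0x200004) (nat_lit 0) (p (nat_lit 0x89) (nat_lit 1) (p (nat_lit 0x101) (nat_lit 1) (p (nat_lit 0xc1) (nat_lit 1) (p (nat_lit 0x119) (nat_lit 1) (p (nat_lit 0xd1) (nat_lit 0) (p (nat_lit 0x81) (nat_lit 0) (p (nat_lit 0x41) (nat_lit 1) (p (nat_lit 0x8a0b0a89889a) (nat_lit 0) (p (nat_lit 0x98a8a09081a) (nat_lit 0) (p (nat_lit 0x89080988879a) (nat_lit 0) (p (nat_lit 0x8878908071a) (nat_lit 0) (p (nat_lit 0x80000800080887868a) (nat_lit 0) (p (nat_lit 0x8888070602) (nat_lit 0) (p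 (nat_lit 0x807868582) (nat_lit 0) (p (nat_lit 0x8587060502) (nat_lit 0) (p (nat_lit 0x506858482) (nat_lit 0) (p (nat_lit 0x160014) (nat_lit 0) (p (nat_lit 0x68612) (nat_lit 0) (p (nat_lit 0x50592) (nat_lit 0) (p (nat_lit 0x38512) (nat_lit 0) (p (nat_lit 0x50392) (nat_lit 0) (p (nat_lit 0x38312) (nat_lit 0) (p (nat_lit 0x20292) (nat_lit 0) (p (nat_lit 0x38112) (nat_lit 0) (p (nat_lit 0x20092) (nat_lit 0) (p (nat_lit 0x8012) (nat_lit 0) pn))))))))))))))))))))))))))) :=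
  Cl.node (nat_lit 0x20000c) (nat_lit 2) (by decide +kernel) (ClAll.succ (ClAll.succ ClAll.zero s92) n18)

def n36 : Cl (O (nat_lit 3)) (R (nat_lit 14465))
    (p (nat_lit 0xc9) (nat_lit 0) (p (nat_lit 0x89) (nat_lit 1) (p (nat_lit 0x109) (nat_lit 1) (p (nat_lit 0x101) (nat_lit 0) (p (nat_lit 0x111) (nat_lit 0) (p (nat_lit 0xd1) (nat_lit 1) (p (nat_lit 0x81) (nat_lit 0) (p (nat_lit 0x41) (nat_lit 1) (p (nat_lit 0x8a0b0a89889a) (nat_lit 0) (p (nat_lit 0x98a8a09081a) (nat_lit 0) (p (nat_lit 0x89080988879a) (nat_lit 0) (p (nat_lit 0x8878908071a) (nat_lit 0) (p (nat_lit 0x80000800080887868a) (nat_lit 0) (p (nat_lit 0x8888070602) (nat_lit 0) (p (nat_lit 0x807868582) (nat_lit 0) (p (nat_lit 0x8587060502) (nat_lit 0) (p (nat_lit 0x506858482) (nat_lit 0) (p (nat_lit 0x160014) (nat_lit 0) (p (nat_lit 0x68612) (nat_lit 0) (p (nat_lit 0x50592) (nat_lit 0) (p (nat_lit 0x38512) (nat_lit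 0) (p (nat_lit 0x50392) (nat_lit 0) (p (nat_lit 0x38312) (nat_lit 0) (p (nat_lit 0x20292) (nat_lit 0) (p (nat_lit 0x38112) (nat_lit 0) (p (nat_lit 0x20092) (nat_lit 0) (p (nat_lit 0x8012) (nat_lit 0) pn))))))))))))))))))))))))))) :=
  Cl.node (nat_lit 0x200004) (nat_lit 2) (by decide +kernel) (ClAll.succ (ClAll.succ ClAll.zero n19) s102)

def n37 : Cl (O (nat_lit 3)) (R (nat_lit 14465))
    (p (nat_lit 0xd1) (nat_lit 1) (p (nat_lit 0x111) (nat_lit 1) (p (nat_lit 0x109) (nat_lit 0) (p (nat_lit 0x101) (nat_lit 0) (p (nat_lit 0x119) (nat_lit 0) (p (nat_lit 0xc1) (nat_lit 0) (p (nat_lit 0x81) (nat_lit 1) (p (nat_lit 0x41) (nat_lit 1) (p (nat_lit 0x8a0b0a89889a) (nat_lit 0) (p (nat_lit 0x98a8a09081a) (nat_lit 0) (p (nat_lit 0x89080988879a) (nat_lit 0) (p (nat_lit 0x8878908071a) (nat_lit 0) (p (nat_lit 0x80000800080887868a) (nat_lit 0) (p (nat_lit 0x8888070602) (nat_lit 0) (p (nat_lit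 0x807868582) (nat_lit 0) (p (nat_lit 0x8587060502) (nat_lit 0) (p (nat_lit 0x506858482) (nat_lit 0) (p (nat_lit 0x160014) (nat_lit 0) (p (nat_lit 0x68612) (nat_lit 0) (p (nat_lit 0x50592) (nat_lit 0) (p (nat_lit 0x38512) (nat_lit 0) (p (nat_lit 0x50392) (nat_lit 0) (p (nat_lit 0x38312) (nat_lit 0) (p (nat_lit 0x20292) (nat_lit 0) (p (nat_lit 0x38112) (nat_lit 0) (p (nat_lit 0x20092) (nat_lit 0) (p (nat_lit 0x8012) (nat_lit 0) pn))))))))))))))))))))))))))) :=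
  Cl.node (nat_lit 0x200004) (nat_lit 2) (by decide +kernel) (ClAll.succ (ClAll.succ ClAll.zero s111) s112)

def n38 : Cl (O (nat_lit 3)) (R (nat_lit 14465))
    (p (nat_lit 0xd1) (nat_lit 1) (p (nat_lit 0xc9) (nat_lit 0) (p (nat_lit 0x109) (nat_lit 1) (p (nat_lit 0x101) (nat_lit 0) (p (nat_lit 0x119) (nat_lit 0) (p (nat_lit 0xc1) (nat_lit 0) (p (nat_lit 0x81) (nat_lit 1) (p (nat_lit 0x41) (nat_lit 1) (p (nat_lit 0x8a0b0a89889a) (nat_lit 0) (p (nat_lit 0x98a8a09081a) (nat_lit 0) (p (nat_lit 0x89080988879a) (nat_lit 0) (p (nat_lit 0x8878908071a) (nat_lit 0) (p (nat_lit 0x80000800080887868a) (nat_lit 0) (p (nat_lit 0x8888070602) (nat_lit 0) (p (nat_lit 0x807868582) (nat_lit 0) (p (nat_lit 0x8587060502) (nat_lit 0) (p (nat_lit 0x506858482) (nat_lit 0) (p (nat_lit 0x160014) (nat_lit 0) (p (nat_lit 0x68612) (nat_lit 0) (p (nat_lit 0x50592) (nat_lit 0) (p (nat_lit 0x38512) (nat_lit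 0) (p (nat_lit 0x50392) (nat_lit 0) (p (nat_lit 0x38312) (nat_lit 0) (p (nat_lit 0x20292) (nat_lit 0) (p (nat_lit 0x38112) (nat_lit 0) (p (nat_lit 0x20092) (nat_lit 0) (p (nat_lit 0x8012) (nat_lit 0) pn))))))))))))))))))))))))))) :=
  Cl.node (nat_lit 0x200004) (nat_lit 2) (by decide +kernel) (ClAll.succ (ClAll.succ ClAll.zero s114) s115)

def n39 : Cl (O (nat_lit 3)) (R (nat_lit 14465))
    (p (nat_lit 0x200004) (nat_lit 0) (p (nat_lit 0xd1) (nat_lit 1) (p (nat_lit 0xc9) (nat_lit 0) (p (nat_lit 0x101) (nat_lit 1) (p (nat_lit 0x119) (nat_lit 0) (p (nat_lit 0xc1) (nat_lit 0) (p (nat_lit 0x81) (nat_lit 1) (p (nat_lit 0x41) (nat_lit 1) (p (nat_lit 0x8a0b0a89889a) (nat_lit 0) (p (nat_lit 0x98a8a09081a) (nat_lit 0) (p (nat_lit 0x89080988879a) (nat_lit 0) (p (nat_lit 0x8878908071a) (nat_lit 0) (p (nat_lit 0x80000800080887868a) (nat_lit 0) (p (nat_lit 0x8888070602) (nat_lit 0) (p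 (nat_lit 0x807868582) (nat_lit 0) (p (nat_lit 0x8587060502) (nat_lit 0) (p (nat_lit 0x506858482) (nat_lit 0) (p (nat_lit 0x160014) (nat_lit 0) (p (nat_lit 0x68612) (nat_lit 0) (p (nat_lit 0x50592) (nat_lit 0) (p (nat_lit 0x38512) (nat_lit 0) (p (nat_lit 0x50392) (nat_lit 0) (p (nat_lit 0x38312) (nat_lit 0) (p (nat_lit 0x20292) (nat_lit 0) (p (nat_lit 0x38112) (nat_lit 0) (p (nat_lit 0x20092) (nat_lit 0) (p (nat_lit 0x8012) (nat_lit 0) pn))))))))))))))))))))))))))) :=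
  Cl.node (nat_lit 0x20000c) (nat_lit 2) (by decide +kernel) (ClAll.succ (ClAll.succ ClAll.zero s119) s120)

def n40 : Cl (O (nat_lit 3)) (R (nat_lit 14465))
    (p (nat_lit 0x200004) (nat_lit 0) (p (nat_lit 0x111) (nat_lit 1) (p (nat_lit 0xd1) (nat_lit 1) (p (nat_lit 0xc9) (nat_lit 0) (p (nat_lit 0x119) (nat_lit 1) (p (nat_lit 0xc1) (nat_lit 0) (p (nat_lit 0x81) (nat_lit 1) (p (nat_lit 0x41) (nat_lit 1) (p (nat_lit 0x8a0b0a89889a) (nat_lit 0) (p (nat_lit 0x98a8a09081a) (nat_lit 0) (p (nat_lit 0x89080988879a) (nat_lit 0) (p (nat_lit 0x8878908071a) (nat_lit 0) (p (nat_lit 0x80000800080887868a) (nat_lit 0) (p (nat_lit 0x8888070602) (nat_lit 0) (p (nat_lit 0x807868582) (nat_lit 0) (p (nat_lit 0x8587060502) (nat_lit 0) (p (nat_lit 0x506858482) (nat_lit 0) (p (nat_lit 0x160014) (nat_lit 0) (p (nat_lit 0x68612) (nat_lit 0) (p (nat_lit 0x50592) (nat_lit 0) (p (nat_lit 0x38512) (nat_lit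 0) (p (nat_lit 0x50392) (nat_lit 0) (p (nat_lit 0x38312) (nat_lit 0) (p (nat_lit 0x20292) (nat_lit 0) (p (nat_lit 0x38112) (nat_lit 0) (p (nat_lit 0x20092) (nat_lit 0) (p (nat_lit 0x8012) (nat_lit 0) pn))))))))))))))))))))))))))) :=
  Cl.node (nat_lit 0x20000c) (nat_lit 2) (by decide +kernel) (ClAll.succ (ClAll.succ ClAll.zero s126) n20)

def n41 : Cl (O (nat_lit 3)) (R (nat_lit 14465))
    (p (nat_lit 0x200004) (nat_lit 0) (p (nat_lit 0x111) (nat_lit 1) (p (nat_lit 0x109) (nat_lit 0) (p (nat_lit 0xc9) (nat_lit 1) (p (nat_lit 0x119) (nat_lit 1) (p (nat_lit 0xc1) (nat_lit 0) (p (nat_lit 0x81) (nat_lit 1) (p (nat_lit 0x41) (nat_lit 1) (p (nat_lit 0x8a0b0a89889a) (nat_lit 0) (p (nat_lit 0x98a8a09081a) (nat_lit 0) (p (nat_lit 0x89080988879a) (nat_lit 0) (p (nat_lit 0x8878908071a) (nat_lit 0) (p (nat_lit 0x80000800080887868a) (nat_lit 0) (p (nat_lit 0x8888070602) (nat_lit 0) (p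 (nat_lit 0x807868582) (nat_lit 0) (p (nat_lit 0x8587060502) (nat_lit 0) (p (nat_lit 0x506858482) (nat_lit 0) (p (nat_lit 0x160014) (nat_lit 0) (p (nat_lit 0x68612) (nat_lit 0) (p (nat_lit 0x50592) (nat_lit 0) (p (nat_lit 0x38512) (nat_lit 0) (p (nat_lit 0x50392) (nat_lit 0) (p (nat_lit 0x38312) (nat_lit 0) (p (nat_lit 0x20292) (nat_lit 0) (p (nat_lit 0x38112) (nat_lit 0) (p (nat_lit 0x20092) (nat_lit 0) (p (nat_lit 0x8012) (nat_lit 0) pn))))))))))))))))))))))))))) :=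
  Cl.node (nat_lit 0x20000c) (nat_lit 2) (by decide +kernel) (ClAll.succ (ClAll.succ ClAll.zero s133) s134)

def n42 : Cl (O (nat_lit 3)) (R (nat_lit 14465))
    (p (nat_lit 0x200004) (nat_lit 1) (p (nat_lit 0x111) (nat_lit 1) (p (nat_lit 0x109) (nat_lit 0) (p (nat_lit 0xc9) (nat_lit 1) (p (nat_lit 0x119) (nat_lit 1) (p (nat_lit 0xc1) (nat_lit 0) (p (nat_lit 0x81) (nat_lit 1) (p (nat_lit 0x41) (nat_lit 1) (p (nat_lit 0x8a0b0a89889a) (nat_lit 0) (p (nat_lit 0x98a8a09081a) (nat_lit 0) (p (nat_lit 0x89080988879a) (nat_lit 0) (p (nat_lit 0x8878908071a) (nat_lit 0) (p (nat_lit 0x80000800080887868a) (nat_lit 0) (p (nat_lit 0x8888070602) (nat_lit 0) (p (nat_lit 0x807868582) (nat_lit 0) (p (nat_lit 0x8587060502) (nat_lit 0) (p (nat_lit 0x506858482) (nat_lit 0) (p (nat_lit 0x160014) (nat_lit 0) (p (nat_lit 0x68612) (nat_lit 0) (p (nat_lit 0x50592) (nat_lit 0) (p (nat_lit 0x38512)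 (nat_lit 0) (p (nat_lit 0x50392) (nat_lit 0) (p (nat_lit 0x38312) (nat_lit 0) (p (nat_lit 0x20292) (nat_lit 0) (p (nat_lit 0x38112) (nat_lit 0) (p (nat_lit 0x20092) (nat_lit 0) (p (nat_lit 0x8012) (nat_lit 0) pn))))))))))))))))))))))))))) :=
  Cl.node (nat_lit 0xb0014) (nat_lit 2) (by decide +kernel) (ClAll.succ (ClAll.succ ClAll.zero n21) s137)

def n43 : Cl (O (nat_lit 3)) (R (nat_lit 14465))
    (p (nat_lit 0xc9) (nat_lit 0) (p (nat_lit 0x81) (nat_lit 0) (p (nat_lit 0x101) (nat_lit 1) (p (nat_lit 0x119) (nat_lit 0) (p (nat_lit 0xd1) (nat_lit 0) (p (nat_lit 0x89) (nat_lit 0) (p (nat_lit 0x41) (nat_lit 0) (p (nat_lit 0x8a0b0a89889a) (nat_lit 0) (p (nat_lit 0x98a8a09081a) (nat_lit 0) (p (nat_lit 0x89080988879a) (nat_lit 0) (p (nat_lit 0x8878908071a) (nat_lit 0) (p (nat_lit 0x80000800080887868a) (nat_lit 0) (p (nat_lit 0x8888070602) (nat_lit 0) (p (nat_lit 0x807868582) (nat_lit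 0) (p (nat_lit 0x8587060502) (nat_lit 0) (p (nat_lit 0x506858482) (nat_lit 0) (p (nat_lit 0x160014) (nat_lit 0) (p (nat_lit 0x68612) (nat_lit 0) (p (nat_lit 0x50592) (nat_lit 0) (p (nat_lit 0x38512) (nat_lit 0) (p (nat_lit 0x50392) (nat_lit 0) (p (nat_lit 0x38312) (nat_lit 0) (p (nat_lit 0x20292) (nat_lit 0) (p (nat_lit 0x38112) (nat_lit 0) (p (nat_lit 0x20092) (nat_lit 0) (p (nat_lit 0x8012) (nat_lit 0) pn)))))))))))))))))))))))))) :=
  Cl.node (nat_lit 0x200004) (nat_lit 2) (by decide +kernel) (ClAll.succ (ClAll.succ ClAll.zero s3) s4)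

def n44 : Cl (O (nat_lit 3)) (R (nat_lit 14465))
    (p (nat_lit 0xc1) (nat_lit 0) (p (nat_lit 0x81) (nat_lit 1) (p (nat_lit 0x101) (nat_lit 1) (p (nat_lit 0x119) (nat_lit 0) (p (nat_lit 0xd1) (nat_lit 0) (p (nat_lit 0x89) (nat_lit 0) (p (nat_lit 0x41) (nat_lit 0) (p (nat_lit 0x8a0b0a89889a) (nat_lit 0) (p (nat_lit 0x98a8a09081a) (nat_lit 0) (p (nat_lit 0x89080988879a) (nat_lit 0) (p (nat_lit 0x8878908071a) (nat_lit 0) (p (nat_lit 0x80000800080887868a) (nat_lit 0) (p (nat_lit 0x8888070602) (nat_lit 0) (p (nat_lit 0x807868582) (nat_lit 0) (p (nat_lit 0x8587060502) (nat_lit 0) (p (nat_lit 0x506858482) (nat_lit 0) (p (nat_lit 0x160014) (nat_lit 0) (p (nat_lit 0x68612) (nat_lit 0) (p (nat_lit 0x50592) (nat_lit 0) (p (nat_lit 0x38512) (nat_lit 0) (p (nat_lit 0x50392) (nat_lit 0) (p (nat_lit 0x38312) (nat_lit 0) (p (nat_lit 0x20292) (nat_lit 0) (p (nat_lit 0x38112) (nat_lit 0)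 (p (nat_lit 0x20092) (nat_lit 0) (p (nat_lit 0x8012) (nat_lit 0) pn)))))))))))))))))))))))))) :=
  Cl.node (nat_lit 0xc9) (nat_lit 2) (by decide +kernel) (ClAll.succ (ClAll.succ ClAll.zero n22) s8)

def n45 : Cl (O (nat_lit 3)) (R (nat_lit 14465))
    (p (nat_lit 0x109) (nat_lit 1) (p (nat_lit 0xc9) (nat_lit 1) (p (nat_lit 0xc1) (nat_lit 0) (p (nat_lit 0x119) (nat_lit 1) (p (nat_lit 0xd1) (nat_lit 0) (p (nat_lit 0x89) (nat_lit 0) (p (nat_lit 0x41) (nat_lit 0) (p (nat_lit 0x8a0b0a89889a) (nat_lit 0) (p (nat_lit 0x98a8a09081a) (nat_lit 0) (p (nat_lit 0x89080988879a) (nat_lit 0) (p (nat_lit 0x8878908071a) (nat_lit 0) (p (nat_lit 0x80000800080887868a) (nat_lit 0) (p (nat_lit 0x8888070602) (nat_lit 0) (p (nat_lit 0x807868582) (nat_lit 0) (p (nat_lit 0x8587060502) (nat_lit 0) (p (nat_lit 0x506858482) (nat_lit 0) (p (nat_lit 0x160014) (nat_lit 0) (p (nat_lit 0x68612) (nat_lit 0)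 (p (nat_lit 0x50592) (nat_lit 0) (p (nat_lit 0x38512) (nat_lit 0) (p (nat_lit 0x50392) (nat_lit 0) (p (nat_lit 0x38312) (nat_lit 0) (p (nat_lit 0x20292) (nat_lit 0) (p (nat_lit 0x38112) (nat_lit 0) (p (nat_lit 0x20092) (nat_lit 0) (p (nat_lit 0x8012) (nat_lit 0) pn)))))))))))))))))))))))))) :=
  Cl.node (nat_lit 0x200004) (nat_lit 2) (by decide +kernel) (ClAll.succ (ClAll.succ ClAll.zero s12) s13)

def n46 : Cl (O (nat_lit 3)) (R (nat_lit 14465))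
    (p (nat_lit 0x101) (nat_lit 0) (p (nat_lit 0x81) (nat_lit 1) (p (nat_lit 0xc1) (nat_lit 1) (p (nat_lit 0x119) (nat_lit 1) (p (nat_lit 0xd1) (nat_lit 0) (p (nat_lit 0x89) (nat_lit 0) (p (nat_lit 0x41) (nat_lit 0) (p (nat_lit 0x8a0b0a89889a) (nat_lit 0) (p (nat_lit 0x98a8a09081a) (nat_lit 0) (p (nat_lit 0x89080988879a) (nat_lit 0) (p (nat_lit 0x8878908071a) (nat_lit 0) (p (nat_lit 0x80000800080887868a) (nat_lit 0) (p (nat_lit 0x8888070602) (nat_lit 0) (p (nat_lit 0x807868582) (nat_lit 0) (p (nat_lit 0x8587060502) (nat_lit 0) (p (nat_lit 0x506858482) (nat_lit 0) (p (nat_lit 0x160014) (nat_lit 0) (p (nat_lit 0x68612) (nat_lit 0) (p (nat_lit 0x50592) (nat_lit 0) (p (nat_lit 0x38512) (nat_lit 0) (p (nat_lit 0x50392) (nat_lit 0) (p (nat_lit 0x38312) (nat_lit 0) (p (nat_lit 0x20292) (nat_lit 0) (p (nat_lit 0x38112) (nat_lit 0) (p (nat_lit 0x20092) (nat_lit 0) (p (nat_lit 0x8012)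 (nat_lit 0) pn)))))))))))))))))))))))))) :=
  Cl.node (nat_lit 0x109) (nat_lit 2) (by decide +kernel) (ClAll.succ (ClAll.succ ClAll.zero n23) s21)

def n47 : Cl (O (nat_lit 3)) (R (nat_lit 14465))
    (p (nat_lit 0xd1) (nat_lit 0) (p (nat_lit 0x109) (nat_lit 1) (p (nat_lit 0x101) (nat_lit 0) (p (nat_lit 0x119) (nat_lit 0) (p (nat_lit 0xc9) (nat_lit 0) (p (nat_lit 0x89) (nat_lit 1) (p (nat_lit 0x41) (nat_lit 0) (p (nat_lit 0x8a0b0a89889a) (nat_lit 0) (p (nat_lit 0x98a8a09081a) (nat_lit 0) (p (nat_lit 0x89080988879a) (nat_lit 0) (p (nat_lit 0x8878908071a) (nat_lit 0) (p (nat_lit 0x80000800080887868a) (nat_lit 0) (p (nat_lit 0x8888070602) (nat_lit 0) (p (nat_lit 0x807868582) (nat_lit 0) (p (nat_lit 0x8587060502) (nat_lit 0) (p (nat_lit 0x506858482) (nat_lit 0) (p (nat_lit 0x160014) (nat_lit 0) (p (nat_lit 0x68612) (nat_lit 0) (p (nat_lit 0x50592) (nat_lit 0) (p (nat_lit 0x38512)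 (nat_lit 0) (p (nat_lit 0x50392) (nat_lit 0) (p (nat_lit 0x38312) (nat_lit 0) (p (nat_lit 0x20292) (nat_lit 0) (p (nat_lit 0x38112) (nat_lit 0) (p (nat_lit 0x20092) (nat_lit 0) (p (nat_lit 0x8012) (nat_lit 0) pn)))))))))))))))))))))))))) :=
  Cl.node (nat_lit 0x200004) (nat_lit 2) (by decide +kernel) (ClAll.succ (ClAll.succ ClAll.zero s32) s33)

def n48 : Cl (O (nat_lit 3)) (R (nat_lit 14465))
    (p (nat_lit 0xd1) (nat_lit 0) (p (nat_lit 0xc1) (nat_lit 0) (p (nat_lit 0x101) (nat_lit 1) (p (nat_lit 0x119) (nat_lit 0) (p (nat_lit 0xc9) (nat_lit 0) (p (nat_lit 0x89) (nat_lit 1) (p (nat_lit 0x41) (nat_lit 0) (p (nat_lit 0x8a0b0a89889a) (nat_lit 0) (p (nat_lit 0x98a8a09081a) (nat_lit 0) (p (nat_lit 0x89080988879a) (nat_lit 0) (p (nat_lit 0x8878908071a) (nat_lit 0) (p (nat_lit 0x80000800080887868a) (nat_lit 0) (p (nat_lit 0x8888070602) (nat_lit 0) (p (nat_lit 0x807868582) (nat_lit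 0) (p (nat_lit 0x8587060502) (nat_lit 0) (p (nat_lit 0x506858482) (nat_lit 0) (p (nat_lit 0x160014) (nat_lit 0) (p (nat_lit 0x68612) (nat_lit 0) (p (nat_lit 0x50592) (nat_lit 0) (p (nat_lit 0x38512) (nat_lit 0) (p (nat_lit 0x50392) (nat_lit 0) (p (nat_lit 0x38312) (nat_lit 0) (p (nat_lit 0x20292) (nat_lit 0) (p (nat_lit 0x38112) (nat_lit 0) (p (nat_lit 0x20092) (nat_lit 0) (p (nat_lit 0x8012) (nat_lit 0) pn)))))))))))))))))))))))))) :=
  Cl.node (nat_lit 0x200004) (nat_lit 2) (by decide +kernel) (ClAll.succ (ClAll.succ ClAll.zero s35) s36)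

def n49 : Cl (O (nat_lit 3)) (R (nat_lit 14465))
    (p (nat_lit 0x111) (nat_lit 0) (p (nat_lit 0x101) (nat_lit 0) (p (nat_lit 0xc1) (nat_lit 1) (p (nat_lit 0x119) (nat_lit 1) (p (nat_lit 0xc9) (nat_lit 0) (p (nat_lit 0x89) (nat_lit 1) (p (nat_lit 0x41) (nat_lit 0) (p (nat_lit 0x8a0b0a89889a) (nat_lit 0) (p (nat_lit 0x98a8a09081a) (nat_lit 0) (p (nat_lit 0x89080988879a) (nat_lit 0) (p (nat_lit 0x8878908071a) (nat_lit 0) (p (nat_lit 0x80000800080887868a) (nat_lit 0) (p (nat_lit 0x8888070602) (nat_lit 0) (p (nat_lit 0x807868582) (nat_lit 0) (p (nat_lit 0x8587060502) (nat_lit 0) (p (nat_lit 0x506858482) (nat_lit 0) (p (nat_lit 0x160014) (nat_lit 0) (p (nat_lit 0x68612) (nat_lit 0) (p (nat_lit 0x50592) (nat_lit 0) (p (nat_lit 0x38512) (nat_lit 0) (p (nat_lit 0x50392) (nat_lit 0) (p (nat_lit 0x38312) (nat_lit 0) (p (nat_lit 0x20292) (nat_lit 0) (p (nat_lit 0x38112) (nat_lit 0)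 (p (nat_lit 0x20092) (nat_lit 0) (p (nat_lit 0x8012) (nat_lit 0) pn)))))))))))))))))))))))))) :=
  Cl.node (nat_lit 0x200004) (nat_lit 2) (by decide +kernel) (ClAll.succ (ClAll.succ ClAll.zero s40) s41)

def n50 : Cl (O (nat_lit 3)) (R (nat_lit 14465))
    (p (nat_lit 0x111) (nat_lit 1) (p (nat_lit 0x101) (nat_lit 0) (p (nat_lit 0xc1) (nat_lit 1) (p (nat_lit 0x119) (nat_lit 1) (p (nat_lit 0xc9) (nat_lit 0) (p (nat_lit 0x89) (nat_lit 1) (p (nat_lit 0x41) (nat_lit 0) (p (nat_lit 0x8a0b0a89889a) (nat_lit 0) (p (nat_lit 0x98a8a09081a) (nat_lit 0) (p (nat_lit 0x89080988879a) (nat_lit 0) (p (nat_lit 0x8878908071a) (nat_lit 0) (p (nat_lit 0x80000800080887868a) (nat_lit 0) (p (nat_lit 0x8888070602) (nat_lit 0) (p (nat_lit 0x807868582) (nat_lit 0) (p (nat_lit 0x8587060502) (nat_lit 0) (p (nat_lit 0x506858482) (nat_lit 0) (p (nat_lit 0x160014) (nat_lit 0) (p (nat_lit 0x68612) (nat_lit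 0) (p (nat_lit 0x50592) (nat_lit 0) (p (nat_lit 0x38512) (nat_lit 0) (p (nat_lit 0x50392) (nat_lit 0) (p (nat_lit 0x38312) (nat_lit 0) (p (nat_lit 0x20292) (nat_lit 0) (p (nat_lit 0x38112) (nat_lit 0) (p (nat_lit 0x20092) (nat_lit 0) (p (nat_lit 0x8012) (nat_lit 0) pn)))))))))))))))))))))))))) :=
  Cl.node (nat_lit 0x200004) (nat_lit 2) (by decide +kernel) (ClAll.succ (ClAll.succ ClAll.zero s42) s43)

def n51 : Cl (O (nat_lit 3)) (R (nat_lit 14465))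
    (p (nat_lit 0x200004) (nat_lit 1) (p (nat_lit 0x101) (nat_lit 1) (p (nat_lit 0xc1) (nat_lit 1) (p (nat_lit 0x119) (nat_lit 1) (p (nat_lit 0xc9) (nat_lit 0) (p (nat_lit 0x89) (nat_lit 1) (p (nat_lit 0x41) (nat_lit 0) (p (nat_lit 0x8a0b0a89889a) (nat_lit 0) (p (nat_lit 0x98a8a09081a) (nat_lit 0) (p (nat_lit 0x89080988879a) (nat_lit 0) (p (nat_lit 0x8878908071a) (nat_lit 0) (p (nat_lit 0x80000800080887868a) (nat_lit 0) (p (nat_lit 0x8888070602) (nat_lit 0) (p (nat_lit 0x807868582) (nat_lit 0) (p (nat_lit 0x8587060502) (nat_lit 0) (p (nat_lit 0x506858482) (nat_lit 0) (p (nat_lit 0x160014) (nat_lit 0) (p (nat_lit 0x68612) (nat_lit 0) (p (nat_lit 0x50592) (nat_lit 0) (p (nat_lit 0x38512) (nat_lit 0) (p (nat_lit 0x50392) (nat_lit 0) (p (nat_lit 0x38312) (nat_lit 0) (p (nat_lit 0x20292) (nat_lit 0) (p (nat_lit 0x38112) (nat_lit 0) (p (nat_lit 0x20092) (nat_lit 0) (p (nat_lit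 0x8012) (nat_lit 0) pn)))))))))))))))))))))))))) :=
  Cl.node (nat_lit 0xb0014) (nat_lit 2) (by decide +kernel) (ClAll.succ (ClAll.succ ClAll.zero n24) s49)

def n52 : Cl (O (nat_lit 3)) (R (nat_lit 14465))
    (p (nat_lit 0x89) (nat_lit 0) (p (nat_lit 0x109) (nat_lit 1) (p (nat_lit 0x101) (nat_lit 0) (p (nat_lit 0x119) (nat_lit 0) (p (nat_lit 0xd1) (nat_lit 0) (p (nat_lit 0x81) (nat_lit 0) (p (nat_lit 0x41) (nat_lit 1) (p (nat_lit 0x8a0b0a89889a) (nat_lit 0) (p (nat_lit 0x98a8a09081a) (nat_lit 0) (p (nat_lit 0x89080988879a) (nat_lit 0) (p (nat_lit 0x8878908071a) (nat_lit 0) (p (nat_lit 0x80000800080887868a) (nat_lit 0) (p (nat_lit 0x8888070602) (nat_lit 0) (p (nat_lit 0x807868582) (nat_lit 0) (p (nat_lit 0x8587060502) (nat_lit 0) (p (nat_lit 0x506858482) (nat_lit 0) (p (nat_lit 0x160014) (nat_lit 0) (p (nat_lit 0x68612) (nat_lit 0) (p (nat_lit 0x50592) (nat_lit 0) (p (nat_lit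 0x38512) (nat_lit 0) (p (nat_lit 0x50392) (nat_lit 0) (p (nat_lit 0x38312) (nat_lit 0) (p (nat_lit 0x20292) (nat_lit 0) (p (nat_lit 0x38112) (nat_lit 0) (p (nat_lit 0x20092) (nat_lit 0) (p (nat_lit 0x8012) (nat_lit 0) pn)))))))))))))))))))))))))) :=
  Cl.node (nat_lit 0x200004) (nat_lit 2) (by decide +kernel) (ClAll.succ (ClAll.succ ClAll.zero n25) s55)

def n53 : Cl (O (nat_lit 3)) (R (nat_lit 14465))
    (p (nat_lit 0x89) (nat_lit 1) (p (nat_lit 0x109) (nat_lit 1) (p (nat_lit 0x101) (nat_lit 0) (p (nat_lit 0x119) (nat_lit 0) (p (nat_lit 0xd1) (nat_lit 0) (p (nat_lit 0x81) (nat_lit 0) (p (nat_lit 0x41) (nat_lit 1) (p (nat_lit 0x8a0b0a89889a) (nat_lit 0) (p (nat_lit 0x98a8a09081a) (nat_lit 0) (p (nat_lit 0x89080988879a) (nat_lit 0) (p (nat_lit 0x8878908071a) (nat_lit 0) (p (nat_lit 0x80000800080887868a) (nat_lit 0) (p (nat_lit 0x8888070602) (nat_lit 0) (p (nat_lit 0x807868582)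 (nat_lit 0) (p (nat_lit 0x8587060502) (nat_lit 0) (p (nat_lit 0x506858482) (nat_lit 0) (p (nat_lit 0x160014) (nat_lit 0) (p (nat_lit 0x68612) (nat_lit 0) (p (nat_lit 0x50592) (nat_lit 0) (p (nat_lit 0x38512) (nat_lit 0) (p (nat_lit 0x50392) (nat_lit 0) (p (nat_lit 0x38312) (nat_lit 0) (p (nat_lit 0x20292) (nat_lit 0) (p (nat_lit 0x38112) (nat_lit 0) (p (nat_lit 0x20092) (nat_lit 0) (p (nat_lit 0x8012) (nat_lit 0) pn)))))))))))))))))))))))))) :=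
  Cl.node (nat_lit 0xc9) (nat_lit 2) (by decide +kernel) (ClAll.succ (ClAll.succ ClAll.zero n26) s58)

def n54 : Cl (O (nat_lit 3)) (R (nat_lit 14465))
    (p (nat_lit 0x89) (nat_lit 0) (p (nat_lit 0xc1) (nat_lit 0) (p (nat_lit 0x101) (nat_lit 1) (p (nat_lit 0x119) (nat_lit 0) (p (nat_lit 0xd1) (nat_lit 0) (p (nat_lit 0x81) (nat_lit 0) (p (nat_lit 0x41) (nat_lit 1) (p (nat_lit 0x8a0b0a89889a) (nat_lit 0) (p (nat_lit 0x98a8a09081a) (nat_lit 0) (p (nat_lit 0x89080988879a) (nat_lit 0) (p (nat_lit 0x8878908071a) (nat_lit 0) (p (nat_lit 0x80000800080887868a) (nat_lit 0) (p (nat_lit 0x8888070602) (nat_lit 0) (p (nat_lit 0x807868582) (nat_lit 0) (p (nat_lit 0x8587060502) (nat_lit 0) (p (nat_lit 0x506858482) (nat_lit 0) (p (nat_lit 0x160014) (nat_lit 0) (p (nat_lit 0x68612) (nat_lit 0) (p (nat_lit 0x50592) (nat_lit 0) (p (nat_lit 0x38512) (nat_lit 0) (p (nat_lit 0x50392) (nat_lit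 0) (p (nat_lit 0x38312) (nat_lit 0) (p (nat_lit 0x20292) (nat_lit 0) (p (nat_lit 0x38112) (nat_lit 0) (p (nat_lit 0x20092) (nat_lit 0) (p (nat_lit 0x8012) (nat_lit 0) pn)))))))))))))))))))))))))) :=
  Cl.node (nat_lit 0x200004) (nat_lit 2) (by decide +kernel) (ClAll.succ (ClAll.succ ClAll.zero s59) s60)

def n55 : Cl (O (nat_lit 3)) (R (nat_lit 14465))
    (p (nat_lit 0x89) (nat_lit 1) (p (nat_lit 0xc1) (nat_lit 0) (p (nat_lit 0x101) (nat_lit 1) (p (nat_lit 0x119) (nat_lit 0) (p (nat_lit 0xd1) (nat_lit 0) (p (nat_lit 0x81) (nat_lit 0) (p (nat_lit 0x41) (nat_lit 1) (p (nat_lit 0x8a0b0a89889a) (nat_lit 0) (p (nat_lit 0x98a8a09081a) (nat_lit 0) (p (nat_lit 0x89080988879a) (nat_lit 0) (p (nat_lit 0x8878908071a) (nat_lit 0) (p (nat_lit 0x80000800080887868a) (nat_lit 0) (p (nat_lit 0x8888070602) (nat_lit 0) (p (nat_lit 0x807868582) (nat_lit 0) (p (nat_lit 0x8587060502) (nat_lit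 0) (p (nat_lit 0x506858482) (nat_lit 0) (p (nat_lit 0x160014) (nat_lit 0) (p (nat_lit 0x68612) (nat_lit 0) (p (nat_lit 0x50592) (nat_lit 0) (p (nat_lit 0x38512) (nat_lit 0) (p (nat_lit 0x50392) (nat_lit 0) (p (nat_lit 0x38312) (nat_lit 0) (p (nat_lit 0x20292) (nat_lit 0) (p (nat_lit 0x38112) (nat_lit 0) (p (nat_lit 0x20092) (nat_lit 0) (p (nat_lit 0x8012) (nat_lit 0) pn)))))))))))))))))))))))))) :=
  Cl.node (nat_lit 0xc9) (nat_lit 2) (by decide +kernel) (ClAll.succ (ClAll.succ ClAll.zero n27) n28)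

def n56 : Cl (O (nat_lit 3)) (R (nat_lit 14465))
    (p (nat_lit 0x89) (nat_lit 1) (p (nat_lit 0xc1) (nat_lit 1) (p (nat_lit 0x101) (nat_lit 1) (p (nat_lit 0x119) (nat_lit 0) (p (nat_lit 0xd1) (nat_lit 0) (p (nat_lit 0x81) (nat_lit 0) (p (nat_lit 0x41) (nat_lit 1) (p (nat_lit 0x8a0b0a89889a) (nat_lit 0) (p (nat_lit 0x98a8a09081a) (nat_lit 0) (p (nat_lit 0x89080988879a) (nat_lit 0) (p (nat_lit 0x8878908071a) (nat_lit 0) (p (nat_lit 0x80000800080887868a) (nat_lit 0) (p (nat_lit 0x8888070602) (nat_lit 0) (p (nat_lit 0x807868582) (nat_lit 0) (p (nat_lit 0x8587060502) (nat_lit 0) (p (nat_lit 0x506858482) (nat_lit 0) (p (nat_lit 0x160014) (nat_lit 0) (p (nat_lit 0x68612) (nat_lit 0) (p (nat_lit 0x50592) (nat_lit 0) (p (nat_lit 0x38512) (nat_lit 0) (p (nat_lit 0x50392) (nat_lit 0) (p (nat_lit 0x38312) (nat_lit 0) (p (nat_lit 0x20292) (nat_lit 0) (p (nat_lit 0x38112) (nat_lit 0)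 (p (nat_lit 0x20092) (nat_lit 0) (p (nat_lit 0x8012) (nat_lit 0) pn)))))))))))))))))))))))))) :=
  Cl.node (nat_lit 0x200004) (nat_lit 2) (by decide +kernel) (ClAll.succ (ClAll.succ ClAll.zero n29) n30)

def n57 : Cl (O (nat_lit 3)) (R (nat_lit 14465))
    (p (nat_lit 0x89) (nat_lit 1) (p (nat_lit 0xc9) (nat_lit 1) (p (nat_lit 0xc1) (nat_lit 0) (p (nat_lit 0x119) (nat_lit 1) (p (nat_lit 0xd1) (nat_lit 0) (p (nat_lit 0x81) (nat_lit 0) (p (nat_lit 0x41) (nat_lit 1) (p (nat_lit 0x8a0b0a89889a) (nat_lit 0) (p (nat_lit 0x98a8a09081a) (nat_lit 0) (p (nat_lit 0x89080988879a) (nat_lit 0) (p (nat_lit 0x8878908071a) (nat_lit 0) (p (nat_lit 0x80000800080887868a) (nat_lit 0) (p (nat_lit 0x8888070602) (nat_lit 0) (p (nat_lit 0x807868582) (nat_lit 0) (p (nat_lit 0x8587060502) (nat_lit 0) (p (nat_lit 0x506858482) (nat_lit 0) (p (nat_lit 0x160014) (nat_lit 0) (p (nat_lit 0x68612) (nat_lit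 0) (p (nat_lit 0x50592) (nat_lit 0) (p (nat_lit 0x38512) (nat_lit 0) (p (nat_lit 0x50392) (nat_lit 0) (p (nat_lit 0x38312) (nat_lit 0) (p (nat_lit 0x20292) (nat_lit 0) (p (nat_lit 0x38112) (nat_lit 0) (p (nat_lit 0x20092) (nat_lit 0) (p (nat_lit 0x8012) (nat_lit 0) pn)))))))))))))))))))))))))) :=
  Cl.node (nat_lit 0x109) (nat_lit 2) (by decide +kernel) (ClAll.succ (ClAll.succ ClAll.zero n31) n32)

def n58 : Cl (O (nat_lit 3)) (R (nat_lit 14465))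
    (p (nat_lit 0x89) (nat_lit 1) (p (nat_lit 0x101) (nat_lit 0) (p (nat_lit 0xc1) (nat_lit 1) (p (nat_lit 0x119) (nat_lit 1) (p (nat_lit 0xd1) (nat_lit 0) (p (nat_lit 0x81) (nat_lit 0) (p (nat_lit 0x41) (nat_lit 1) (p (nat_lit 0x8a0b0a89889a) (nat_lit 0) (p (nat_lit 0x98a8a09081a) (nat_lit 0) (p (nat_lit 0x89080988879a) (nat_lit 0) (p (nat_lit 0x8878908071a) (nat_lit 0) (p (nat_lit 0x80000800080887868a) (nat_lit 0) (p (nat_lit 0x8888070602) (nat_lit 0) (p (nat_lit 0x807868582) (nat_lit 0) (p (nat_lit 0x8587060502) (nat_lit 0) (p (nat_lit 0x506858482) (nat_lit 0) (p (nat_lit 0x160014) (nat_lit 0) (p (nat_lit 0x68612) (nat_lit 0) (p (nat_lit 0x50592) (nat_lit 0) (p (nat_lit 0x38512) (nat_lit 0) (p (nat_lit 0x50392) (nat_lit 0) (p (nat_lit 0x38312) (nat_lit 0) (p (nat_lit 0x20292) (nat_lit 0) (p (nat_lit 0x38112) (nat_lit 0) (p (nat_lit 0x20092) (nat_lit 0) (p (nat_lit 0x8012)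 (nat_lit 0) pn)))))))))))))))))))))))))) :=
  Cl.node (nat_lit 0x109) (nat_lit 2) (by decide +kernel) (ClAll.succ (ClAll.succ ClAll.zero n33) n34)

def n59 : Cl (O (nat_lit 3)) (R (nat_lit 14465))
    (p (nat_lit 0x89) (nat_lit 0) (p (nat_lit 0x101) (nat_lit 1) (p (nat_lit 0xc1) (nat_lit 1) (p (nat_lit 0x119) (nat_lit 1) (p (nat_lit 0xd1) (nat_lit 0) (p (nat_lit 0x81) (nat_lit 0) (p (nat_lit 0x41) (nat_lit 1) (p (nat_lit 0x8a0b0a89889a) (nat_lit 0) (p (nat_lit 0x98a8a09081a) (nat_lit 0) (p (nat_lit 0x89080988879a) (nat_lit 0) (p (nat_lit 0x8878908071a) (nat_lit 0) (p (nat_lit 0x80000800080887868a) (nat_lit 0) (p (nat_lit 0x8888070602) (nat_lit 0) (p (nat_lit 0x807868582) (nat_lit 0) (p (nat_lit 0x8587060502) (nat_lit 0) (p (nat_lit 0x506858482) (nat_lit 0) (p (nat_lit 0x160014) (nat_lit 0) (p (nat_lit 0x68612) (nat_lit 0) (p (nat_lit 0x50592) (nat_lit 0) (p (nat_lit 0x38512)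 (nat_lit 0) (p (nat_lit 0x50392) (nat_lit 0) (p (nat_lit 0x38312) (nat_lit 0) (p (nat_lit 0x20292) (nat_lit 0) (p (nat_lit 0x38112) (nat_lit 0) (p (nat_lit 0x20092) (nat_lit 0) (p (nat_lit 0x8012) (nat_lit 0) pn)))))))))))))))))))))))))) :=
  Cl.node (nat_lit 0x200004) (nat_lit 2) (by decide +kernel) (ClAll.succ (ClAll.succ ClAll.zero s90) s91)

def n60 : Cl (O (nat_lit 3)) (R (nat_lit 14465))
    (p (nat_lit 0x89) (nat_lit 1) (p (nat_lit 0x101) (nat_lit 1) (p (nat_lit 0xc1) (nat_lit 1) (p (nat_lit 0x119) (nat_lit 1) (p (nat_lit 0xd1) (nat_lit 0) (p (nat_lit 0x81) (nat_lit 0) (p (nat_lit 0x41) (nat_lit 1) (p (nat_lit 0x8a0b0a89889a) (nat_lit 0) (p (nat_lit 0x98a8a09081a) (nat_lit 0) (p (nat_lit 0x89080988879a) (nat_lit 0) (p (nat_lit 0x8878908071a) (nat_lit 0) (p (nat_lit 0x80000800080887868a) (nat_lit 0) (p (nat_lit 0x8888070602) (nat_lit 0) (p (nat_lit 0x807868582) (nat_lit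 0) (p (nat_lit 0x8587060502) (nat_lit 0) (p (nat_lit 0x506858482) (nat_lit 0) (p (nat_lit 0x160014) (nat_lit 0) (p (nat_lit 0x68612) (nat_lit 0) (p (nat_lit 0x50592) (nat_lit 0) (p (nat_lit 0x38512) (nat_lit 0) (p (nat_lit 0x50392) (nat_lit 0) (p (nat_lit 0x38312) (nat_lit 0) (p (nat_lit 0x20292) (nat_lit 0) (p (nat_lit 0x38112) (nat_lit 0) (p (nat_lit 0x20092) (nat_lit 0) (p (nat_lit 0x8012) (nat_lit 0) pn)))))))))))))))))))))))))) :=
  Cl.node (nat_lit 0x200004) (nat_lit 2) (by decide +kernel) (ClAll.succ (ClAll.succ ClAll.zero n35) s97)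

def n61 : Cl (O (nat_lit 3)) (R (nat_lit 14465))
    (p (nat_lit 0x89) (nat_lit 1) (p (nat_lit 0x109) (nat_lit 1) (p (nat_lit 0x101) (nat_lit 0) (p (nat_lit 0x111) (nat_lit 0) (p (nat_lit 0xd1) (nat_lit 1) (p (nat_lit 0x81) (nat_lit 0) (p (nat_lit 0x41) (nat_lit 1) (p (nat_lit 0x8a0b0a89889a) (nat_lit 0) (p (nat_lit 0x98a8a09081a) (nat_lit 0) (p (nat_lit 0x89080988879a) (nat_lit 0) (p (nat_lit 0x8878908071a) (nat_lit 0) (p (nat_lit 0x80000800080887868a) (nat_lit 0) (p (nat_lit 0x8888070602) (nat_lit 0) (p (nat_lit 0x807868582) (nat_lit 0) (p (nat_lit 0x8587060502) (nat_lit 0) (p (nat_lit 0x506858482) (nat_lit 0) (p (nat_lit 0x160014) (nat_lit 0) (p (nat_lit 0x68612) (nat_lit 0) (p (nat_lit 0x50592) (nat_lit 0) (p (nat_lit 0x38512) (nat_lit 0) (p (nat_lit 0x50392) (nat_lit 0) (p (nat_lit 0x38312) (nat_lit 0) (p (nat_lit 0x20292) (nat_lit 0) (p (nat_lit 0x38112) (nat_lit 0)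 (p (nat_lit 0x20092) (nat_lit 0) (p (nat_lit 0x8012) (nat_lit 0) pn)))))))))))))))))))))))))) :=
  Cl.node (nat_lit 0xc9) (nat_lit 2) (by decide +kernel) (ClAll.succ (ClAll.succ ClAll.zero n36) s103)

def n62 : Cl (O (nat_lit 3)) (R (nat_lit 14465))
    (p (nat_lit 0x111) (nat_lit 1) (p (nat_lit 0x109) (nat_lit 0) (p (nat_lit 0x101) (nat_lit 0) (p (nat_lit 0x119) (nat_lit 0) (p (nat_lit 0xc1) (nat_lit 0) (p (nat_lit 0x81) (nat_lit 1) (p (nat_lit 0x41) (nat_lit 1) (p (nat_lit 0x8a0b0a89889a) (nat_lit 0) (p (nat_lit 0x98a8a09081a) (nat_lit 0) (p (nat_lit 0x89080988879a) (nat_lit 0) (p (nat_lit 0x8878908071a) (nat_lit 0) (p (nat_lit 0x80000800080887868a) (nat_lit 0) (p (nat_lit 0x8888070602) (nat_lit 0) (p (nat_lit 0x807868582) (nat_lit 0) (p (nat_lit 0x8587060502) (nat_lit 0) (p (nat_lit 0x506858482) (nat_lit 0) (p (nat_lit 0x160014) (nat_lit 0) (p (nat_lit 0x68612) (nat_lit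 0) (p (nat_lit 0x50592) (nat_lit 0) (p (nat_lit 0x38512) (nat_lit 0) (p (nat_lit 0x50392) (nat_lit 0) (p (nat_lit 0x38312) (nat_lit 0) (p (nat_lit 0x20292) (nat_lit 0) (p (nat_lit 0x38112) (nat_lit 0) (p (nat_lit 0x20092) (nat_lit 0) (p (nat_lit 0x8012) (nat_lit 0) pn)))))))))))))))))))))))))) :=
  Cl.node (nat_lit 0xd1) (nat_lit 2) (by decide +kernel) (ClAll.succ (ClAll.succ ClAll.zero s110) n37)

def n63 : Cl (O (nat_lit 3)) (R (nat_lit 14465))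
    (p (nat_lit 0xc9) (nat_lit 0) (p (nat_lit 0x109) (nat_lit 1) (p (nat_lit 0x101) (nat_lit 0) (p (nat_lit 0x119) (nat_lit 0) (p (nat_lit 0xc1) (nat_lit 0) (p (nat_lit 0x81) (nat_lit 1) (p (nat_lit 0x41) (nat_lit 1) (p (nat_lit 0x8a0b0a89889a) (nat_lit 0) (p (nat_lit 0x98a8a09081a) (nat_lit 0) (p (nat_lit 0x89080988879a) (nat_lit 0) (p (nat_lit 0x8878908071a) (nat_lit 0) (p (nat_lit 0x80000800080887868a) (nat_lit 0) (p (nat_lit 0x8888070602) (nat_lit 0) (p (nat_lit 0x807868582) (nat_lit 0) (p (nat_lit 0x8587060502) (nat_lit 0) (p (nat_lit 0x506858482) (nat_lit 0) (p (nat_lit 0x160014) (nat_lit 0) (p (nat_lit 0x68612) (nat_lit 0) (p (nat_lit 0x50592) (nat_lit 0) (p (nat_lit 0x38512) (nat_lit 0) (p (nat_lit 0x50392) (nat_lit 0) (p (nat_lit 0x38312) (nat_lit 0) (p (nat_lit 0x20292) (nat_lit 0) (p (nat_lit 0x38112) (nat_lit 0) (p (nat_lit 0x20092) (nat_lit 0) (p (nat_lit 0x8012)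 (nat_lit 0) pn)))))))))))))))))))))))))) :=
  Cl.node (nat_lit 0xd1) (nat_lit 2) (by decide +kernel) (ClAll.succ (ClAll.succ ClAll.zero s113) n38)

def n64 : Cl (O (nat_lit 3)) (R (nat_lit 14465))
    (p (nat_lit 0xd1) (nat_lit 0) (p (nat_lit 0xc9) (nat_lit 0) (p (nat_lit 0x101) (nat_lit 1) (p (nat_lit 0x119) (nat_lit 0) (p (nat_lit 0xc1) (nat_lit 0) (p (nat_lit 0x81) (nat_lit 1) (p (nat_lit 0x41) (nat_lit 1) (p (nat_lit 0x8a0b0a89889a) (nat_lit 0) (p (nat_lit 0x98a8a09081a) (nat_lit 0) (p (nat_lit 0x89080988879a) (nat_lit 0) (p (nat_lit 0x8878908071a) (nat_lit 0) (p (nat_lit 0x80000800080887868a) (nat_lit 0) (p (nat_lit 0x8888070602) (nat_lit 0) (p (nat_lit 0x807868582) (nat_lit 0) (p (nat_lit 0x8587060502) (nat_lit 0) (p (nat_lit 0x506858482) (nat_lit 0) (p (nat_lit 0x160014) (nat_lit 0) (p (nat_lit 0x68612) (nat_lit 0) (p (nat_lit 0x50592) (nat_lit 0) (p (nat_lit 0x38512)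 (nat_lit 0) (p (nat_lit 0x50392) (nat_lit 0) (p (nat_lit 0x38312) (nat_lit 0) (p (nat_lit 0x20292) (nat_lit 0) (p (nat_lit 0x38112) (nat_lit 0) (p (nat_lit 0x20092) (nat_lit 0) (p (nat_lit 0x8012) (nat_lit 0) pn)))))))))))))))))))))))))) :=
  Cl.node (nat_lit 0x200004) (nat_lit 2) (by decide +kernel) (ClAll.succ (ClAll.succ ClAll.zero s117) s118)

def n65 : Cl (O (nat_lit 3)) (R (nat_lit 14465))
    (p (nat_lit 0xd1) (nat_lit 1) (p (nat_lit 0xc9) (nat_lit 0) (p (nat_lit 0x101) (nat_lit 1) (p (nat_lit 0x119) (nat_lit 0) (p (nat_lit 0xc1) (nat_lit 0) (p (nat_lit 0x81) (nat_lit 1) (p (nat_lit 0x41) (nat_lit 1) (p (nat_lit 0x8a0b0a89889a) (nat_lit 0) (p (nat_lit 0x98a8a09081a) (nat_lit 0) (p (nat_lit 0x89080988879a) (nat_lit 0) (p (nat_lit 0x8878908071a) (nat_lit 0) (p (nat_lit 0x80000800080887868a) (nat_lit 0) (p (nat_lit 0x8888070602) (nat_lit 0) (p (nat_lit 0x807868582) (nat_lit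 0) (p (nat_lit 0x8587060502) (nat_lit 0) (p (nat_lit 0x506858482) (nat_lit 0) (p (nat_lit 0x160014) (nat_lit 0) (p (nat_lit 0x68612) (nat_lit 0) (p (nat_lit 0x50592) (nat_lit 0) (p (nat_lit 0x38512) (nat_lit 0) (p (nat_lit 0x50392) (nat_lit 0) (p (nat_lit 0x38312) (nat_lit 0) (p (nat_lit 0x20292) (nat_lit 0) (p (nat_lit 0x38112) (nat_lit 0) (p (nat_lit 0x20092) (nat_lit 0) (p (nat_lit 0x8012) (nat_lit 0) pn)))))))))))))))))))))))))) :=
  Cl.node (nat_lit 0x200004) (nat_lit 2) (by decide +kernel) (ClAll.succ (ClAll.succ ClAll.zero n39) s121)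

def n66 : Cl (O (nat_lit 3)) (R (nat_lit 14465))
    (p (nat_lit 0x111) (nat_lit 1) (p (nat_lit 0xd1) (nat_lit 1) (p (nat_lit 0xc9) (nat_lit 0) (p (nat_lit 0x119) (nat_lit 1) (p (nat_lit 0xc1) (nat_lit 0) (p (nat_lit 0x81) (nat_lit 1) (p (nat_lit 0x41) (nat_lit 1) (p (nat_lit 0x8a0b0a89889a) (nat_lit 0) (p (nat_lit 0x98a8a09081a) (nat_lit 0) (p (nat_lit 0x89080988879a) (nat_lit 0) (p (nat_lit 0x8878908071a) (nat_lit 0) (p (nat_lit 0x80000800080887868a) (nat_lit 0) (p (nat_lit 0x8888070602) (nat_lit 0) (p (nat_lit 0x807868582) (nat_lit 0) (p (nat_lit 0x8587060502) (nat_lit 0) (p (nat_lit 0x506858482) (nat_lit 0) (p (nat_lit 0x160014) (nat_lit 0) (p (nat_lit 0x68612) (nat_lit 0) (p (nat_lit 0x50592) (nat_lit 0) (p (nat_lit 0x38512) (nat_lit 0) (p (nat_lit 0x50392) (nat_lit 0) (p (nat_lit 0x38312) (nat_lit 0) (p (nat_lit 0x20292) (nat_lit 0) (p (nat_lit 0x38112) (nat_lit 0)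 (p (nat_lit 0x20092) (nat_lit 0) (p (nat_lit 0x8012) (nat_lit 0) pn)))))))))))))))))))))))))) :=
  Cl.node (nat_lit 0x200004) (nat_lit 2) (by decide +kernel) (ClAll.succ (ClAll.succ ClAll.zero n40) s130)

def n67 : Cl (O (nat_lit 3)) (R (nat_lit 14465))
    (p (nat_lit 0x111) (nat_lit 0) (p (nat_lit 0x109) (nat_lit 0) (p (nat_lit 0xc9) (nat_lit 1) (p (nat_lit 0x119) (nat_lit 1) (p (nat_lit 0xc1) (nat_lit 0) (p (nat_lit 0x81) (nat_lit 1) (p (nat_lit 0x41) (nat_lit 1) (p (nat_lit 0x8a0b0a89889a) (nat_lit 0) (p (nat_lit 0x98a8a09081a) (nat_lit 0) (p (nat_lit 0x89080988879a) (nat_lit 0) (p (nat_lit 0x8878908071a) (nat_lit 0) (p (nat_lit 0x80000800080887868a) (nat_lit 0) (p (nat_lit 0x8888070602) (nat_lit 0) (p (nat_lit 0x807868582) (nat_lit 0) (p (nat_lit 0x8587060502) (nat_lit 0) (p (nat_lit 0x506858482) (nat_lit 0) (p (nat_lit 0x160014) (nat_lit 0) (p (nat_lit 0x68612) (nat_lit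 0) (p (nat_lit 0x50592) (nat_lit 0) (p (nat_lit 0x38512) (nat_lit 0) (p (nat_lit 0x50392) (nat_lit 0) (p (nat_lit 0x38312) (nat_lit 0) (p (nat_lit 0x20292) (nat_lit 0) (p (nat_lit 0x38112) (nat_lit 0) (p (nat_lit 0x20092) (nat_lit 0) (p (nat_lit 0x8012) (nat_lit 0) pn)))))))))))))))))))))))))) :=
  Cl.node (nat_lit 0x200004) (nat_lit 2) (by decide +kernel) (ClAll.succ (ClAll.succ ClAll.zero s131) s132)

def n68 : Cl (O (nat_lit 3)) (R (nat_lit 14465))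
    (p (nat_lit 0x111) (nat_lit 1) (p (nat_lit 0x109) (nat_lit 0) (p (nat_lit 0xc9) (nat_lit 1) (p (nat_lit 0x119) (nat_lit 1) (p (nat_lit 0xc1) (nat_lit 0) (p (nat_lit 0x81) (nat_lit 1) (p (nat_lit 0x41) (nat_lit 1) (p (nat_lit 0x8a0b0a89889a) (nat_lit 0) (p (nat_lit 0x98a8a09081a) (nat_lit 0) (p (nat_lit 0x89080988879a) (nat_lit 0) (p (nat_lit 0x8878908071a) (nat_lit 0) (p (nat_lit 0x80000800080887868a) (nat_lit 0) (p (nat_lit 0x8888070602) (nat_lit 0) (p (nat_lit 0x807868582) (nat_lit 0) (p (nat_lit 0x8587060502) (nat_lit 0) (p (nat_lit 0x506858482) (nat_lit 0) (p (nat_lit 0x160014) (nat_lit 0) (p (nat_lit 0x68612) (nat_lit 0) (p (nat_lit 0x50592) (nat_lit 0) (p (nat_lit 0x38512) (nat_lit 0) (p (nat_lit 0x50392) (nat_lit 0) (p (nat_lit 0x38312) (nat_lit 0) (p (nat_lit 0x20292) (nat_lit 0) (p (nat_lit 0x38112) (nat_lit 0) (p (nat_lit 0x20092) (nat_lit 0) (p (nat_lit 0x8012)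 (nat_lit 0) pn)))))))))))))))))))))))))) :=
  Cl.node (nat_lit 0x200004) (nat_lit 2) (by decide +kernel) (ClAll.succ (ClAll.succ ClAll.zero n41) n42)

def n69 : Cl (O (nat_lit 3)) (R (nat_lit 14465))
    (p (nat_lit 0x109) (nat_lit 1) (p (nat_lit 0x101) (nat_lit 0) (p (nat_lit 0x119) (nat_lit 0) (p (nat_lit 0xd1) (nat_lit 0) (p (nat_lit 0x89) (nat_lit 0) (p (nat_lit 0x41) (nat_lit 0) (p (nat_lit 0x8a0b0a89889a) (nat_lit 0) (p (nat_lit 0x98a8a09081a) (nat_lit 0) (p (nat_lit 0x89080988879a) (nat_lit 0) (p (nat_lit 0x8878908071a) (nat_lit 0) (p (nat_lit 0x80000800080887868a) (nat_lit 0) (p (nat_lit 0x8888070602) (nat_lit 0) (p (nat_lit 0x807868582) (nat_lit 0) (p (nat_lit 0x8587060502) (nat_lit 0) (p (nat_lit 0x506858482) (nat_lit 0) (p (nat_lit 0x160014) (nat_lit 0) (p (nat_lit 0x68612) (nat_lit 0) (p (nat_lit 0x50592) (nat_lit 0) (p (nat_lit 0x38512) (nat_lit 0) (p (nat_lit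 0x50392) (nat_lit 0) (p (nat_lit 0x38312) (nat_lit 0) (p (nat_lit 0x20292) (nat_lit 0) (p (nat_lit 0x38112) (nat_lit 0) (p (nat_lit 0x20092) (nat_lit 0) (p (nat_lit 0x8012) (nat_lit 0) pn))))))))))))))))))))))))) :=
  Cl.node (nat_lit 0xc9) (nat_lit 2) (by decide +kernel) (ClAll.succ (ClAll.succ ClAll.zero s1) s2)

def n70 : Cl (O (nat_lit 3)) (R (nat_lit 14465))
    (p (nat_lit 0x81) (nat_lit 0) (p (nat_lit 0x101) (nat_lit 1) (p (nat_lit 0x119) (nat_lit 0) (p (nat_lit 0xd1) (nat_lit 0) (p (nat_lit 0x89) (nat_lit 0) (p (nat_lit 0x41) (nat_lit 0) (p (nat_lit 0x8a0b0a89889a) (nat_lit 0) (p (nat_lit 0x98a8a09081a) (nat_lit 0) (p (nat_lit 0x89080988879a) (nat_lit 0) (p (nat_lit 0x8878908071a) (nat_lit 0) (p (nat_lit 0x80000800080887868a) (nat_lit 0) (p (nat_lit 0x8888070602) (nat_lit 0) (p (nat_lit 0x807868582) (nat_lit 0) (p (nat_lit 0x8587060502) (nat_lit 0) (p (nat_lit 0x506858482)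 (nat_lit 0) (p (nat_lit 0x160014) (nat_lit 0) (p (nat_lit 0x68612) (nat_lit 0) (p (nat_lit 0x50592) (nat_lit 0) (p (nat_lit 0x38512) (nat_lit 0) (p (nat_lit 0x50392) (nat_lit 0) (p (nat_lit 0x38312) (nat_lit 0) (p (nat_lit 0x20292) (nat_lit 0) (p (nat_lit 0x38112) (nat_lit 0) (p (nat_lit 0x20092) (nat_lit 0) (p (nat_lit 0x8012) (nat_lit 0) pn))))))))))))))))))))))))) :=
  Cl.node (nat_lit 0xc9) (nat_lit 2) (by decide +kernel) (ClAll.succ (ClAll.succ ClAll.zero n43) s5)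

def n71 : Cl (O (nat_lit 3)) (R (nat_lit 14465))
    (p (nat_lit 0x81) (nat_lit 1) (p (nat_lit 0x101) (nat_lit 1) (p (nat_lit 0x119) (nat_lit 0) (p (nat_lit 0xd1) (nat_lit 0) (p (nat_lit 0x89) (nat_lit 0) (p (nat_lit 0x41) (nat_lit 0) (p (nat_lit 0x8a0b0a89889a) (nat_lit 0) (p (nat_lit 0x98a8a09081a) (nat_lit 0) (p (nat_lit 0x89080988879a) (nat_lit 0) (p (nat_lit 0x8878908071a) (nat_lit 0) (p (nat_lit 0x80000800080887868a) (nat_lit 0) (p (nat_lit 0x8888070602) (nat_lit 0) (p (nat_lit 0x807868582) (nat_lit 0) (p (nat_lit 0x8587060502) (nat_lit 0) (p (nat_lit 0x506858482) (nat_lit 0) (p (nat_lit 0x160014) (nat_lit 0) (p (nat_lit 0x68612) (nat_lit 0) (p (nat_lit 0x50592) (nat_lit 0) (p (nat_lit 0x38512) (nat_lit 0) (p (nat_lit 0x50392) (nat_lit 0) (p (nat_lit 0x38312) (nat_lit 0) (p (nat_lit 0x20292) (nat_lit 0) (p (nat_lit 0x38112) (nat_lit 0) (p (nat_lit 0x20092) (nat_lit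 0) (p (nat_lit 0x8012) (nat_lit 0) pn))))))))))))))))))))))))) :=
  Cl.node (nat_lit 0xc1) (nat_lit 2) (by decide +kernel) (ClAll.succ (ClAll.succ ClAll.zero n44) s9)

def n72 : Cl (O (nat_lit 3)) (R (nat_lit 14465))
    (p (nat_lit 0xc9) (nat_lit 1) (p (nat_lit 0xc1) (nat_lit 0) (p (nat_lit 0x119) (nat_lit 1) (p (nat_lit 0xd1) (nat_lit 0) (p (nat_lit 0x89) (nat_lit 0) (p (nat_lit 0x41) (nat_lit 0) (p (nat_lit 0x8a0b0a89889a) (nat_lit 0) (p (nat_lit 0x98a8a09081a) (nat_lit 0) (p (nat_lit 0x89080988879a) (nat_lit 0) (p (nat_lit 0x8878908071a) (nat_lit 0) (p (nat_lit 0x80000800080887868a) (nat_lit 0) (p (nat_lit 0x8888070602) (nat_lit 0) (p (nat_lit 0x807868582) (nat_lit 0) (p (nat_lit 0x8587060502) (nat_lit 0) (p (nat_lit 0x506858482) (nat_lit 0) (p (nat_lit 0x160014) (nat_lit 0) (p (nat_lit 0x68612) (nat_lit 0) (p (nat_lit 0x50592) (nat_lit 0) (p (nat_lit 0x38512) (nat_lit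 0) (p (nat_lit 0x50392) (nat_lit 0) (p (nat_lit 0x38312) (nat_lit 0) (p (nat_lit 0x20292) (nat_lit 0) (p (nat_lit 0x38112) (nat_lit 0) (p (nat_lit 0x20092) (nat_lit 0) (p (nat_lit 0x8012) (nat_lit 0) pn))))))))))))))))))))))))) :=
  Cl.node (nat_lit 0x109) (nat_lit 2) (by decide +kernel) (ClAll.succ (ClAll.succ ClAll.zero s11) n45)

def n73 : Cl (O (nat_lit 3)) (R (nat_lit 14465))
    (p (nat_lit 0x81) (nat_lit 0) (p (nat_lit 0xc1) (nat_lit 1) (p (nat_lit 0x119) (nat_lit 1) (p (nat_lit 0xd1) (nat_lit 0) (p (nat_lit 0x89) (nat_lit 0) (p (nat_lit 0x41) (nat_lit 0) (p (nat_lit 0x8a0b0a89889a) (nat_lit 0) (p (nat_lit 0x98a8a09081a) (nat_lit 0) (p (nat_lit 0x89080988879a) (nat_lit 0) (p (nat_lit 0x8878908071a) (nat_lit 0) (p (nat_lit 0x80000800080887868a) (nat_lit 0) (p (nat_lit 0x8888070602) (nat_lit 0) (p (nat_lit 0x807868582) (nat_lit 0) (p (nat_lit 0x8587060502) (nat_lit 0)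 (p (nat_lit 0x506858482) (nat_lit 0) (p (nat_lit 0x160014) (nat_lit 0) (p (nat_lit 0x68612) (nat_lit 0) (p (nat_lit 0x50592) (nat_lit 0) (p (nat_lit 0x38512) (nat_lit 0) (p (nat_lit 0x50392) (nat_lit 0) (p (nat_lit 0x38312) (nat_lit 0) (p (nat_lit 0x20292) (nat_lit 0) (p (nat_lit 0x38112) (nat_lit 0) (p (nat_lit 0x20092) (nat_lit 0) (p (nat_lit 0x8012) (nat_lit 0) pn))))))))))))))))))))))))) :=
  Cl.node (nat_lit 0x109) (nat_lit 2) (by decide +kernel) (ClAll.succ (ClAll.succ ClAll.zero s14) s15)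

def n74 : Cl (O (nat_lit 3)) (R (nat_lit 14465))
    (p (nat_lit 0x81) (nat_lit 1) (p (nat_lit 0xc1) (nat_lit 1) (p (nat_lit 0x119) (nat_lit 1) (p (nat_lit 0xd1) (nat_lit 0) (p (nat_lit 0x89) (nat_lit 0) (p (nat_lit 0x41) (nat_lit 0) (p (nat_lit 0x8a0b0a89889a) (nat_lit 0) (p (nat_lit 0x98a8a09081a) (nat_lit 0) (p (nat_lit 0x89080988879a) (nat_lit 0) (p (nat_lit 0x8878908071a) (nat_lit 0) (p (nat_lit 0x80000800080887868a) (nat_lit 0) (p (nat_lit 0x8888070602) (nat_lit 0) (p (nat_lit 0x807868582) (nat_lit 0) (p (nat_lit 0x8587060502) (nat_lit 0) (p (nat_lit 0x506858482) (nat_lit 0) (p (nat_lit 0x160014) (nat_lit 0) (p (nat_lit 0x68612) (nat_lit 0) (p (nat_lit 0x50592) (nat_lit 0) (p (nat_lit 0x38512) (nat_lit 0) (p (nat_lit 0x50392) (nat_lit 0) (p (nat_lit 0x38312) (nat_lit 0) (p (nat_lit 0x20292) (nat_lit 0) (p (nat_lit 0x38112) (nat_lit 0) (p (nat_lit 0x20092) (nat_lit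 0) (p (nat_lit 0x8012) (nat_lit 0) pn))))))))))))))))))))))))) :=
  Cl.node (nat_lit 0x101) (nat_lit 2) (by decide +kernel) (ClAll.succ (ClAll.succ ClAll.zero n46) s22)

def n75 : Cl (O (nat_lit 3)) (R (nat_lit 14465))
    (p (nat_lit 0x109) (nat_lit 1) (p (nat_lit 0x101) (nat_lit 0) (p (nat_lit 0x111) (nat_lit 0) (p (nat_lit 0xd1) (nat_lit 1) (p (nat_lit 0x89) (nat_lit 0) (p (nat_lit 0x41) (nat_lit 0) (p (nat_lit 0x8a0b0a89889a) (nat_lit 0) (p (nat_lit 0x98a8a09081a) (nat_lit 0) (p (nat_lit 0x89080988879a) (nat_lit 0) (p (nat_lit 0x8878908071a) (nat_lit 0) (p (nat_lit 0x80000800080887868a) (nat_lit 0) (p (nat_lit 0x8888070602) (nat_lit 0) (p (nat_lit 0x807868582) (nat_lit 0) (p (nat_lit 0x8587060502) (nat_lit 0) (p (nat_lit 0x506858482) (nat_lit 0) (p (nat_lit 0x160014) (nat_lit 0) (p (nat_lit 0x68612) (nat_lit 0) (p (nat_lit 0x50592) (nat_lit 0) (p (nat_lit 0x38512) (nat_lit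 0) (p (nat_lit 0x50392) (nat_lit 0) (p (nat_lit 0x38312) (nat_lit 0) (p (nat_lit 0x20292) (nat_lit 0) (p (nat_lit 0x38112) (nat_lit 0) (p (nat_lit 0x20092) (nat_lit 0) (p (nat_lit 0x8012) (nat_lit 0) pn))))))))))))))))))))))))) :=
  Cl.node (nat_lit 0x200004) (nat_lit 2) (by decide +kernel) (ClAll.succ (ClAll.succ ClAll.zero s24) s25)

def n76 : Cl (O (nat_lit 3)) (R (nat_lit 14465))
    (p (nat_lit 0x81) (nat_lit 0) (p (nat_lit 0x101) (nat_lit 1) (p (nat_lit 0x111) (nat_lit 0) (p (nat_lit 0xd1) (nat_lit 1) (p (nat_lit 0x89) (nat_lit 0) (p (nat_lit 0x41) (nat_lit 0) (p (nat_lit 0x8a0b0a89889a) (nat_lit 0) (p (nat_lit 0x98a8a09081a) (nat_lit 0) (p (nat_lit 0x89080988879a) (nat_lit 0) (p (nat_lit 0x8878908071a) (nat_lit 0) (p (nat_lit 0x80000800080887868a) (nat_lit 0) (p (nat_lit 0x8888070602) (nat_lit 0) (p (nat_lit 0x807868582) (nat_lit 0) (p (nat_lit 0x8587060502) (nat_lit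 0) (p (nat_lit 0x506858482) (nat_lit 0) (p (nat_lit 0x160014) (nat_lit 0) (p (nat_lit 0x68612) (nat_lit 0) (p (nat_lit 0x50592) (nat_lit 0) (p (nat_lit 0x38512) (nat_lit 0) (p (nat_lit 0x50392) (nat_lit 0) (p (nat_lit 0x38312) (nat_lit 0) (p (nat_lit 0x20292) (nat_lit 0) (p (nat_lit 0x38112) (nat_lit 0) (p (nat_lit 0x20092) (nat_lit 0) (p (nat_lit 0x8012) (nat_lit 0) pn))))))))))))))))))))))))) :=
  Cl.node (nat_lit 0x200004) (nat_lit 2) (by decide +kernel) (ClAll.succ (ClAll.succ ClAll.zero s26) s27)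

def n77 : Cl (O (nat_lit 3)) (R (nat_lit 14465))
    (p (nat_lit 0x81) (nat_lit 1) (p (nat_lit 0x101) (nat_lit 1) (p (nat_lit 0x111) (nat_lit 0) (p (nat_lit 0xd1) (nat_lit 1) (p (nat_lit 0x89) (nat_lit 0) (p (nat_lit 0x41) (nat_lit 0) (p (nat_lit 0x8a0b0a89889a) (nat_lit 0) (p (nat_lit 0x98a8a09081a) (nat_lit 0) (p (nat_lit 0x89080988879a) (nat_lit 0) (p (nat_lit 0x8878908071a) (nat_lit 0) (p (nat_lit 0x80000800080887868a) (nat_lit 0) (p (nat_lit 0x8888070602) (nat_lit 0) (p (nat_lit 0x807868582) (nat_lit 0) (p (nat_lit 0x8587060502) (nat_lit 0) (p (nat_lit 0x506858482) (nat_lit 0) (p (nat_lit 0x160014) (nat_lit 0) (p (nat_lit 0x68612) (nat_lit 0) (p (nat_lit 0x50592) (nat_lit 0) (p (nat_lit 0x38512) (nat_lit 0) (p (nat_lit 0x50392) (nat_lit 0) (p (nat_lit 0x38312) (nat_lit 0) (p (nat_lit 0x20292) (nat_lit 0) (p (nat_lit 0x38112) (nat_lit 0) (p (nat_lit 0x20092) (nat_lit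 0) (p (nat_lit 0x8012) (nat_lit 0) pn))))))))))))))))))))))))) :=
  Cl.node (nat_lit 0xc1) (nat_lit 2) (by decide +kernel) (ClAll.succ (ClAll.succ ClAll.zero s28) s29)

def n78 : Cl (O (nat_lit 3)) (R (nat_lit 14465))
    (p (nat_lit 0x109) (nat_lit 1) (p (nat_lit 0x101) (nat_lit 0) (p (nat_lit 0x119) (nat_lit 0) (p (nat_lit 0xc9) (nat_lit 0) (p (nat_lit 0x89) (nat_lit 1) (p (nat_lit 0x41) (nat_lit 0) (p (nat_lit 0x8a0b0a89889a) (nat_lit 0) (p (nat_lit 0x98a8a09081a) (nat_lit 0) (p (nat_lit 0x89080988879a) (nat_lit 0) (p (nat_lit 0x8878908071a) (nat_lit 0) (p (nat_lit 0x80000800080887868a) (nat_lit 0) (p (nat_lit 0x8888070602) (nat_lit 0) (p (nat_lit 0x807868582) (nat_lit 0) (p (nat_lit 0x8587060502) (nat_lit 0) (p (nat_lit 0x506858482) (nat_lit 0) (p (nat_lit 0x160014) (nat_lit 0) (p (nat_lit 0x68612) (nat_lit 0) (p (nat_lit 0x50592) (nat_lit 0) (p (nat_lit 0x38512) (nat_lit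 0) (p (nat_lit 0x50392) (nat_lit 0) (p (nat_lit 0x38312) (nat_lit 0) (p (nat_lit 0x20292) (nat_lit 0) (p (nat_lit 0x38112) (nat_lit 0) (p (nat_lit 0x20092) (nat_lit 0) (p (nat_lit 0x8012) (nat_lit 0) pn))))))))))))))))))))))))) :=
  Cl.node (nat_lit 0xd1) (nat_lit 2) (by decide +kernel) (ClAll.succ (ClAll.succ ClAll.zero n47) s34)

def n79 : Cl (O (nat_lit 3)) (R (nat_lit 14465))
    (p (nat_lit 0xc1) (nat_lit 0) (p (nat_lit 0x101) (nat_lit 1) (p (nat_lit 0x119) (nat_lit 0) (p (nat_lit 0xc9) (nat_lit 0) (p (nat_lit 0x89) (nat_lit 1) (p (nat_lit 0x41) (nat_lit 0) (p (nat_lit 0x8a0b0a89889a) (nat_lit 0) (p (nat_lit 0x98a8a09081a) (nat_lit 0) (p (nat_lit 0x89080988879a) (nat_lit 0) (p (nat_lit 0x8878908071a) (nat_lit 0) (p (nat_lit 0x80000800080887868a) (nat_lit 0) (p (nat_lit 0x8888070602) (nat_lit 0) (p (nat_lit 0x807868582) (nat_lit 0) (p (nat_lit 0x8587060502) (nat_lit 0)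 (p (nat_lit 0x506858482) (nat_lit 0) (p (nat_lit 0x160014) (nat_lit 0) (p (nat_lit 0x68612) (nat_lit 0) (p (nat_lit 0x50592) (nat_lit 0) (p (nat_lit 0x38512) (nat_lit 0) (p (nat_lit 0x50392) (nat_lit 0) (p (nat_lit 0x38312) (nat_lit 0) (p (nat_lit 0x20292) (nat_lit 0) (p (nat_lit 0x38112) (nat_lit 0) (p (nat_lit 0x20092) (nat_lit 0) (p (nat_lit 0x8012) (nat_lit 0) pn))))))))))))))))))))))))) :=
  Cl.node (nat_lit 0xd1) (nat_lit 2) (by decide +kernel) (ClAll.succ (ClAll.succ ClAll.zero n48) s37)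

def n80 : Cl (O (nat_lit 3)) (R (nat_lit 14465))
    (p (nat_lit 0x101) (nat_lit 0) (p (nat_lit 0xc1) (nat_lit 1) (p (nat_lit 0x119) (nat_lit 1) (p (nat_lit 0xc9) (nat_lit 0) (p (nat_lit 0x89) (nat_lit 1) (p (nat_lit 0x41) (nat_lit 0) (p (nat_lit 0x8a0b0a89889a) (nat_lit 0) (p (nat_lit 0x98a8a09081a) (nat_lit 0) (p (nat_lit 0x89080988879a) (nat_lit 0) (p (nat_lit 0x8878908071a) (nat_lit 0) (p (nat_lit 0x80000800080887868a) (nat_lit 0) (p (nat_lit 0x8888070602) (nat_lit 0) (p (nat_lit 0x807868582) (nat_lit 0) (p (nat_lit 0x8587060502) (nat_lit 0) (p (nat_lit 0x506858482) (nat_lit 0) (p (nat_lit 0x160014) (nat_lit 0) (p (nat_lit 0x68612) (nat_lit 0) (p (nat_lit 0x50592) (nat_lit 0) (p (nat_lit 0x38512) (nat_lit 0) (p (nat_lit 0x50392) (nat_lit 0) (p (nat_lit 0x38312) (nat_lit 0) (p (nat_lit 0x20292) (nat_lit 0) (p (nat_lit 0x38112) (nat_lit 0) (p (nat_lit 0x20092) (nat_lit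 0) (p (nat_lit 0x8012) (nat_lit 0) pn))))))))))))))))))))))))) :=
  Cl.node (nat_lit 0x111) (nat_lit 2) (by decide +kernel) (ClAll.succ (ClAll.succ ClAll.zero n49) n50)

def n81 : Cl (O (nat_lit 3)) (R (nat_lit 14465))
    (p (nat_lit 0x101) (nat_lit 1) (p (nat_lit 0xc1) (nat_lit 1) (p (nat_lit 0x119) (nat_lit 1) (p (nat_lit 0xc9) (nat_lit 0) (p (nat_lit 0x89) (nat_lit 1) (p (nat_lit 0x41) (nat_lit 0) (p (nat_lit 0x8a0b0a89889a) (nat_lit 0) (p (nat_lit 0x98a8a09081a) (nat_lit 0) (p (nat_lit 0x89080988879a) (nat_lit 0) (p (nat_lit 0x8878908071a) (nat_lit 0) (p (nat_lit 0x80000800080887868a) (nat_lit 0) (p (nat_lit 0x8888070602) (nat_lit 0) (p (nat_lit 0x807868582) (nat_lit 0) (p (nat_lit 0x8587060502) (nat_lit 0) (p (nat_lit 0x506858482) (nat_lit 0) (p (nat_lit 0x160014) (nat_lit 0) (p (nat_lit 0x68612) (nat_lit 0) (p (nat_lit 0x50592) (nat_lit 0) (p (nat_lit 0x38512) (nat_lit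 0) (p (nat_lit 0x50392) (nat_lit 0) (p (nat_lit 0x38312) (nat_lit 0) (p (nat_lit 0x20292) (nat_lit 0) (p (nat_lit 0x38112) (nat_lit 0) (p (nat_lit 0x20092) (nat_lit 0) (p (nat_lit 0x8012) (nat_lit 0) pn))))))))))))))))))))))))) :=
  Cl.node (nat_lit 0x200004) (nat_lit 2) (by decide +kernel) (ClAll.succ (ClAll.succ ClAll.zero s44) n51)

def n82 : Cl (O (nat_lit 3)) (R (nat_lit 14465))
    (p (nat_lit 0x109) (nat_lit 1) (p (nat_lit 0x101) (nat_lit 0) (p (nat_lit 0x119) (nat_lit 0) (p (nat_lit 0xd1) (nat_lit 0) (p (nat_lit 0x81) (nat_lit 0) (p (nat_lit 0x41) (nat_lit 1) (p (nat_lit 0x8a0b0a89889a) (nat_lit 0) (p (nat_lit 0x98a8a09081a) (nat_lit 0) (p (nat_lit 0x89080988879a) (nat_lit 0) (p (nat_lit 0x8878908071a) (nat_lit 0) (p (nat_lit 0x80000800080887868a) (nat_lit 0) (p (nat_lit 0x8888070602) (nat_lit 0) (p (nat_lit 0x807868582) (nat_lit 0) (p (nat_lit 0x8587060502) (nat_lit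 0) (p (nat_lit 0x506858482) (nat_lit 0) (p (nat_lit 0x160014) (nat_lit 0) (p (nat_lit 0x68612) (nat_lit 0) (p (nat_lit 0x50592) (nat_lit 0) (p (nat_lit 0x38512) (nat_lit 0) (p (nat_lit 0x50392) (nat_lit 0) (p (nat_lit 0x38312) (nat_lit 0) (p (nat_lit 0x20292) (nat_lit 0) (p (nat_lit 0x38112) (nat_lit 0) (p (nat_lit 0x20092) (nat_lit 0) (p (nat_lit 0x8012) (nat_lit 0) pn))))))))))))))))))))))))) :=
  Cl.node (nat_lit 0x89) (nat_lit 2) (by decide +kernel) (ClAll.succ (ClAll.succ ClAll.zero n52) n53)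

def n83 : Cl (O (nat_lit 3)) (R (nat_lit 14465))
    (p (nat_lit 0xc1) (nat_lit 0) (p (nat_lit 0x101) (nat_lit 1) (p (nat_lit 0x119) (nat_lit 0) (p (nat_lit 0xd1) (nat_lit 0) (p (nat_lit 0x81) (nat_lit 0) (p (nat_lit 0x41) (nat_lit 1) (p (nat_lit 0x8a0b0a89889a) (nat_lit 0) (p (nat_lit 0x98a8a09081a) (nat_lit 0) (p (nat_lit 0x89080988879a) (nat_lit 0) (p (nat_lit 0x8878908071a) (nat_lit 0) (p (nat_lit 0x80000800080887868a) (nat_lit 0) (p (nat_lit 0x8888070602) (nat_lit 0) (p (nat_lit 0x807868582) (nat_lit 0) (p (nat_lit 0x8587060502) (nat_lit 0) (p (nat_lit 0x506858482) (nat_lit 0) (p (nat_lit 0x160014) (nat_lit 0) (p (nat_lit 0x68612) (nat_lit 0) (p (nat_lit 0x50592) (nat_lit 0) (p (nat_lit 0x38512) (nat_lit 0) (p (nat_lit 0x50392) (nat_lit 0) (p (nat_lit 0x38312) (nat_lit 0) (p (nat_lit 0x20292) (nat_lit 0) (p (nat_lit 0x38112) (nat_lit 0) (p (nat_lit 0x20092) (nat_lit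 0) (p (nat_lit 0x8012) (nat_lit 0) pn))))))))))))))))))))))))) :=
  Cl.node (nat_lit 0x89) (nat_lit 2) (by decide +kernel) (ClAll.succ (ClAll.succ ClAll.zero n54) n55)

def n84 : Cl (O (nat_lit 3)) (R (nat_lit 14465))
    (p (nat_lit 0xc1) (nat_lit 1) (p (nat_lit 0x101) (nat_lit 1) (p (nat_lit 0x119) (nat_lit 0) (p (nat_lit 0xd1) (nat_lit 0) (p (nat_lit 0x81) (nat_lit 0) (p (nat_lit 0x41) (nat_lit 1) (p (nat_lit 0x8a0b0a89889a) (nat_lit 0) (p (nat_lit 0x98a8a09081a) (nat_lit 0) (p (nat_lit 0x89080988879a) (nat_lit 0) (p (nat_lit 0x8878908071a) (nat_lit 0) (p (nat_lit 0x80000800080887868a) (nat_lit 0) (p (nat_lit 0x8888070602) (nat_lit 0) (p (nat_lit 0x807868582) (nat_lit 0) (p (nat_lit 0x8587060502) (nat_lit 0) (p (nat_lit 0x506858482) (nat_lit 0) (p (nat_lit 0x160014) (nat_lit 0) (p (nat_lit 0x68612) (nat_lit 0) (p (nat_lit 0x50592) (nat_lit 0) (p (nat_lit 0x38512) (nat_lit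 0) (p (nat_lit 0x50392) (nat_lit 0) (p (nat_lit 0x38312) (nat_lit 0) (p (nat_lit 0x20292) (nat_lit 0) (p (nat_lit 0x38112) (nat_lit 0) (p (nat_lit 0x20092) (nat_lit 0) (p (nat_lit 0x8012) (nat_lit 0) pn))))))))))))))))))))))))) :=
  Cl.node (nat_lit 0x89) (nat_lit 2) (by decide +kernel) (ClAll.succ (ClAll.succ ClAll.zero s65) n56)

def n85 : Cl (O (nat_lit 3)) (R (nat_lit 14465))
    (p (nat_lit 0xc9) (nat_lit 1) (p (nat_lit 0xc1) (nat_lit 0) (p (nat_lit 0x119) (nat_lit 1) (p (nat_lit 0xd1) (nat_lit 0) (p (nat_lit 0x81) (nat_lit 0) (p (nat_lit 0x41) (nat_lit 1) (p (nat_lit 0x8a0b0a89889a) (nat_lit 0) (p (nat_lit 0x98a8a09081a) (nat_lit 0) (p (nat_lit 0x89080988879a) (nat_lit 0) (p (nat_lit 0x8878908071a) (nat_lit 0) (p (nat_lit 0x80000800080887868a) (nat_lit 0) (p (nat_lit 0x8888070602) (nat_lit 0) (p (nat_lit 0x807868582) (nat_lit 0) (p (nat_lit 0x8587060502) (nat_lit 0)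 (p (nat_lit 0x506858482) (nat_lit 0) (p (nat_lit 0x160014) (nat_lit 0) (p (nat_lit 0x68612) (nat_lit 0) (p (nat_lit 0x50592) (nat_lit 0) (p (nat_lit 0x38512) (nat_lit 0) (p (nat_lit 0x50392) (nat_lit 0) (p (nat_lit 0x38312) (nat_lit 0) (p (nat_lit 0x20292) (nat_lit 0) (p (nat_lit 0x38112) (nat_lit 0) (p (nat_lit 0x20092) (nat_lit 0) (p (nat_lit 0x8012) (nat_lit 0) pn))))))))))))))))))))))))) :=
  Cl.node (nat_lit 0x89) (nat_lit 2) (by decide +kernel) (ClAll.succ (ClAll.succ ClAll.zero s75) n57)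

def n86 : Cl (O (nat_lit 3)) (R (nat_lit 14465))
    (p (nat_lit 0x101) (nat_lit 0) (p (nat_lit 0xc1) (nat_lit 1) (p (nat_lit 0x119) (nat_lit 1) (p (nat_lit 0xd1) (nat_lit 0) (p (nat_lit 0x81) (nat_lit 0) (p (nat_lit 0x41) (nat_lit 1) (p (nat_lit 0x8a0b0a89889a) (nat_lit 0) (p (nat_lit 0x98a8a09081a) (nat_lit 0) (p (nat_lit 0x89080988879a) (nat_lit 0) (p (nat_lit 0x8878908071a) (nat_lit 0) (p (nat_lit 0x80000800080887868a) (nat_lit 0) (p (nat_lit 0x8888070602) (nat_lit 0) (p (nat_lit 0x807868582) (nat_lit 0) (p (nat_lit 0x8587060502) (nat_lit 0) (p (nat_lit 0x506858482) (nat_lit 0) (p (nat_lit 0x160014) (nat_lit 0) (p (nat_lit 0x68612) (nat_lit 0) (p (nat_lit 0x50592) (nat_lit 0) (p (nat_lit 0x38512) (nat_lit 0) (p (nat_lit 0x50392) (nat_lit 0) (p (nat_lit 0x38312) (nat_lit 0) (p (nat_lit 0x20292) (nat_lit 0) (p (nat_lit 0x38112) (nat_lit 0) (p (nat_lit 0x20092) (nat_lit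 0) (p (nat_lit 0x8012) (nat_lit 0) pn))))))))))))))))))))))))) :=
  Cl.node (nat_lit 0x89) (nat_lit 2) (by decide +kernel) (ClAll.succ (ClAll.succ ClAll.zero s82) n58)

def n87 : Cl (O (nat_lit 3)) (R (nat_lit 14465))
    (p (nat_lit 0x101) (nat_lit 1) (p (nat_lit 0xc1) (nat_lit 1) (p (nat_lit 0x119) (nat_lit 1) (p (nat_lit 0xd1) (nat_lit 0) (p (nat_lit 0x81) (nat_lit 0) (p (nat_lit 0x41) (nat_lit 1) (p (nat_lit 0x8a0b0a89889a) (nat_lit 0) (p (nat_lit 0x98a8a09081a) (nat_lit 0) (p (nat_lit 0x89080988879a) (nat_lit 0) (p (nat_lit 0x8878908071a) (nat_lit 0) (p (nat_lit 0x80000800080887868a) (nat_lit 0) (p (nat_lit 0x8888070602) (nat_lit 0) (p (nat_lit 0x807868582) (nat_lit 0) (p (nat_lit 0x8587060502) (nat_lit 0) (p (nat_lit 0x506858482) (nat_lit 0) (p (nat_lit 0x160014) (nat_lit 0) (p (nat_lit 0x68612) (nat_lit 0) (p (nat_lit 0x50592) (nat_lit 0) (p (nat_lit 0x38512) (nat_lit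 0) (p (nat_lit 0x50392) (nat_lit 0) (p (nat_lit 0x38312) (nat_lit 0) (p (nat_lit 0x20292) (nat_lit 0) (p (nat_lit 0x38112) (nat_lit 0) (p (nat_lit 0x20092) (nat_lit 0) (p (nat_lit 0x8012) (nat_lit 0) pn))))))))))))))))))))))))) :=
  Cl.node (nat_lit 0x89) (nat_lit 2) (by decide +kernel) (ClAll.succ (ClAll.succ ClAll.zero n59) n60)

def n88 : Cl (O (nat_lit 3)) (R (nat_lit 14465))
    (p (nat_lit 0x109) (nat_lit 1) (p (nat_lit 0x101) (nat_lit 0) (p (nat_lit 0x111) (nat_lit 0) (p (nat_lit 0xd1) (nat_lit 1) (p (nat_lit 0x81) (nat_lit 0) (p (nat_lit 0x41) (nat_lit 1) (p (nat_lit 0x8a0b0a89889a) (nat_lit 0) (p (nat_lit 0x98a8a09081a) (nat_lit 0) (p (nat_lit 0x89080988879a) (nat_lit 0) (p (nat_lit 0x8878908071a) (nat_lit 0) (p (nat_lit 0x80000800080887868a) (nat_lit 0) (p (nat_lit 0x8888070602) (nat_lit 0) (p (nat_lit 0x807868582) (nat_lit 0) (p (nat_lit 0x8587060502) (nat_lit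 0) (p (nat_lit 0x506858482) (nat_lit 0) (p (nat_lit 0x160014) (nat_lit 0) (p (nat_lit 0x68612) (nat_lit 0) (p (nat_lit 0x50592) (nat_lit 0) (p (nat_lit 0x38512) (nat_lit 0) (p (nat_lit 0x50392) (nat_lit 0) (p (nat_lit 0x38312) (nat_lit 0) (p (nat_lit 0x20292) (nat_lit 0) (p (nat_lit 0x38112) (nat_lit 0) (p (nat_lit 0x20092) (nat_lit 0) (p (nat_lit 0x8012) (nat_lit 0) pn))))))))))))))))))))))))) :=
  Cl.node (nat_lit 0x89) (nat_lit 2) (by decide +kernel) (ClAll.succ (ClAll.succ ClAll.zero s99) n61)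

def n89 : Cl (O (nat_lit 3)) (R (nat_lit 14465))
    (p (nat_lit 0x89) (nat_lit 1) (p (nat_lit 0x101) (nat_lit 1) (p (nat_lit 0x111) (nat_lit 0) (p (nat_lit 0xd1) (nat_lit 1) (p (nat_lit 0x81) (nat_lit 0) (p (nat_lit 0x41) (nat_lit 1) (p (nat_lit 0x8a0b0a89889a) (nat_lit 0) (p (nat_lit 0x98a8a09081a) (nat_lit 0) (p (nat_lit 0x89080988879a) (nat_lit 0) (p (nat_lit 0x8878908071a) (nat_lit 0) (p (nat_lit 0x80000800080887868a) (nat_lit 0) (p (nat_lit 0x8888070602) (nat_lit 0) (p (nat_lit 0x807868582) (nat_lit 0) (p (nat_lit 0x8587060502) (nat_lit 0) (p (nat_lit 0x506858482) (nat_lit 0) (p (nat_lit 0x160014) (nat_lit 0) (p (nat_lit 0x68612) (nat_lit 0) (p (nat_lit 0x50592) (nat_lit 0) (p (nat_lit 0x38512) (nat_lit 0) (p (nat_lit 0x50392) (nat_lit 0) (p (nat_lit 0x38312) (nat_lit 0) (p (nat_lit 0x20292) (nat_lit 0) (p (nat_lit 0x38112) (nat_lit 0) (p (nat_lit 0x20092) (nat_lit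 0) (p (nat_lit 0x8012) (nat_lit 0) pn))))))))))))))))))))))))) :=
  Cl.node (nat_lit 0xc9) (nat_lit 2) (by decide +kernel) (ClAll.succ (ClAll.succ ClAll.zero s105) s106)

def n90 : Cl (O (nat_lit 3)) (R (nat_lit 14465))
    (p (nat_lit 0x109) (nat_lit 0) (p (nat_lit 0x101) (nat_lit 0) (p (nat_lit 0x119) (nat_lit 0) (p (nat_lit 0xc1) (nat_lit 0) (p (nat_lit 0x81) (nat_lit 1) (p (nat_lit 0x41) (nat_lit 1) (p (nat_lit 0x8a0b0a89889a) (nat_lit 0) (p (nat_lit 0x98a8a09081a) (nat_lit 0) (p (nat_lit 0x89080988879a) (nat_lit 0) (p (nat_lit 0x8878908071a) (nat_lit 0) (p (nat_lit 0x80000800080887868a) (nat_lit 0) (p (nat_lit 0x8888070602) (nat_lit 0) (p (nat_lit 0x807868582) (nat_lit 0) (p (nat_lit 0x8587060502) (nat_lit 0) (p (nat_lit 0x506858482) (nat_lit 0) (p (nat_lit 0x160014) (nat_lit 0) (p (nat_lit 0x68612) (nat_lit 0) (p (nat_lit 0x50592) (nat_lit 0) (p (nat_lit 0x38512) (nat_lit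 0) (p (nat_lit 0x50392) (nat_lit 0) (p (nat_lit 0x38312) (nat_lit 0) (p (nat_lit 0x20292) (nat_lit 0) (p (nat_lit 0x38112) (nat_lit 0) (p (nat_lit 0x20092) (nat_lit 0) (p (nat_lit 0x8012) (nat_lit 0) pn))))))))))))))))))))))))) :=
  Cl.node (nat_lit 0x111) (nat_lit 2) (by decide +kernel) (ClAll.succ (ClAll.succ ClAll.zero s109) n62)

def n91 : Cl (O (nat_lit 3)) (R (nat_lit 14465))
    (p (nat_lit 0x109) (nat_lit 1) (p (nat_lit 0x101) (nat_lit 0) (p (nat_lit 0x119) (nat_lit 0) (p (nat_lit 0xc1) (nat_lit 0) (p (nat_lit 0x81) (nat_lit 1) (p (nat_lit 0x41) (nat_lit 1) (p (nat_lit 0x8a0b0a89889a) (nat_lit 0) (p (nat_lit 0x98a8a09081a) (nat_lit 0) (p (nat_lit 0x89080988879a) (nat_lit 0) (p (nat_lit 0x8878908071a) (nat_lit 0) (p (nat_lit 0x80000800080887868a) (nat_lit 0) (p (nat_lit 0x8888070602) (nat_lit 0) (p (nat_lit 0x807868582) (nat_lit 0) (p (nat_lit 0x8587060502) (nat_lit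 0) (p (nat_lit 0x506858482) (nat_lit 0) (p (nat_lit 0x160014) (nat_lit 0) (p (nat_lit 0x68612) (nat_lit 0) (p (nat_lit 0x50592) (nat_lit 0) (p (nat_lit 0x38512) (nat_lit 0) (p (nat_lit 0x50392) (nat_lit 0) (p (nat_lit 0x38312) (nat_lit 0) (p (nat_lit 0x20292) (nat_lit 0) (p (nat_lit 0x38112) (nat_lit 0) (p (nat_lit 0x20092) (nat_lit 0) (p (nat_lit 0x8012) (nat_lit 0) pn))))))))))))))))))))))))) :=
  Cl.node (nat_lit 0xc9) (nat_lit 2) (by decide +kernel) (ClAll.succ (ClAll.succ ClAll.zero n63) s116)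

def n92 : Cl (O (nat_lit 3)) (R (nat_lit 14465))
    (p (nat_lit 0xc9) (nat_lit 0) (p (nat_lit 0x101) (nat_lit 1) (p (nat_lit 0x119) (nat_lit 0) (p (nat_lit 0xc1) (nat_lit 0) (p (nat_lit 0x81) (nat_lit 1) (p (nat_lit 0x41) (nat_lit 1) (p (nat_lit 0x8a0b0a89889a) (nat_lit 0) (p (nat_lit 0x98a8a09081a) (nat_lit 0) (p (nat_lit 0x89080988879a) (nat_lit 0) (p (nat_lit 0x8878908071a) (nat_lit 0) (p (nat_lit 0x80000800080887868a) (nat_lit 0) (p (nat_lit 0x8888070602) (nat_lit 0) (p (nat_lit 0x807868582) (nat_lit 0) (p (nat_lit 0x8587060502) (nat_lit 0) (p (nat_lit 0x506858482) (nat_lit 0) (p (nat_lit 0x160014) (nat_lit 0) (p (nat_lit 0x68612) (nat_lit 0) (p (nat_lit 0x50592) (nat_lit 0) (p (nat_lit 0x38512) (nat_lit 0) (p (nat_lit 0x50392) (nat_lit 0) (p (nat_lit 0x38312) (nat_lit 0) (p (nat_lit 0x20292) (nat_lit 0) (p (nat_lit 0x38112) (nat_lit 0) (p (nat_lit 0x20092) (nat_lit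 0) (p (nat_lit 0x8012) (nat_lit 0) pn))))))))))))))))))))))))) :=
  Cl.node (nat_lit 0xd1) (nat_lit 2) (by decide +kernel) (ClAll.succ (ClAll.succ ClAll.zero n64) n65)

def n93 : Cl (O (nat_lit 3)) (R (nat_lit 14465))
    (p (nat_lit 0xc9) (nat_lit 1) (p (nat_lit 0x101) (nat_lit 1) (p (nat_lit 0x119) (nat_lit 0) (p (nat_lit 0xc1) (nat_lit 0) (p (nat_lit 0x81) (nat_lit 1) (p (nat_lit 0x41) (nat_lit 1) (p (nat_lit 0x8a0b0a89889a) (nat_lit 0) (p (nat_lit 0x98a8a09081a) (nat_lit 0) (p (nat_lit 0x89080988879a) (nat_lit 0) (p (nat_lit 0x8878908071a) (nat_lit 0) (p (nat_lit 0x80000800080887868a) (nat_lit 0) (p (nat_lit 0x8888070602) (nat_lit 0) (p (nat_lit 0x807868582) (nat_lit 0) (p (nat_lit 0x8587060502) (nat_lit 0) (p (nat_lit 0x506858482) (nat_lit 0) (p (nat_lit 0x160014) (nat_lit 0) (p (nat_lit 0x68612) (nat_lit 0) (p (nat_lit 0x50592) (nat_lit 0) (p (nat_lit 0x38512) (nat_lit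 0) (p (nat_lit 0x50392) (nat_lit 0) (p (nat_lit 0x38312) (nat_lit 0) (p (nat_lit 0x20292) (nat_lit 0) (p (nat_lit 0x38112) (nat_lit 0) (p (nat_lit 0x20092) (nat_lit 0) (p (nat_lit 0x8012) (nat_lit 0) pn))))))))))))))))))))))))) :=
  Cl.node (nat_lit 0x200004) (nat_lit 2) (by decide +kernel) (ClAll.succ (ClAll.succ ClAll.zero s122) s123)

def n94 : Cl (O (nat_lit 3)) (R (nat_lit 14465))
    (p (nat_lit 0xd1) (nat_lit 1) (p (nat_lit 0xc9) (nat_lit 0) (p (nat_lit 0x119) (nat_lit 1) (p (nat_lit 0xc1) (nat_lit 0) (p (nat_lit 0x81) (nat_lit 1) (p (nat_lit 0x41) (nat_lit 1) (p (nat_lit 0x8a0b0a89889a) (nat_lit 0) (p (nat_lit 0x98a8a09081a) (nat_lit 0) (p (nat_lit 0x89080988879a) (nat_lit 0) (p (nat_lit 0x8878908071a) (nat_lit 0) (p (nat_lit 0x80000800080887868a) (nat_lit 0) (p (nat_lit 0x8888070602) (nat_lit 0) (p (nat_lit 0x807868582) (nat_lit 0) (p (nat_lit 0x8587060502) (nat_lit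 0) (p (nat_lit 0x506858482) (nat_lit 0) (p (nat_lit 0x160014) (nat_lit 0) (p (nat_lit 0x68612) (nat_lit 0) (p (nat_lit 0x50592) (nat_lit 0) (p (nat_lit 0x38512) (nat_lit 0) (p (nat_lit 0x50392) (nat_lit 0) (p (nat_lit 0x38312) (nat_lit 0) (p (nat_lit 0x20292) (nat_lit 0) (p (nat_lit 0x38112) (nat_lit 0) (p (nat_lit 0x20092) (nat_lit 0) (p (nat_lit 0x8012) (nat_lit 0) pn))))))))))))))))))))))))) :=
  Cl.node (nat_lit 0x111) (nat_lit 2) (by decide +kernel) (ClAll.succ (ClAll.succ ClAll.zero s125) n66)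

def n95 : Cl (O (nat_lit 3)) (R (nat_lit 14465))
    (p (nat_lit 0x109) (nat_lit 0) (p (nat_lit 0xc9) (nat_lit 1) (p (nat_lit 0x119) (nat_lit 1) (p (nat_lit 0xc1) (nat_lit 0) (p (nat_lit 0x81) (nat_lit 1) (p (nat_lit 0x41) (nat_lit 1) (p (nat_lit 0x8a0b0a89889a) (nat_lit 0) (p (nat_lit 0x98a8a09081a) (nat_lit 0) (p (nat_lit 0x89080988879a) (nat_lit 0) (p (nat_lit 0x8878908071a) (nat_lit 0) (p (nat_lit 0x80000800080887868a) (nat_lit 0) (p (nat_lit 0x8888070602) (nat_lit 0) (p (nat_lit 0x807868582) (nat_lit 0) (p (nat_lit 0x8587060502) (nat_lit 0) (p (nat_lit 0x506858482) (nat_lit 0) (p (nat_lit 0x160014) (nat_lit 0) (p (nat_lit 0x68612) (nat_lit 0) (p (nat_lit 0x50592) (nat_lit 0) (p (nat_lit 0x38512) (nat_lit 0) (p (nat_lit 0x50392) (nat_lit 0) (p (nat_lit 0x38312) (nat_lit 0) (p (nat_lit 0x20292) (nat_lit 0) (p (nat_lit 0x38112) (nat_lit 0) (p (nat_lit 0x20092) (nat_lit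 0) (p (nat_lit 0x8012) (nat_lit 0) pn))))))))))))))))))))))))) :=
  Cl.node (nat_lit 0x111) (nat_lit 2) (by decide +kernel) (ClAll.succ (ClAll.succ ClAll.zero n67) n68)

def n96 : Cl (O (nat_lit 3)) (R (nat_lit 14465))
    (p (nat_lit 0x109) (nat_lit 1) (p (nat_lit 0xc9) (nat_lit 1) (p (nat_lit 0x119) (nat_lit 1) (p (nat_lit 0xc1) (nat_lit 0) (p (nat_lit 0x81) (nat_lit 1) (p (nat_lit 0x41) (nat_lit 1) (p (nat_lit 0x8a0b0a89889a) (nat_lit 0) (p (nat_lit 0x98a8a09081a) (nat_lit 0) (p (nat_lit 0x89080988879a) (nat_lit 0) (p (nat_lit 0x8878908071a) (nat_lit 0) (p (nat_lit 0x80000800080887868a) (nat_lit 0) (p (nat_lit 0x8888070602) (nat_lit 0) (p (nat_lit 0x807868582) (nat_lit 0) (p (nat_lit 0x8587060502) (nat_lit 0) (p (nat_lit 0x506858482) (nat_lit 0) (p (nat_lit 0x160014) (nat_lit 0) (p (nat_lit 0x68612) (nat_lit 0) (p (nat_lit 0x50592) (nat_lit 0) (p (nat_lit 0x38512) (nat_lit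 0) (p (nat_lit 0x50392) (nat_lit 0) (p (nat_lit 0x38312) (nat_lit 0) (p (nat_lit 0x20292) (nat_lit 0) (p (nat_lit 0x38112) (nat_lit 0) (p (nat_lit 0x20092) (nat_lit 0) (p (nat_lit 0x8012) (nat_lit 0) pn))))))))))))))))))))))))) :=
  Cl.node (nat_lit 0x200004) (nat_lit 2) (by decide +kernel) (ClAll.succ (ClAll.succ ClAll.zero s138) s139)

def n97 : Cl (O (nat_lit 3)) (R (nat_lit 14465))
    (p (nat_lit 0x101) (nat_lit 0) (p (nat_lit 0x119) (nat_lit 0) (p (nat_lit 0xd1) (nat_lit 0) (p (nat_lit 0x89) (nat_lit 0) (p (nat_lit 0x41) (nat_lit 0) (p (nat_lit 0x8a0b0a89889a) (nat_lit 0) (p (nat_lit 0x98a8a09081a) (nat_lit 0) (p (nat_lit 0x89080988879a) (nat_lit 0) (p (nat_lit 0x8878908071a) (nat_lit 0) (p (nat_lit 0x80000800080887868a) (nat_lit 0) (p (nat_lit 0x8888070602) (nat_lit 0) (p (nat_lit 0x807868582) (nat_lit 0) (p (nat_lit 0x8587060502) (nat_lit 0) (p (nat_lit 0x506858482)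 (nat_lit 0) (p (nat_lit 0x160014) (nat_lit 0) (p (nat_lit 0x68612) (nat_lit 0) (p (nat_lit 0x50592) (nat_lit 0) (p (nat_lit 0x38512) (nat_lit 0) (p (nat_lit 0x50392) (nat_lit 0) (p (nat_lit 0x38312) (nat_lit 0) (p (nat_lit 0x20292) (nat_lit 0) (p (nat_lit 0x38112) (nat_lit 0) (p (nat_lit 0x20092) (nat_lit 0) (p (nat_lit 0x8012) (nat_lit 0) pn)))))))))))))))))))))))) :=
  Cl.node (nat_lit 0x109) (nat_lit 2) (by decide +kernel) (ClAll.succ (ClAll.succ ClAll.zero s0) n69)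

def n98 : Cl (O (nat_lit 3)) (R (nat_lit 14465))
    (p (nat_lit 0x101) (nat_lit 1) (p (nat_lit 0x119) (nat_lit 0) (p (nat_lit 0xd1) (nat_lit 0) (p (nat_lit 0x89) (nat_lit 0) (p (nat_lit 0x41) (nat_lit 0) (p (nat_lit 0x8a0b0a89889a) (nat_lit 0) (p (nat_lit 0x98a8a09081a) (nat_lit 0) (p (nat_lit 0x89080988879a) (nat_lit 0) (p (nat_lit 0x8878908071a) (nat_lit 0) (p (nat_lit 0x80000800080887868a) (nat_lit 0) (p (nat_lit 0x8888070602) (nat_lit 0) (p (nat_lit 0x807868582) (nat_lit 0) (p (nat_lit 0x8587060502) (nat_lit 0) (p (nat_lit 0x506858482) (nat_lit 0) (p (nat_lit 0x160014) (nat_lit 0) (p (nat_lit 0x68612) (nat_lit 0) (p (nat_lit 0x50592) (nat_lit 0) (p (nat_lit 0x38512) (nat_lit 0) (p (nat_lit 0x50392) (nat_lit 0) (p (nat_lit 0x38312) (nat_lit 0) (p (nat_lit 0x20292) (nat_lit 0) (p (nat_lit 0x38112) (nat_lit 0) (p (nat_lit 0x20092) (nat_lit 0) (p (nat_lit 0x8012) (nat_lit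 0) pn)))))))))))))))))))))))) :=
  Cl.node (nat_lit 0x81) (nat_lit 2) (by decide +kernel) (ClAll.succ (ClAll.succ ClAll.zero n70) n71)

def n99 : Cl (O (nat_lit 3)) (R (nat_lit 14465))
    (p (nat_lit 0xc1) (nat_lit 0) (p (nat_lit 0x119) (nat_lit 1) (p (nat_lit 0xd1) (nat_lit 0) (p (nat_lit 0x89) (nat_lit 0) (p (nat_lit 0x41) (nat_lit 0) (p (nat_lit 0x8a0b0a89889a) (nat_lit 0) (p (nat_lit 0x98a8a09081a) (nat_lit 0) (p (nat_lit 0x89080988879a) (nat_lit 0) (p (nat_lit 0x8878908071a) (nat_lit 0) (p (nat_lit 0x80000800080887868a) (nat_lit 0) (p (nat_lit 0x8888070602) (nat_lit 0) (p (nat_lit 0x807868582) (nat_lit 0) (p (nat_lit 0x8587060502) (nat_lit 0) (p (nat_lit 0x506858482) (nat_lit 0) (p (nat_lit 0x160014) (nat_lit 0) (p (nat_lit 0x68612) (nat_lit 0) (p (nat_lit 0x50592) (nat_lit 0) (p (nat_lit 0x38512) (nat_lit 0) (p (nat_lit 0x50392) (nat_lit 0) (p (nat_lit 0x38312) (nat_lit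 0) (p (nat_lit 0x20292) (nat_lit 0) (p (nat_lit 0x38112) (nat_lit 0) (p (nat_lit 0x20092) (nat_lit 0) (p (nat_lit 0x8012) (nat_lit 0) pn)))))))))))))))))))))))) :=
  Cl.node (nat_lit 0xc9) (nat_lit 2) (by decide +kernel) (ClAll.succ (ClAll.succ ClAll.zero s10) n72)

def n100 : Cl (O (nat_lit 3)) (R (nat_lit 14465))
    (p (nat_lit 0xc1) (nat_lit 1) (p (nat_lit 0x119) (nat_lit 1) (p (nat_lit 0xd1) (nat_lit 0) (p (nat_lit 0x89) (nat_lit 0) (p (nat_lit 0x41) (nat_lit 0) (p (nat_lit 0x8a0b0a89889a) (nat_lit 0) (p (nat_lit 0x98a8a09081a) (nat_lit 0) (p (nat_lit 0x89080988879a) (nat_lit 0) (p (nat_lit 0x8878908071a) (nat_lit 0) (p (nat_lit 0x80000800080887868a) (nat_lit 0) (p (nat_lit 0x8888070602) (nat_lit 0) (p (nat_lit 0x807868582) (nat_lit 0) (p (nat_lit 0x8587060502) (nat_lit 0) (p (nat_lit 0x506858482) (nat_lit 0) (p (nat_lit 0x160014) (nat_lit 0) (p (nat_lit 0x68612) (nat_lit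 0) (p (nat_lit 0x50592) (nat_lit 0) (p (nat_lit 0x38512) (nat_lit 0) (p (nat_lit 0x50392) (nat_lit 0) (p (nat_lit 0x38312) (nat_lit 0) (p (nat_lit 0x20292) (nat_lit 0) (p (nat_lit 0x38112) (nat_lit 0) (p (nat_lit 0x20092) (nat_lit 0) (p (nat_lit 0x8012) (nat_lit 0) pn)))))))))))))))))))))))) :=
  Cl.node (nat_lit 0x81) (nat_lit 2) (by decide +kernel) (ClAll.succ (ClAll.succ ClAll.zero n73) n74)

def n101 : Cl (O (nat_lit 3)) (R (nat_lit 14465))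
    (p (nat_lit 0x101) (nat_lit 0) (p (nat_lit 0x111) (nat_lit 0) (p (nat_lit 0xd1) (nat_lit 1) (p (nat_lit 0x89) (nat_lit 0) (p (nat_lit 0x41) (nat_lit 0) (p (nat_lit 0x8a0b0a89889a) (nat_lit 0) (p (nat_lit 0x98a8a09081a) (nat_lit 0) (p (nat_lit 0x89080988879a) (nat_lit 0) (p (nat_lit 0x8878908071a) (nat_lit 0) (p (nat_lit 0x80000800080887868a) (nat_lit 0) (p (nat_lit 0x8888070602) (nat_lit 0) (p (nat_lit 0x807868582) (nat_lit 0) (p (nat_lit 0x8587060502) (nat_lit 0) (p (nat_lit 0x506858482) (nat_lit 0) (p (nat_lit 0x160014) (nat_lit 0) (p (nat_lit 0x68612) (nat_lit 0) (p (nat_lit 0x50592) (nat_lit 0) (p (nat_lit 0x38512) (nat_lit 0) (p (nat_lit 0x50392) (nat_lit 0) (p (nat_lit 0x38312) (nat_lit 0) (p (nat_lit 0x20292) (nat_lit 0) (p (nat_lit 0x38112) (nat_lit 0) (p (nat_lit 0x20092) (nat_lit 0) (p (nat_lit 0x8012) (nat_lit 0) pn)))))))))))))))))))))))) :=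
  Cl.node (nat_lit 0x109) (nat_lit 2) (by decide +kernel) (ClAll.succ (ClAll.succ ClAll.zero s23) n75)

def n102 : Cl (O (nat_lit 3)) (R (nat_lit 14465))
    (p (nat_lit 0x101) (nat_lit 1) (p (nat_lit 0x111) (nat_lit 0) (p (nat_lit 0xd1) (nat_lit 1) (p (nat_lit 0x89) (nat_lit 0) (p (nat_lit 0x41) (nat_lit 0) (p (nat_lit 0x8a0b0a89889a) (nat_lit 0) (p (nat_lit 0x98a8a09081a) (nat_lit 0) (p (nat_lit 0x89080988879a) (nat_lit 0) (p (nat_lit 0x8878908071a) (nat_lit 0) (p (nat_lit 0x80000800080887868a) (nat_lit 0) (p (nat_lit 0x8888070602) (nat_lit 0) (p (nat_lit 0x807868582) (nat_lit 0) (p (nat_lit 0x8587060502) (nat_lit 0) (p (nat_lit 0x506858482) (nat_lit 0) (p (nat_lit 0x160014) (nat_lit 0) (p (nat_lit 0x68612) (nat_lit 0) (p (nat_lit 0x50592) (nat_lit 0) (p (nat_lit 0x38512) (nat_lit 0) (p (nat_lit 0x50392) (nat_lit 0) (p (nat_lit 0x38312) (nat_lit 0) (p (nat_lit 0x20292)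 (nat_lit 0) (p (nat_lit 0x38112) (nat_lit 0) (p (nat_lit 0x20092) (nat_lit 0) (p (nat_lit 0x8012) (nat_lit 0) pn)))))))))))))))))))))))) :=
  Cl.node (nat_lit 0x81) (nat_lit 2) (by decide +kernel) (ClAll.succ (ClAll.succ ClAll.zero n76) n77)

def n103 : Cl (O (nat_lit 3)) (R (nat_lit 14465))
    (p (nat_lit 0x101) (nat_lit 0) (p (nat_lit 0x119) (nat_lit 0) (p (nat_lit 0xc9) (nat_lit 0) (p (nat_lit 0x89) (nat_lit 1) (p (nat_lit 0x41) (nat_lit 0) (p (nat_lit 0x8a0b0a89889a) (nat_lit 0) (p (nat_lit 0x98a8a09081a) (nat_lit 0) (p (nat_lit 0x89080988879a) (nat_lit 0) (p (nat_lit 0x8878908071a) (nat_lit 0) (p (nat_lit 0x80000800080887868a) (nat_lit 0) (p (nat_lit 0x8888070602) (nat_lit 0) (p (nat_lit 0x807868582) (nat_lit 0) (p (nat_lit 0x8587060502) (nat_lit 0) (p (nat_lit 0x506858482) (nat_lit 0) (p (nat_lit 0x160014) (nat_lit 0) (p (nat_lit 0x68612) (nat_lit 0) (p (nat_lit 0x50592)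 (nat_lit 0) (p (nat_lit 0x38512) (nat_lit 0) (p (nat_lit 0x50392) (nat_lit 0) (p (nat_lit 0x38312) (nat_lit 0) (p (nat_lit 0x20292) (nat_lit 0) (p (nat_lit 0x38112) (nat_lit 0) (p (nat_lit 0x20092) (nat_lit 0) (p (nat_lit 0x8012) (nat_lit 0) pn)))))))))))))))))))))))) :=
  Cl.node (nat_lit 0x109) (nat_lit 2) (by decide +kernel) (ClAll.succ (ClAll.succ ClAll.zero s31) n78)

def n104 : Cl (O (nat_lit 3)) (R (nat_lit 14465))
    (p (nat_lit 0x101) (nat_lit 1) (p (nat_lit 0x119) (nat_lit 0) (p (nat_lit 0xc9) (nat_lit 0) (p (nat_lit 0x89) (nat_lit 1) (p (nat_lit 0x41) (nat_lit 0) (p (nat_lit 0x8a0b0a89889a) (nat_lit 0) (p (nat_lit 0x98a8a09081a) (nat_lit 0) (p (nat_lit 0x89080988879a) (nat_lit 0) (p (nat_lit 0x8878908071a) (nat_lit 0) (p (nat_lit 0x80000800080887868a) (nat_lit 0) (p (nat_lit 0x8888070602) (nat_lit 0) (p (nat_lit 0x807868582) (nat_lit 0) (p (nat_lit 0x8587060502)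 (nat_lit 0) (p (nat_lit 0x506858482) (nat_lit 0) (p (nat_lit 0x160014) (nat_lit 0) (p (nat_lit 0x68612) (nat_lit 0) (p (nat_lit 0x50592) (nat_lit 0) (p (nat_lit 0x38512) (nat_lit 0) (p (nat_lit 0x50392) (nat_lit 0) (p (nat_lit 0x38312) (nat_lit 0) (p (nat_lit 0x20292) (nat_lit 0) (p (nat_lit 0x38112) (nat_lit 0) (p (nat_lit 0x20092) (nat_lit 0) (p (nat_lit 0x8012) (nat_lit 0) pn)))))))))))))))))))))))) :=
  Cl.node (nat_lit 0xc1) (nat_lit 2) (by decide +kernel) (ClAll.succ (ClAll.succ ClAll.zero n79) s38)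

def n105 : Cl (O (nat_lit 3)) (R (nat_lit 14465))
    (p (nat_lit 0xc1) (nat_lit 1) (p (nat_lit 0x119) (nat_lit 1) (p (nat_lit 0xc9) (nat_lit 0) (p (nat_lit 0x89) (nat_lit 1) (p (nat_lit 0x41) (nat_lit 0) (p (nat_lit 0x8a0b0a89889a) (nat_lit 0) (p (nat_lit 0x98a8a09081a) (nat_lit 0) (p (nat_lit 0x89080988879a) (nat_lit 0) (p (nat_lit 0x8878908071a) (nat_lit 0) (p (nat_lit 0x80000800080887868a) (nat_lit 0) (p (nat_lit 0x8888070602) (nat_lit 0) (p (nat_lit 0x807868582) (nat_lit 0) (p (nat_lit 0x8587060502) (nat_lit 0) (p (nat_lit 0x506858482) (nat_lit 0) (p (nat_lit 0x160014) (nat_lit 0) (p (nat_lit 0x68612) (nat_lit 0) (p (nat_lit 0x50592) (nat_lit 0) (p (nat_lit 0x38512) (nat_lit 0) (p (nat_lit 0x50392) (nat_lit 0) (p (nat_lit 0x38312) (nat_lit 0) (p (nat_lit 0x20292) (nat_lit 0) (p (nat_lit 0x38112) (nat_lit 0) (p (nat_lit 0x20092) (nat_lit 0) (p (nat_lit 0x8012) (nat_lit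 0) pn)))))))))))))))))))))))) :=
  Cl.node (nat_lit 0x101) (nat_lit 2) (by decide +kernel) (ClAll.succ (ClAll.succ ClAll.zero n80) n81)

def n106 : Cl (O (nat_lit 3)) (R (nat_lit 14465))
    (p (nat_lit 0x101) (nat_lit 0) (p (nat_lit 0x119) (nat_lit 0) (p (nat_lit 0xd1) (nat_lit 0) (p (nat_lit 0x81) (nat_lit 0) (p (nat_lit 0x41) (nat_lit 1) (p (nat_lit 0x8a0b0a89889a) (nat_lit 0) (p (nat_lit 0x98a8a09081a) (nat_lit 0) (p (nat_lit 0x89080988879a) (nat_lit 0) (p (nat_lit 0x8878908071a) (nat_lit 0) (p (nat_lit 0x80000800080887868a) (nat_lit 0) (p (nat_lit 0x8888070602) (nat_lit 0) (p (nat_lit 0x807868582) (nat_lit 0) (p (nat_lit 0x8587060502) (nat_lit 0) (p (nat_lit 0x506858482) (nat_lit 0) (p (nat_lit 0x160014) (nat_lit 0) (p (nat_lit 0x68612) (nat_lit 0) (p (nat_lit 0x50592) (nat_lit 0) (p (nat_lit 0x38512) (nat_lit 0) (p (nat_lit 0x50392) (nat_lit 0) (p (nat_lit 0x38312)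 (nat_lit 0) (p (nat_lit 0x20292) (nat_lit 0) (p (nat_lit 0x38112) (nat_lit 0) (p (nat_lit 0x20092) (nat_lit 0) (p (nat_lit 0x8012) (nat_lit 0) pn)))))))))))))))))))))))) :=
  Cl.node (nat_lit 0x109) (nat_lit 2) (by decide +kernel) (ClAll.succ (ClAll.succ ClAll.zero s51) n82)

def n107 : Cl (O (nat_lit 3)) (R (nat_lit 14465))
    (p (nat_lit 0x101) (nat_lit 1) (p (nat_lit 0x119) (nat_lit 0) (p (nat_lit 0xd1) (nat_lit 0) (p (nat_lit 0x81) (nat_lit 0) (p (nat_lit 0x41) (nat_lit 1) (p (nat_lit 0x8a0b0a89889a) (nat_lit 0) (p (nat_lit 0x98a8a09081a) (nat_lit 0) (p (nat_lit 0x89080988879a) (nat_lit 0) (p (nat_lit 0x8878908071a) (nat_lit 0) (p (nat_lit 0x80000800080887868a) (nat_lit 0) (p (nat_lit 0x8888070602) (nat_lit 0) (p (nat_lit 0x807868582) (nat_lit 0) (p (nat_lit 0x8587060502) (nat_lit 0) (p (nat_lit 0x506858482) (nat_lit 0) (p (nat_lit 0x160014) (nat_lit 0) (p (nat_lit 0x68612)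 (nat_lit 0) (p (nat_lit 0x50592) (nat_lit 0) (p (nat_lit 0x38512) (nat_lit 0) (p (nat_lit 0x50392) (nat_lit 0) (p (nat_lit 0x38312) (nat_lit 0) (p (nat_lit 0x20292) (nat_lit 0) (p (nat_lit 0x38112) (nat_lit 0) (p (nat_lit 0x20092) (nat_lit 0) (p (nat_lit 0x8012) (nat_lit 0) pn)))))))))))))))))))))))) :=
  Cl.node (nat_lit 0xc1) (nat_lit 2) (by decide +kernel) (ClAll.succ (ClAll.succ ClAll.zero n83) n84)

def n108 : Cl (O (nat_lit 3)) (R (nat_lit 14465))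
    (p (nat_lit 0xc1) (nat_lit 0) (p (nat_lit 0x119) (nat_lit 1) (p (nat_lit 0xd1) (nat_lit 0) (p (nat_lit 0x81) (nat_lit 0) (p (nat_lit 0x41) (nat_lit 1) (p (nat_lit 0x8a0b0a89889a) (nat_lit 0) (p (nat_lit 0x98a8a09081a) (nat_lit 0) (p (nat_lit 0x89080988879a) (nat_lit 0) (p (nat_lit 0x8878908071a) (nat_lit 0) (p (nat_lit 0x80000800080887868a) (nat_lit 0) (p (nat_lit 0x8888070602) (nat_lit 0) (p (nat_lit 0x807868582) (nat_lit 0) (p (nat_lit 0x8587060502) (nat_lit 0) (p (nat_lit 0x506858482) (nat_lit 0) (p (nat_lit 0x160014) (nat_lit 0) (p (nat_lit 0x68612) (nat_lit 0) (p (nat_lit 0x50592) (nat_lit 0) (p (nat_lit 0x38512) (nat_lit 0) (p (nat_lit 0x50392) (nat_lit 0) (p (nat_lit 0x38312) (nat_lit 0) (p (nat_lit 0x20292) (nat_lit 0) (p (nat_lit 0x38112) (nat_lit 0) (p (nat_lit 0x20092) (nat_lit 0) (p (nat_lit 0x8012) (nat_lit 0) pn)))))))))))))))))))))))) :=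
  Cl.node (nat_lit 0xc9) (nat_lit 2) (by decide +kernel) (ClAll.succ (ClAll.succ ClAll.zero s74) n85)

def n109 : Cl (O (nat_lit 3)) (R (nat_lit 14465))
    (p (nat_lit 0xc1) (nat_lit 1) (p (nat_lit 0x119) (nat_lit 1) (p (nat_lit 0xd1) (nat_lit 0) (p (nat_lit 0x81) (nat_lit 0) (p (nat_lit 0x41) (nat_lit 1) (p (nat_lit 0x8a0b0a89889a) (nat_lit 0) (p (nat_lit 0x98a8a09081a) (nat_lit 0) (p (nat_lit 0x89080988879a) (nat_lit 0) (p (nat_lit 0x8878908071a) (nat_lit 0) (p (nat_lit 0x80000800080887868a) (nat_lit 0) (p (nat_lit 0x8888070602) (nat_lit 0) (p (nat_lit 0x807868582) (nat_lit 0) (p (nat_lit 0x8587060502) (nat_lit 0) (p (nat_lit 0x506858482) (nat_lit 0) (p (nat_lit 0x160014) (nat_lit 0) (p (nat_lit 0x68612) (nat_lit 0) (p (nat_lit 0x50592) (nat_lit 0) (p (nat_lit 0x38512) (nat_lit 0) (p (nat_lit 0x50392) (nat_lit 0) (p (nat_lit 0x38312) (nat_lit 0) (p (nat_lit 0x20292) (nat_lit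 0) (p (nat_lit 0x38112) (nat_lit 0) (p (nat_lit 0x20092) (nat_lit 0) (p (nat_lit 0x8012) (nat_lit 0) pn)))))))))))))))))))))))) :=
  Cl.node (nat_lit 0x101) (nat_lit 2) (by decide +kernel) (ClAll.succ (ClAll.succ ClAll.zero n86) n87)

def n110 : Cl (O (nat_lit 3)) (R (nat_lit 14465))
    (p (nat_lit 0x101) (nat_lit 0) (p (nat_lit 0x111) (nat_lit 0) (p (nat_lit 0xd1) (nat_lit 1) (p (nat_lit 0x81) (nat_lit 0) (p (nat_lit 0x41) (nat_lit 1) (p (nat_lit 0x8a0b0a89889a) (nat_lit 0) (p (nat_lit 0x98a8a09081a) (nat_lit 0) (p (nat_lit 0x89080988879a) (nat_lit 0) (p (nat_lit 0x8878908071a) (nat_lit 0) (p (nat_lit 0x80000800080887868a) (nat_lit 0) (p (nat_lit 0x8888070602) (nat_lit 0) (p (nat_lit 0x807868582) (nat_lit 0) (p (nat_lit 0x8587060502) (nat_lit 0) (p (nat_lit 0x506858482) (nat_lit 0) (p (nat_lit 0x160014) (nat_lit 0) (p (nat_lit 0x68612) (nat_lit 0) (p (nat_lit 0x50592) (nat_lit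 0) (p (nat_lit 0x38512) (nat_lit 0) (p (nat_lit 0x50392) (nat_lit 0) (p (nat_lit 0x38312) (nat_lit 0) (p (nat_lit 0x20292) (nat_lit 0) (p (nat_lit 0x38112) (nat_lit 0) (p (nat_lit 0x20092) (nat_lit 0) (p (nat_lit 0x8012) (nat_lit 0) pn)))))))))))))))))))))))) :=
  Cl.node (nat_lit 0x109) (nat_lit 2) (by decide +kernel) (ClAll.succ (ClAll.succ ClAll.zero s98) n88)

def n111 : Cl (O (nat_lit 3)) (R (nat_lit 14465))
    (p (nat_lit 0x101) (nat_lit 1) (p (nat_lit 0x111) (nat_lit 0) (p (nat_lit 0xd1) (nat_lit 1) (p (nat_lit 0x81) (nat_lit 0) (p (nat_lit 0x41) (nat_lit 1) (p (nat_lit 0x8a0b0a89889a) (nat_lit 0) (p (nat_lit 0x98a8a09081a) (nat_lit 0) (p (nat_lit 0x89080988879a) (nat_lit 0) (p (nat_lit 0x8878908071a) (nat_lit 0) (p (nat_lit 0x80000800080887868a) (nat_lit 0) (p (nat_lit 0x8888070602) (nat_lit 0) (p (nat_lit 0x807868582) (nat_lit 0) (p (nat_lit 0x8587060502) (nat_lit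 0) (p (nat_lit 0x506858482) (nat_lit 0) (p (nat_lit 0x160014) (nat_lit 0) (p (nat_lit 0x68612) (nat_lit 0) (p (nat_lit 0x50592) (nat_lit 0) (p (nat_lit 0x38512) (nat_lit 0) (p (nat_lit 0x50392) (nat_lit 0) (p (nat_lit 0x38312) (nat_lit 0) (p (nat_lit 0x20292) (nat_lit 0) (p (nat_lit 0x38112) (nat_lit 0) (p (nat_lit 0x20092) (nat_lit 0) (p (nat_lit 0x8012) (nat_lit 0) pn)))))))))))))))))))))))) :=
  Cl.node (nat_lit 0x89) (nat_lit 2) (by decide +kernel) (ClAll.succ (ClAll.succ ClAll.zero s104) n89)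

def n112 : Cl (O (nat_lit 3)) (R (nat_lit 14465))
    (p (nat_lit 0x101) (nat_lit 0) (p (nat_lit 0x119) (nat_lit 0) (p (nat_lit 0xc1) (nat_lit 0) (p (nat_lit 0x81) (nat_lit 1) (p (nat_lit 0x41) (nat_lit 1) (p (nat_lit 0x8a0b0a89889a) (nat_lit 0) (p (nat_lit 0x98a8a09081a) (nat_lit 0) (p (nat_lit 0x89080988879a) (nat_lit 0) (p (nat_lit 0x8878908071a) (nat_lit 0) (p (nat_lit 0x80000800080887868a) (nat_lit 0) (p (nat_lit 0x8888070602) (nat_lit 0) (p (nat_lit 0x807868582) (nat_lit 0) (p (nat_lit 0x8587060502) (nat_lit 0) (p (nat_lit 0x506858482) (nat_lit 0) (p (nat_lit 0x160014) (nat_lit 0) (p (nat_lit 0x68612) (nat_lit 0) (p (nat_lit 0x50592) (nat_lit 0) (p (nat_lit 0x38512) (nat_lit 0) (p (nat_lit 0x50392) (nat_lit 0) (p (nat_lit 0x38312) (nat_lit 0) (p (nat_lit 0x20292) (nat_lit 0) (p (nat_lit 0x38112) (nat_lit 0) (p (nat_lit 0x20092) (nat_lit 0) (p (nat_lit 0x8012) (nat_lit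 0) pn)))))))))))))))))))))))) :=
  Cl.node (nat_lit 0x109) (nat_lit 2) (by decide +kernel) (ClAll.succ (ClAll.succ ClAll.zero n90) n91)

def n113 : Cl (O (nat_lit 3)) (R (nat_lit 14465))
    (p (nat_lit 0x101) (nat_lit 1) (p (nat_lit 0x119) (nat_lit 0) (p (nat_lit 0xc1) (nat_lit 0) (p (nat_lit 0x81) (nat_lit 1) (p (nat_lit 0x41) (nat_lit 1) (p (nat_lit 0x8a0b0a89889a) (nat_lit 0) (p (nat_lit 0x98a8a09081a) (nat_lit 0) (p (nat_lit 0x89080988879a) (nat_lit 0) (p (nat_lit 0x8878908071a) (nat_lit 0) (p (nat_lit 0x80000800080887868a) (nat_lit 0) (p (nat_lit 0x8888070602) (nat_lit 0) (p (nat_lit 0x807868582) (nat_lit 0) (p (nat_lit 0x8587060502) (nat_lit 0) (p (nat_lit 0x506858482) (nat_lit 0) (p (nat_lit 0x160014) (nat_lit 0) (p (nat_lit 0x68612) (nat_lit 0) (p (nat_lit 0x50592) (nat_lit 0) (p (nat_lit 0x38512) (nat_lit 0) (p (nat_lit 0x50392) (nat_lit 0) (p (nat_lit 0x38312)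 (nat_lit 0) (p (nat_lit 0x20292) (nat_lit 0) (p (nat_lit 0x38112) (nat_lit 0) (p (nat_lit 0x20092) (nat_lit 0) (p (nat_lit 0x8012) (nat_lit 0) pn)))))))))))))))))))))))) :=
  Cl.node (nat_lit 0xc9) (nat_lit 2) (by decide +kernel) (ClAll.succ (ClAll.succ ClAll.zero n92) n93)

def n114 : Cl (O (nat_lit 3)) (R (nat_lit 14465))
    (p (nat_lit 0xc9) (nat_lit 0) (p (nat_lit 0x119) (nat_lit 1) (p (nat_lit 0xc1) (nat_lit 0) (p (nat_lit 0x81) (nat_lit 1) (p (nat_lit 0x41) (nat_lit 1) (p (nat_lit 0x8a0b0a89889a) (nat_lit 0) (p (nat_lit 0x98a8a09081a) (nat_lit 0) (p (nat_lit 0x89080988879a) (nat_lit 0) (p (nat_lit 0x8878908071a) (nat_lit 0) (p (nat_lit 0x80000800080887868a) (nat_lit 0) (p (nat_lit 0x8888070602) (nat_lit 0) (p (nat_lit 0x807868582) (nat_lit 0) (p (nat_lit 0x8587060502) (nat_lit 0) (p (nat_lit 0x506858482) (nat_lit 0) (p (nat_lit 0x160014) (nat_lit 0) (p (nat_lit 0x68612)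 (nat_lit 0) (p (nat_lit 0x50592) (nat_lit 0) (p (nat_lit 0x38512) (nat_lit 0) (p (nat_lit 0x50392) (nat_lit 0) (p (nat_lit 0x38312) (nat_lit 0) (p (nat_lit 0x20292) (nat_lit 0) (p (nat_lit 0x38112) (nat_lit 0) (p (nat_lit 0x20092) (nat_lit 0) (p (nat_lit 0x8012) (nat_lit 0) pn)))))))))))))))))))))))) :=
  Cl.node (nat_lit 0xd1) (nat_lit 2) (by decide +kernel) (ClAll.succ (ClAll.succ ClAll.zero s124) n94)

def n115 : Cl (O (nat_lit 3)) (R (nat_lit 14465))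
    (p (nat_lit 0xc9) (nat_lit 1) (p (nat_lit 0x119) (nat_lit 1) (p (nat_lit 0xc1) (nat_lit 0) (p (nat_lit 0x81) (nat_lit 1) (p (nat_lit 0x41) (nat_lit 1) (p (nat_lit 0x8a0b0a89889a) (nat_lit 0) (p (nat_lit 0x98a8a09081a) (nat_lit 0) (p (nat_lit 0x89080988879a) (nat_lit 0) (p (nat_lit 0x8878908071a) (nat_lit 0) (p (nat_lit 0x80000800080887868a) (nat_lit 0) (p (nat_lit 0x8888070602) (nat_lit 0) (p (nat_lit 0x807868582) (nat_lit 0) (p (nat_lit 0x8587060502) (nat_lit 0) (p (nat_lit 0x506858482) (nat_lit 0) (p (nat_lit 0x160014) (nat_lit 0) (p (nat_lit 0x68612) (nat_lit 0) (p (nat_lit 0x50592) (nat_lit 0) (p (nat_lit 0x38512) (nat_lit 0) (p (nat_lit 0x50392) (nat_lit 0) (p (nat_lit 0x38312) (nat_lit 0) (p (nat_lit 0x20292) (nat_lit 0) (p (nat_lit 0x38112) (nat_lit 0) (p (nat_lit 0x20092) (nat_lit 0) (p (nat_lit 0x8012) (nat_lit 0) pn)))))))))))))))))))))))) :=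
  Cl.node (nat_lit 0x109) (nat_lit 2) (by decide +kernel) (ClAll.succ (ClAll.succ ClAll.zero n95) n96)

def n116 : Cl (O (nat_lit 3)) (R (nat_lit 14465))
    (p (nat_lit 0x109) (nat_lit 0) (p (nat_lit 0x101) (nat_lit 0) (p (nat_lit 0xc1) (nat_lit 1) (p (nat_lit 0x81) (nat_lit 1) (p (nat_lit 0x41) (nat_lit 1) (p (nat_lit 0x8a0b0a89889a) (nat_lit 0) (p (nat_lit 0x98a8a09081a) (nat_lit 0) (p (nat_lit 0x89080988879a) (nat_lit 0) (p (nat_lit 0x8878908071a) (nat_lit 0) (p (nat_lit 0x80000800080887868a) (nat_lit 0) (p (nat_lit 0x8888070602) (nat_lit 0) (p (nat_lit 0x807868582) (nat_lit 0) (p (nat_lit 0x8587060502) (nat_lit 0) (p (nat_lit 0x506858482) (nat_lit 0) (p (nat_lit 0x160014) (nat_lit 0) (p (nat_lit 0x68612) (nat_lit 0) (p (nat_lit 0x50592) (nat_lit 0) (p (nat_lit 0x38512) (nat_lit 0) (p (nat_lit 0x50392) (nat_lit 0) (p (nat_lit 0x38312) (nat_lit 0) (p (nat_lit 0x20292)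 (nat_lit 0) (p (nat_lit 0x38112) (nat_lit 0) (p (nat_lit 0x20092) (nat_lit 0) (p (nat_lit 0x8012) (nat_lit 0) pn)))))))))))))))))))))))) :=
  Cl.node (nat_lit 0x111) (nat_lit 2) (by decide +kernel) (ClAll.succ (ClAll.succ ClAll.zero s140) s141)

def n117 : Cl (O (nat_lit 3)) (R (nat_lit 14465))
    (p (nat_lit 0x119) (nat_lit 0) (p (nat_lit 0xd1) (nat_lit 0) (p (nat_lit 0x89) (nat_lit 0) (p (nat_lit 0x41) (nat_lit 0) (p (nat_lit 0x8a0b0a89889a) (nat_lit 0) (p (nat_lit 0x98a8a09081a) (nat_lit 0) (p (nat_lit 0x89080988879a) (nat_lit 0) (p (nat_lit 0x8878908071a) (nat_lit 0) (p (nat_lit 0x80000800080887868a) (nat_lit 0) (p (nat_lit 0x8888070602) (nat_lit 0) (p (nat_lit 0x807868582) (nat_lit 0) (p (nat_lit 0x8587060502) (nat_lit 0) (p (nat_lit 0x506858482) (nat_lit 0) (p (nat_lit 0x160014) (nat_lit 0) (p (nat_lit 0x68612) (nat_lit 0) (p (nat_lit 0x50592) (nat_lit 0) (p (nat_lit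 0x38512) (nat_lit 0) (p (nat_lit 0x50392) (nat_lit 0) (p (nat_lit 0x38312) (nat_lit 0) (p (nat_lit 0x20292) (nat_lit 0) (p (nat_lit 0x38112) (nat_lit 0) (p (nat_lit 0x20092) (nat_lit 0) (p (nat_lit 0x8012) (nat_lit 0) pn))))))))))))))))))))))) :=
  Cl.node (nat_lit 0x101) (nat_lit 2) (by decide +kernel) (ClAll.succ (ClAll.succ ClAll.zero n97) n98)

def n118 : Cl (O (nat_lit 3)) (R (nat_lit 14465))
    (p (nat_lit 0x119) (nat_lit 1) (p (nat_lit 0xd1) (nat_lit 0) (p (nat_lit 0x89) (nat_lit 0) (p (nat_lit 0x41) (nat_lit 0) (p (nat_lit 0x8a0b0a89889a) (nat_lit 0) (p (nat_lit 0x98a8a09081a) (nat_lit 0) (p (nat_lit 0x89080988879a) (nat_lit 0) (p (nat_lit 0x8878908071a) (nat_lit 0) (p (nat_lit 0x80000800080887868a) (nat_lit 0) (p (nat_lit 0x8888070602) (nat_lit 0) (p (nat_lit 0x807868582) (nat_lit 0) (p (nat_lit 0x8587060502) (nat_lit 0) (p (nat_lit 0x506858482) (nat_lit 0) (p (nat_lit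 0x160014) (nat_lit 0) (p (nat_lit 0x68612) (nat_lit 0) (p (nat_lit 0x50592) (nat_lit 0) (p (nat_lit 0x38512) (nat_lit 0) (p (nat_lit 0x50392) (nat_lit 0) (p (nat_lit 0x38312) (nat_lit 0) (p (nat_lit 0x20292) (nat_lit 0) (p (nat_lit 0x38112) (nat_lit 0) (p (nat_lit 0x20092) (nat_lit 0) (p (nat_lit 0x8012) (nat_lit 0) pn))))))))))))))))))))))) :=
  Cl.node (nat_lit 0xc1) (nat_lit 2) (by decide +kernel) (ClAll.succ (ClAll.succ ClAll.zero n99) n100)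

def n119 : Cl (O (nat_lit 3)) (R (nat_lit 14465))
    (p (nat_lit 0x111) (nat_lit 0) (p (nat_lit 0xd1) (nat_lit 1) (p (nat_lit 0x89) (nat_lit 0) (p (nat_lit 0x41) (nat_lit 0) (p (nat_lit 0x8a0b0a89889a) (nat_lit 0) (p (nat_lit 0x98a8a09081a) (nat_lit 0) (p (nat_lit 0x89080988879a) (nat_lit 0) (p (nat_lit 0x8878908071a) (nat_lit 0) (p (nat_lit 0x80000800080887868a) (nat_lit 0) (p (nat_lit 0x8888070602) (nat_lit 0) (p (nat_lit 0x807868582) (nat_lit 0) (p (nat_lit 0x8587060502) (nat_lit 0) (p (nat_lit 0x506858482) (nat_lit 0) (p (nat_lit 0x160014) (nat_lit 0) (p (nat_lit 0x68612) (nat_lit 0) (p (nat_lit 0x50592) (nat_lit 0) (p (nat_lit 0x38512) (nat_lit 0) (p (nat_lit 0x50392) (nat_lit 0) (p (nat_lit 0x38312) (nat_lit 0) (p (nat_lit 0x20292) (nat_lit 0) (p (nat_lit 0x38112) (nat_lit 0) (p (nat_lit 0x20092) (nat_lit 0) (p (nat_lit 0x8012) (nat_lit 0) pn)))))))))))))))))))))))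 :=
  Cl.node (nat_lit 0x101) (nat_lit 2) (by decide +kernel) (ClAll.succ (ClAll.succ ClAll.zero n101) n102)

def n120 : Cl (O (nat_lit 3)) (R (nat_lit 14465))
    (p (nat_lit 0x119) (nat_lit 0) (p (nat_lit 0xc9) (nat_lit 0) (p (nat_lit 0x89) (nat_lit 1) (p (nat_lit 0x41) (nat_lit 0) (p (nat_lit 0x8a0b0a89889a) (nat_lit 0) (p (nat_lit 0x98a8a09081a) (nat_lit 0) (p (nat_lit 0x89080988879a) (nat_lit 0) (p (nat_lit 0x8878908071a) (nat_lit 0) (p (nat_lit 0x80000800080887868a) (nat_lit 0) (p (nat_lit 0x8888070602) (nat_lit 0) (p (nat_lit 0x807868582) (nat_lit 0) (p (nat_lit 0x8587060502) (nat_lit 0) (p (nat_lit 0x506858482) (nat_lit 0) (p (nat_lit 0x160014) (nat_lit 0) (p (nat_lit 0x68612) (nat_lit 0) (p (nat_lit 0x50592) (nat_lit 0) (p (nat_lit 0x38512) (nat_lit 0) (p (nat_lit 0x50392) (nat_lit 0) (p (nat_lit 0x38312) (nat_lit 0) (p (nat_lit 0x20292) (nat_lit 0) (p (nat_lit 0x38112)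 (nat_lit 0) (p (nat_lit 0x20092) (nat_lit 0) (p (nat_lit 0x8012) (nat_lit 0) pn))))))))))))))))))))))) :=
  Cl.node (nat_lit 0x101) (nat_lit 2) (by decide +kernel) (ClAll.succ (ClAll.succ ClAll.zero n103) n104)

def n121 : Cl (O (nat_lit 3)) (R (nat_lit 14465))
    (p (nat_lit 0x119) (nat_lit 1) (p (nat_lit 0xc9) (nat_lit 0) (p (nat_lit 0x89) (nat_lit 1) (p (nat_lit 0x41) (nat_lit 0) (p (nat_lit 0x8a0b0a89889a) (nat_lit 0) (p (nat_lit 0x98a8a09081a) (nat_lit 0) (p (nat_lit 0x89080988879a) (nat_lit 0) (p (nat_lit 0x8878908071a) (nat_lit 0) (p (nat_lit 0x80000800080887868a) (nat_lit 0) (p (nat_lit 0x8888070602) (nat_lit 0) (p (nat_lit 0x807868582) (nat_lit 0) (p (nat_lit 0x8587060502) (nat_lit 0) (p (nat_lit 0x506858482) (nat_lit 0) (p (nat_lit 0x160014) (nat_lit 0) (p (nat_lit 0x68612) (nat_lit 0) (p (nat_lit 0x50592) (nat_lit 0) (p (nat_lit 0x38512) (nat_lit 0) (p (nat_lit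 0x50392) (nat_lit 0) (p (nat_lit 0x38312) (nat_lit 0) (p (nat_lit 0x20292) (nat_lit 0) (p (nat_lit 0x38112) (nat_lit 0) (p (nat_lit 0x20092) (nat_lit 0) (p (nat_lit 0x8012) (nat_lit 0) pn))))))))))))))))))))))) :=
  Cl.node (nat_lit 0xc1) (nat_lit 2) (by decide +kernel) (ClAll.succ (ClAll.succ ClAll.zero s39) n105)

def n122 : Cl (O (nat_lit 3)) (R (nat_lit 14465))
    (p (nat_lit 0x119) (nat_lit 0) (p (nat_lit 0xd1) (nat_lit 0) (p (nat_lit 0x81) (nat_lit 0) (p (nat_lit 0x41) (nat_lit 1) (p (nat_lit 0x8a0b0a89889a) (nat_lit 0) (p (nat_lit 0x98a8a09081a) (nat_lit 0) (p (nat_lit 0x89080988879a) (nat_lit 0) (p (nat_lit 0x8878908071a) (nat_lit 0) (p (nat_lit 0x80000800080887868a) (nat_lit 0) (p (nat_lit 0x8888070602) (nat_lit 0) (p (nat_lit 0x807868582) (nat_lit 0) (p (nat_lit 0x8587060502) (nat_lit 0) (p (nat_lit 0x506858482) (nat_lit 0) (p (nat_lit 0x160014) (nat_lit 0) (p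 (nat_lit 0x68612) (nat_lit 0) (p (nat_lit 0x50592) (nat_lit 0) (p (nat_lit 0x38512) (nat_lit 0) (p (nat_lit 0x50392) (nat_lit 0) (p (nat_lit 0x38312) (nat_lit 0) (p (nat_lit 0x20292) (nat_lit 0) (p (nat_lit 0x38112) (nat_lit 0) (p (nat_lit 0x20092) (nat_lit 0) (p (nat_lit 0x8012) (nat_lit 0) pn))))))))))))))))))))))) :=
  Cl.node (nat_lit 0x101) (nat_lit 2) (by decide +kernel) (ClAll.succ (ClAll.succ ClAll.zero n106) n107)

def n123 : Cl (O (nat_lit 3)) (R (nat_lit 14465))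
    (p (nat_lit 0x119) (nat_lit 1) (p (nat_lit 0xd1) (nat_lit 0) (p (nat_lit 0x81) (nat_lit 0) (p (nat_lit 0x41) (nat_lit 1) (p (nat_lit 0x8a0b0a89889a) (nat_lit 0) (p (nat_lit 0x98a8a09081a) (nat_lit 0) (p (nat_lit 0x89080988879a) (nat_lit 0) (p (nat_lit 0x8878908071a) (nat_lit 0) (p (nat_lit 0x80000800080887868a) (nat_lit 0) (p (nat_lit 0x8888070602) (nat_lit 0) (p (nat_lit 0x807868582) (nat_lit 0) (p (nat_lit 0x8587060502) (nat_lit 0) (p (nat_lit 0x506858482) (nat_lit 0) (p (nat_lit 0x160014) (nat_lit 0) (p (nat_lit 0x68612) (nat_lit 0) (p (nat_lit 0x50592) (nat_lit 0) (p (nat_lit 0x38512) (nat_lit 0) (p (nat_lit 0x50392) (nat_lit 0) (p (nat_lit 0x38312) (nat_lit 0) (p (nat_lit 0x20292) (nat_lit 0) (p (nat_lit 0x38112) (nat_lit 0) (p (nat_lit 0x20092) (nat_lit 0) (p (nat_lit 0x8012) (nat_lit 0) pn))))))))))))))))))))))) :=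
  Cl.node (nat_lit 0xc1) (nat_lit 2) (by decide +kernel) (ClAll.succ (ClAll.succ ClAll.zero n108) n109)

def n124 : Cl (O (nat_lit 3)) (R (nat_lit 14465))
    (p (nat_lit 0x111) (nat_lit 0) (p (nat_lit 0xd1) (nat_lit 1) (p (nat_lit 0x81) (nat_lit 0) (p (nat_lit 0x41) (nat_lit 1) (p (nat_lit 0x8a0b0a89889a) (nat_lit 0) (p (nat_lit 0x98a8a09081a) (nat_lit 0) (p (nat_lit 0x89080988879a) (nat_lit 0) (p (nat_lit 0x8878908071a) (nat_lit 0) (p (nat_lit 0x80000800080887868a) (nat_lit 0) (p (nat_lit 0x8888070602) (nat_lit 0) (p (nat_lit 0x807868582) (nat_lit 0) (p (nat_lit 0x8587060502) (nat_lit 0) (p (nat_lit 0x506858482) (nat_lit 0) (p (nat_lit 0x160014) (nat_lit 0) (p (nat_lit 0x68612) (nat_lit 0) (p (nat_lit 0x50592) (nat_lit 0) (p (nat_lit 0x38512) (nat_lit 0) (p (nat_lit 0x50392) (nat_lit 0) (p (nat_lit 0x38312) (nat_lit 0) (p (nat_lit 0x20292) (nat_lit 0) (p (nat_lit 0x38112)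 (nat_lit 0) (p (nat_lit 0x20092) (nat_lit 0) (p (nat_lit 0x8012) (nat_lit 0) pn))))))))))))))))))))))) :=
  Cl.node (nat_lit 0x101) (nat_lit 2) (by decide +kernel) (ClAll.succ (ClAll.succ ClAll.zero n110) n111)

def n125 : Cl (O (nat_lit 3)) (R (nat_lit 14465))
    (p (nat_lit 0x111) (nat_lit 1) (p (nat_lit 0xd1) (nat_lit 1) (p (nat_lit 0x81) (nat_lit 0) (p (nat_lit 0x41) (nat_lit 1) (p (nat_lit 0x8a0b0a89889a) (nat_lit 0) (p (nat_lit 0x98a8a09081a) (nat_lit 0) (p (nat_lit 0x89080988879a) (nat_lit 0) (p (nat_lit 0x8878908071a) (nat_lit 0) (p (nat_lit 0x80000800080887868a) (nat_lit 0) (p (nat_lit 0x8888070602) (nat_lit 0) (p (nat_lit 0x807868582) (nat_lit 0) (p (nat_lit 0x8587060502) (nat_lit 0) (p (nat_lit 0x506858482) (nat_lit 0) (p (nat_lit 0x160014) (nat_lit 0) (p (nat_lit 0x68612) (nat_lit 0) (p (nat_lit 0x50592) (nat_lit 0) (p (nat_lit 0x38512) (nat_lit 0) (p (nat_lit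 0x50392) (nat_lit 0) (p (nat_lit 0x38312) (nat_lit 0) (p (nat_lit 0x20292) (nat_lit 0) (p (nat_lit 0x38112) (nat_lit 0) (p (nat_lit 0x20092) (nat_lit 0) (p (nat_lit 0x8012) (nat_lit 0) pn))))))))))))))))))))))) :=
  Cl.node (nat_lit 0x89) (nat_lit 2) (by decide +kernel) (ClAll.succ (ClAll.succ ClAll.zero s107) s108)

def n126 : Cl (O (nat_lit 3)) (R (nat_lit 14465))
    (p (nat_lit 0x119) (nat_lit 0) (p (nat_lit 0xc1) (nat_lit 0) (p (nat_lit 0x81) (nat_lit 1) (p (nat_lit 0x41) (nat_lit 1) (p (nat_lit 0x8a0b0a89889a) (nat_lit 0) (p (nat_lit 0x98a8a09081a) (nat_lit 0) (p (nat_lit 0x89080988879a) (nat_lit 0) (p (nat_lit 0x8878908071a) (nat_lit 0) (p (nat_lit 0x80000800080887868a) (nat_lit 0) (p (nat_lit 0x8888070602) (nat_lit 0) (p (nat_lit 0x807868582) (nat_lit 0) (p (nat_lit 0x8587060502) (nat_lit 0) (p (nat_lit 0x506858482) (nat_lit 0) (p (nat_lit 0x160014) (nat_lit 0) (p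 (nat_lit 0x68612) (nat_lit 0) (p (nat_lit 0x50592) (nat_lit 0) (p (nat_lit 0x38512) (nat_lit 0) (p (nat_lit 0x50392) (nat_lit 0) (p (nat_lit 0x38312) (nat_lit 0) (p (nat_lit 0x20292) (nat_lit 0) (p (nat_lit 0x38112) (nat_lit 0) (p (nat_lit 0x20092) (nat_lit 0) (p (nat_lit 0x8012) (nat_lit 0) pn))))))))))))))))))))))) :=
  Cl.node (nat_lit 0x101) (nat_lit 2) (by decide +kernel) (ClAll.succ (ClAll.succ ClAll.zero n112) n113)

def n127 : Cl (O (nat_lit 3)) (R (nat_lit 14465))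
    (p (nat_lit 0x119) (nat_lit 1) (p (nat_lit 0xc1) (nat_lit 0) (p (nat_lit 0x81) (nat_lit 1) (p (nat_lit 0x41) (nat_lit 1) (p (nat_lit 0x8a0b0a89889a) (nat_lit 0) (p (nat_lit 0x98a8a09081a) (nat_lit 0) (p (nat_lit 0x89080988879a) (nat_lit 0) (p (nat_lit 0x8878908071a) (nat_lit 0) (p (nat_lit 0x80000800080887868a) (nat_lit 0) (p (nat_lit 0x8888070602) (nat_lit 0) (p (nat_lit 0x807868582) (nat_lit 0) (p (nat_lit 0x8587060502) (nat_lit 0) (p (nat_lit 0x506858482) (nat_lit 0) (p (nat_lit 0x160014) (nat_lit 0) (p (nat_lit 0x68612) (nat_lit 0) (p (nat_lit 0x50592) (nat_lit 0) (p (nat_lit 0x38512) (nat_lit 0) (p (nat_lit 0x50392) (nat_lit 0) (p (nat_lit 0x38312) (nat_lit 0) (p (nat_lit 0x20292) (nat_lit 0) (p (nat_lit 0x38112) (nat_lit 0) (p (nat_lit 0x20092) (nat_lit 0) (p (nat_lit 0x8012) (nat_lit 0) pn))))))))))))))))))))))) :=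
  Cl.node (nat_lit 0xc9) (nat_lit 2) (by decide +kernel) (ClAll.succ (ClAll.succ ClAll.zero n114) n115)

def n128 : Cl (O (nat_lit 3)) (R (nat_lit 14465))
    (p (nat_lit 0x101) (nat_lit 0) (p (nat_lit 0xc1) (nat_lit 1) (p (nat_lit 0x81) (nat_lit 1) (p (nat_lit 0x41) (nat_lit 1) (p (nat_lit 0x8a0b0a89889a) (nat_lit 0) (p (nat_lit 0x98a8a09081a) (nat_lit 0) (p (nat_lit 0x89080988879a) (nat_lit 0) (p (nat_lit 0x8878908071a) (nat_lit 0) (p (nat_lit 0x80000800080887868a) (nat_lit 0) (p (nat_lit 0x8888070602) (nat_lit 0) (p (nat_lit 0x807868582) (nat_lit 0) (p (nat_lit 0x8587060502) (nat_lit 0) (p (nat_lit 0x506858482) (nat_lit 0) (p (nat_lit 0x160014) (nat_lit 0) (p (nat_lit 0x68612) (nat_lit 0) (p (nat_lit 0x50592) (nat_lit 0) (p (nat_lit 0x38512) (nat_lit 0) (p (nat_lit 0x50392) (nat_lit 0) (p (nat_lit 0x38312) (nat_lit 0) (p (nat_lit 0x20292) (nat_lit 0) (p (nat_lit 0x38112)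 (nat_lit 0) (p (nat_lit 0x20092) (nat_lit 0) (p (nat_lit 0x8012) (nat_lit 0) pn))))))))))))))))))))))) :=
  Cl.node (nat_lit 0x109) (nat_lit 2) (by decide +kernel) (ClAll.succ (ClAll.succ ClAll.zero n116) s142)

def n129 : Cl (O (nat_lit 3)) (R (nat_lit 14465))
    (p (nat_lit 0xd1) (nat_lit 0) (p (nat_lit 0x89) (nat_lit 0) (p (nat_lit 0x41) (nat_lit 0) (p (nat_lit 0x8a0b0a89889a) (nat_lit 0) (p (nat_lit 0x98a8a09081a) (nat_lit 0) (p (nat_lit 0x89080988879a) (nat_lit 0) (p (nat_lit 0x8878908071a) (nat_lit 0) (p (nat_lit 0x80000800080887868a) (nat_lit 0) (p (nat_lit 0x8888070602) (nat_lit 0) (p (nat_lit 0x807868582) (nat_lit 0) (p (nat_lit 0x8587060502) (nat_lit 0) (p (nat_lit 0x506858482) (nat_lit 0) (p (nat_lit 0x160014) (nat_lit 0) (p (nat_lit 0x68612) (nat_lit 0) (p (nat_lit 0x50592) (nat_lit 0) (p (nat_lit 0x38512) (nat_lit 0) (p (nat_lit 0x50392) (nat_lit 0) (p (nat_lit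 0x38312) (nat_lit 0) (p (nat_lit 0x20292) (nat_lit 0) (p (nat_lit 0x38112) (nat_lit 0) (p (nat_lit 0x20092) (nat_lit 0) (p (nat_lit 0x8012) (nat_lit 0) pn)))))))))))))))))))))) :=
  Cl.node (nat_lit 0x119) (nat_lit 2) (by decide +kernel) (ClAll.succ (ClAll.succ ClAll.zero n117) n118)

def n130 : Cl (O (nat_lit 3)) (R (nat_lit 14465))
    (p (nat_lit 0xd1) (nat_lit 1) (p (nat_lit 0x89) (nat_lit 0) (p (nat_lit 0x41) (nat_lit 0) (p (nat_lit 0x8a0b0a89889a) (nat_lit 0) (p (nat_lit 0x98a8a09081a) (nat_lit 0) (p (nat_lit 0x89080988879a) (nat_lit 0) (p (nat_lit 0x8878908071a) (nat_lit 0) (p (nat_lit 0x80000800080887868a) (nat_lit 0) (p (nat_lit 0x8888070602) (nat_lit 0) (p (nat_lit 0x807868582) (nat_lit 0) (p (nat_lit 0x8587060502) (nat_lit 0) (p (nat_lit 0x506858482) (nat_lit 0) (p (nat_lit 0x160014) (nat_lit 0) (p (nat_lit 0x68612) (nat_lit 0) (p (nat_lit 0x50592) (nat_lit 0)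 (p (nat_lit 0x38512) (nat_lit 0) (p (nat_lit 0x50392) (nat_lit 0) (p (nat_lit 0x38312) (nat_lit 0) (p (nat_lit 0x20292) (nat_lit 0) (p (nat_lit 0x38112) (nat_lit 0) (p (nat_lit 0x20092) (nat_lit 0) (p (nat_lit 0x8012) (nat_lit 0) pn)))))))))))))))))))))) :=
  Cl.node (nat_lit 0x111) (nat_lit 2) (by decide +kernel) (ClAll.succ (ClAll.succ ClAll.zero n119) s30)

def n131 : Cl (O (nat_lit 3)) (R (nat_lit 14465))
    (p (nat_lit 0xc9) (nat_lit 0) (p (nat_lit 0x89) (nat_lit 1) (p (nat_lit 0x41) (nat_lit 0) (p (nat_lit 0x8a0b0a89889a) (nat_lit 0) (p (nat_lit 0x98a8a09081a) (nat_lit 0) (p (nat_lit 0x89080988879a) (nat_lit 0) (p (nat_lit 0x8878908071a) (nat_lit 0) (p (nat_lit 0x80000800080887868a) (nat_lit 0) (p (nat_lit 0x8888070602) (nat_lit 0) (p (nat_lit 0x807868582) (nat_lit 0) (p (nat_lit 0x8587060502) (nat_lit 0) (p (nat_lit 0x506858482) (nat_lit 0) (p (nat_lit 0x160014) (nat_lit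 0) (p (nat_lit 0x68612) (nat_lit 0) (p (nat_lit 0x50592) (nat_lit 0) (p (nat_lit 0x38512) (nat_lit 0) (p (nat_lit 0x50392) (nat_lit 0) (p (nat_lit 0x38312) (nat_lit 0) (p (nat_lit 0x20292) (nat_lit 0) (p (nat_lit 0x38112) (nat_lit 0) (p (nat_lit 0x20092) (nat_lit 0) (p (nat_lit 0x8012) (nat_lit 0) pn)))))))))))))))))))))) :=
  Cl.node (nat_lit 0x119) (nat_lit 2) (by decide +kernel) (ClAll.succ (ClAll.succ ClAll.zero n120) n121)

def n132 : Cl (O (nat_lit 3)) (R (nat_lit 14465))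
    (p (nat_lit 0xd1) (nat_lit 0) (p (nat_lit 0x81) (nat_lit 0) (p (nat_lit 0x41) (nat_lit 1) (p (nat_lit 0x8a0b0a89889a) (nat_lit 0) (p (nat_lit 0x98a8a09081a) (nat_lit 0) (p (nat_lit 0x89080988879a) (nat_lit 0) (p (nat_lit 0x8878908071a) (nat_lit 0) (p (nat_lit 0x80000800080887868a) (nat_lit 0) (p (nat_lit 0x8888070602) (nat_lit 0) (p (nat_lit 0x807868582) (nat_lit 0) (p (nat_lit 0x8587060502) (nat_lit 0) (p (nat_lit 0x506858482) (nat_lit 0) (p (nat_lit 0x160014) (nat_lit 0) (p (nat_lit 0x68612) (nat_lit 0) (p (nat_lit 0x50592) (nat_lit 0) (p (nat_lit 0x38512) (nat_lit 0) (p (nat_lit 0x50392) (nat_lit 0) (p (nat_lit 0x38312) (nat_lit 0) (p (nat_lit 0x20292) (nat_lit 0) (p (nat_lit 0x38112) (nat_lit 0) (p (nat_lit 0x20092) (nat_lit 0) (p (nat_lit 0x8012) (nat_lit 0) pn)))))))))))))))))))))) :=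
  Cl.node (nat_lit 0x119) (nat_lit 2) (by decide +kernel) (ClAll.succ (ClAll.succ ClAll.zero n122) n123)

def n133 : Cl (O (nat_lit 3)) (R (nat_lit 14465))
    (p (nat_lit 0xd1) (nat_lit 1) (p (nat_lit 0x81) (nat_lit 0) (p (nat_lit 0x41) (nat_lit 1) (p (nat_lit 0x8a0b0a89889a) (nat_lit 0) (p (nat_lit 0x98a8a09081a) (nat_lit 0) (p (nat_lit 0x89080988879a) (nat_lit 0) (p (nat_lit 0x8878908071a) (nat_lit 0) (p (nat_lit 0x80000800080887868a) (nat_lit 0) (p (nat_lit 0x8888070602) (nat_lit 0) (p (nat_lit 0x807868582) (nat_lit 0) (p (nat_lit 0x8587060502) (nat_lit 0) (p (nat_lit 0x506858482) (nat_lit 0) (p (nat_lit 0x160014) (nat_lit 0) (p (nat_lit 0x68612) (nat_lit 0) (p (nat_lit 0x50592) (nat_lit 0) (p (nat_lit 0x38512) (nat_lit 0) (p (nat_lit 0x50392) (nat_lit 0) (p (nat_lit 0x38312) (nat_lit 0) (p (nat_lit 0x20292) (nat_lit 0) (p (nat_lit 0x38112) (nat_lit 0) (p (nat_lit 0x20092)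 (nat_lit 0) (p (nat_lit 0x8012) (nat_lit 0) pn)))))))))))))))))))))) :=
  Cl.node (nat_lit 0x111) (nat_lit 2) (by decide +kernel) (ClAll.succ (ClAll.succ ClAll.zero n124) n125)

def n134 : Cl (O (nat_lit 3)) (R (nat_lit 14465))
    (p (nat_lit 0xc1) (nat_lit 0) (p (nat_lit 0x81) (nat_lit 1) (p (nat_lit 0x41) (nat_lit 1) (p (nat_lit 0x8a0b0a89889a) (nat_lit 0) (p (nat_lit 0x98a8a09081a) (nat_lit 0) (p (nat_lit 0x89080988879a) (nat_lit 0) (p (nat_lit 0x8878908071a) (nat_lit 0) (p (nat_lit 0x80000800080887868a) (nat_lit 0) (p (nat_lit 0x8888070602) (nat_lit 0) (p (nat_lit 0x807868582) (nat_lit 0) (p (nat_lit 0x8587060502) (nat_lit 0) (p (nat_lit 0x506858482) (nat_lit 0) (p (nat_lit 0x160014) (nat_lit 0) (p (nat_lit 0x68612) (nat_lit 0) (p (nat_lit 0x50592) (nat_lit 0) (p (nat_lit 0x38512) (nat_lit 0) (p (nat_lit 0x50392) (nat_lit 0) (p (nat_lit 0x38312) (nat_lit 0) (p (nat_lit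 0x20292) (nat_lit 0) (p (nat_lit 0x38112) (nat_lit 0) (p (nat_lit 0x20092) (nat_lit 0) (p (nat_lit 0x8012) (nat_lit 0) pn)))))))))))))))))))))) :=
  Cl.node (nat_lit 0x119) (nat_lit 2) (by decide +kernel) (ClAll.succ (ClAll.succ ClAll.zero n126) n127)

def n135 : Cl (O (nat_lit 3)) (R (nat_lit 14465))
    (p (nat_lit 0xc1) (nat_lit 1) (p (nat_lit 0x81) (nat_lit 1) (p (nat_lit 0x41) (nat_lit 1) (p (nat_lit 0x8a0b0a89889a) (nat_lit 0) (p (nat_lit 0x98a8a09081a) (nat_lit 0) (p (nat_lit 0x89080988879a) (nat_lit 0) (p (nat_lit 0x8878908071a) (nat_lit 0) (p (nat_lit 0x80000800080887868a) (nat_lit 0) (p (nat_lit 0x8888070602) (nat_lit 0) (p (nat_lit 0x807868582) (nat_lit 0) (p (nat_lit 0x8587060502) (nat_lit 0) (p (nat_lit 0x506858482) (nat_lit 0) (p (nat_lit 0x160014) (nat_lit 0) (p (nat_lit 0x68612) (nat_lit 0) (p (nat_lit 0x50592) (nat_lit 0) (p (nat_lit 0x38512) (nat_lit 0)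 (p (nat_lit 0x50392) (nat_lit 0) (p (nat_lit 0x38312) (nat_lit 0) (p (nat_lit 0x20292) (nat_lit 0) (p (nat_lit 0x38112) (nat_lit 0) (p (nat_lit 0x20092) (nat_lit 0) (p (nat_lit 0x8012) (nat_lit 0) pn)))))))))))))))))))))) :=
  Cl.node (nat_lit 0x101) (nat_lit 2) (by decide +kernel) (ClAll.succ (ClAll.succ ClAll.zero n128) s143)

def n136 : Cl (O (nat_lit 3)) (R (nat_lit 14465))
    (p (nat_lit 0x89) (nat_lit 0) (p (nat_lit 0x41) (nat_lit 0) (p (nat_lit 0x8a0b0a89889a) (nat_lit 0) (p (nat_lit 0x98a8a09081a) (nat_lit 0) (p (nat_lit 0x89080988879a) (nat_lit 0) (p (nat_lit 0x8878908071a) (nat_lit 0) (p (nat_lit 0x80000800080887868a) (nat_lit 0) (p (nat_lit 0x8888070602) (nat_lit 0) (p (nat_lit 0x807868582) (nat_lit 0) (p (nat_lit 0x8587060502) (nat_lit 0) (p (nat_lit 0x506858482) (nat_lit 0) (p (nat_lit 0x160014) (nat_lit 0) (p (nat_lit 0x68612) (nat_lit 0) (p (nat_lit 0x50592)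 (nat_lit 0) (p (nat_lit 0x38512) (nat_lit 0) (p (nat_lit 0x50392) (nat_lit 0) (p (nat_lit 0x38312) (nat_lit 0) (p (nat_lit 0x20292) (nat_lit 0) (p (nat_lit 0x38112) (nat_lit 0) (p (nat_lit 0x20092) (nat_lit 0) (p (nat_lit 0x8012) (nat_lit 0) pn))))))))))))))))))))) :=
  Cl.node (nat_lit 0xd1) (nat_lit 2) (by decide +kernel) (ClAll.succ (ClAll.succ ClAll.zero n129) n130)

def n137 : Cl (O (nat_lit 3)) (R (nat_lit 14465))
    (p (nat_lit 0x89) (nat_lit 1) (p (nat_lit 0x41) (nat_lit 0) (p (nat_lit 0x8a0b0a89889a) (nat_lit 0) (p (nat_lit 0x98a8a09081a) (nat_lit 0) (p (nat_lit 0x89080988879a) (nat_lit 0) (p (nat_lit 0x8878908071a) (nat_lit 0) (p (nat_lit 0x80000800080887868a) (nat_lit 0) (p (nat_lit 0x8888070602) (nat_lit 0) (p (nat_lit 0x807868582) (nat_lit 0) (p (nat_lit 0x8587060502) (nat_lit 0) (p (nat_lit 0x506858482) (nat_lit 0) (p (nat_lit 0x160014) (nat_lit 0) (p (nat_lit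 0x68612) (nat_lit 0) (p (nat_lit 0x50592) (nat_lit 0) (p (nat_lit 0x38512) (nat_lit 0) (p (nat_lit 0x50392) (nat_lit 0) (p (nat_lit 0x38312) (nat_lit 0) (p (nat_lit 0x20292) (nat_lit 0) (p (nat_lit 0x38112) (nat_lit 0) (p (nat_lit 0x20092) (nat_lit 0) (p (nat_lit 0x8012) (nat_lit 0) pn))))))))))))))))))))) :=
  Cl.node (nat_lit 0xc9) (nat_lit 2) (by decide +kernel) (ClAll.succ (ClAll.succ ClAll.zero n131) s50)

def n138 : Cl (O (nat_lit 3)) (R (nat_lit 14465))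
    (p (nat_lit 0x81) (nat_lit 0) (p (nat_lit 0x41) (nat_lit 1) (p (nat_lit 0x8a0b0a89889a) (nat_lit 0) (p (nat_lit 0x98a8a09081a) (nat_lit 0) (p (nat_lit 0x89080988879a) (nat_lit 0) (p (nat_lit 0x8878908071a) (nat_lit 0) (p (nat_lit 0x80000800080887868a) (nat_lit 0) (p (nat_lit 0x8888070602) (nat_lit 0) (p (nat_lit 0x807868582) (nat_lit 0) (p (nat_lit 0x8587060502) (nat_lit 0) (p (nat_lit 0x506858482) (nat_lit 0) (p (nat_lit 0x160014) (nat_lit 0) (p (nat_lit 0x68612) (nat_lit 0) (p (nat_lit 0x50592) (nat_lit 0) (p (nat_lit 0x38512) (nat_lit 0) (p (nat_lit 0x50392) (nat_lit 0) (p (nat_lit 0x38312) (nat_lit 0) (p (nat_lit 0x20292) (nat_lit 0) (p (nat_lit 0x38112) (nat_lit 0) (p (nat_lit 0x20092) (nat_lit 0) (p (nat_lit 0x8012) (nat_lit 0) pn))))))))))))))))))))) :=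
  Cl.node (nat_lit 0xd1) (nat_lit 2) (by decide +kernel) (ClAll.succ (ClAll.succ ClAll.zero n132) n133)

def n139 : Cl (O (nat_lit 3)) (R (nat_lit 14465))
    (p (nat_lit 0x81) (nat_lit 1) (p (nat_lit 0x41) (nat_lit 1) (p (nat_lit 0x8a0b0a89889a) (nat_lit 0) (p (nat_lit 0x98a8a09081a) (nat_lit 0) (p (nat_lit 0x89080988879a) (nat_lit 0) (p (nat_lit 0x8878908071a) (nat_lit 0) (p (nat_lit 0x80000800080887868a) (nat_lit 0) (p (nat_lit 0x8888070602) (nat_lit 0) (p (nat_lit 0x807868582) (nat_lit 0) (p (nat_lit 0x8587060502) (nat_lit 0) (p (nat_lit 0x506858482) (nat_lit 0) (p (nat_lit 0x160014) (nat_lit 0) (p (nat_lit 0x68612) (nat_lit 0) (p (nat_lit 0x50592) (nat_lit 0) (p (nat_lit 0x38512) (nat_lit 0) (p (nat_lit 0x50392) (nat_lit 0) (p (nat_lit 0x38312) (nat_lit 0) (p (nat_lit 0x20292) (nat_lit 0) (p (nat_lit 0x38112) (nat_lit 0) (p (nat_lit 0x20092) (nat_lit 0) (p (nat_lit 0x8012)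 (nat_lit 0) pn))))))))))))))))))))) :=
  Cl.node (nat_lit 0xc1) (nat_lit 2) (by decide +kernel) (ClAll.succ (ClAll.succ ClAll.zero n134) n135)

def n140 : Cl (O (nat_lit 3)) (R (nat_lit 14465))
    (p (nat_lit 0x41) (nat_lit 0) (p (nat_lit 0x8a0b0a89889a) (nat_lit 0) (p (nat_lit 0x98a8a09081a) (nat_lit 0) (p (nat_lit 0x89080988879a) (nat_lit 0) (p (nat_lit 0x8878908071a) (nat_lit 0) (p (nat_lit 0x80000800080887868a) (nat_lit 0) (p (nat_lit 0x8888070602) (nat_lit 0) (p (nat_lit 0x807868582) (nat_lit 0) (p (nat_lit 0x8587060502) (nat_lit 0) (p (nat_lit 0x506858482) (nat_lit 0) (p (nat_lit 0x160014) (nat_lit 0) (p (nat_lit 0x68612) (nat_lit 0) (p (nat_lit 0x50592) (nat_lit 0) (p (nat_lit 0x38512) (nat_lit 0) (p (nat_lit 0x50392) (nat_lit 0) (p (nat_lit 0x38312) (nat_lit 0) (p (nat_lit 0x20292) (nat_lit 0) (p (nat_lit 0x38112) (nat_lit 0) (p (nat_lit 0x20092) (nat_lit 0) (p (nat_lit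 0x8012) (nat_lit 0) pn)))))))))))))))))))) :=
  Cl.node (nat_lit 0x89) (nat_lit 2) (by decide +kernel) (ClAll.succ (ClAll.succ ClAll.zero n136) n137)

def n141 : Cl (O (nat_lit 3)) (R (nat_lit 14465))
    (p (nat_lit 0x41) (nat_lit 1) (p (nat_lit 0x8a0b0a89889a) (nat_lit 0) (p (nat_lit 0x98a8a09081a) (nat_lit 0) (p (nat_lit 0x89080988879a) (nat_lit 0) (p (nat_lit 0x8878908071a) (nat_lit 0) (p (nat_lit 0x80000800080887868a) (nat_lit 0) (p (nat_lit 0x8888070602) (nat_lit 0) (p (nat_lit 0x807868582) (nat_lit 0) (p (nat_lit 0x8587060502) (nat_lit 0) (p (nat_lit 0x506858482) (nat_lit 0) (p (nat_lit 0x160014) (nat_lit 0) (p (nat_lit 0x68612) (nat_lit 0) (p (nat_lit 0x50592) (nat_lit 0) (p (nat_lit 0x38512) (nat_lit 0) (p (nat_lit 0x50392) (nat_lit 0) (p (nat_lit 0x38312) (nat_lit 0) (p (nat_lit 0x20292) (nat_lit 0) (p (nat_lit 0x38112) (nat_lit 0) (p (nat_lit 0x20092) (nat_lit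 0) (p (nat_lit 0x8012) (nat_lit 0) pn)))))))))))))))))))) :=
  Cl.node (nat_lit 0x81) (nat_lit 2) (by decide +kernel) (ClAll.succ (ClAll.succ ClAll.zero n138) n139)

def n142 : Cl (O (nat_lit 3)) (R (nat_lit 14465))
    (p (nat_lit 0x8a0b0a89889a) (nat_lit 0) (p (nat_lit 0x98a8a09081a) (nat_lit 0) (p (nat_lit 0x89080988879a) (nat_lit 0) (p (nat_lit 0x8878908071a) (nat_lit 0) (p (nat_lit 0x80000800080887868a) (nat_lit 0) (p (nat_lit 0x8888070602) (nat_lit 0) (p (nat_lit 0x807868582) (nat_lit 0) (p (nat_lit 0x8587060502) (nat_lit 0) (p (nat_lit 0x506858482) (nat_lit 0) (p (nat_lit 0x160014) (nat_lit 0) (p (nat_lit 0x68612) (nat_lit 0) (p (nat_lit 0x50592) (nat_lit 0) (p (nat_lit 0x38512) (nat_lit 0) (p (nat_lit 0x50392) (nat_lit 0) (p (nat_lit 0x38312) (nat_lit 0) (p (nat_lit 0x20292) (nat_lit 0) (p (nat_lit 0x38112) (nat_lit 0) (p (nat_lit 0x20092) (nat_lit 0) (p (nat_lit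 0x8012) (nat_lit 0) pn))))))))))))))))))) :=
  Cl.node (nat_lit 0x41) (nat_lit 2) (by decide +kernel) (ClAll.succ (ClAll.succ ClAll.zero n140) n141)

def n143 : Cl (O (nat_lit 3)) (R (nat_lit 14465))
    (p (nat_lit 0x98a8a09081a) (nat_lit 0) (p (nat_lit 0x89080988879a) (nat_lit 0) (p (nat_lit 0x8878908071a) (nat_lit 0) (p (nat_lit 0x80000800080887868a) (nat_lit 0) (p (nat_lit 0x8888070602) (nat_lit 0) (p (nat_lit 0x807868582) (nat_lit 0) (p (nat_lit 0x8587060502) (nat_lit 0) (p (nat_lit 0x506858482) (nat_lit 0) (p (nat_lit 0x160014) (nat_lit 0) (p (nat_lit 0x68612) (nat_lit 0) (p (nat_lit 0x50592) (nat_lit 0) (p (nat_lit 0x38512) (nat_lit 0) (p (nat_lit 0x50392) (nat_lit 0) (p (nat_lit 0x38312) (nat_lit 0) (p (nat_lit 0x20292) (nat_lit 0) (p (nat_lit 0x38112) (nat_lit 0) (p (nat_lit 0x20092) (nat_lit 0) (p (nat_lit 0x8012) (nat_lit 0) pn)))))))))))))))))) :=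
  Cl.node (nat_lit 0x8a0b0a89889a) (nat_lit 1) (by decide +kernel) (ClAll.succ ClAll.zero n142)

def n144 : Cl (O (nat_lit 3)) (R (nat_lit 14465))
    (p (nat_lit 0x89080988879a) (nat_lit 0) (p (nat_lit 0x8878908071a) (nat_lit 0) (p (nat_lit 0x80000800080887868a) (nat_lit 0) (p (nat_lit 0x8888070602) (nat_lit 0) (p (nat_lit 0x807868582) (nat_lit 0) (p (nat_lit 0x8587060502) (nat_lit 0) (p (nat_lit 0x506858482) (nat_lit 0) (p (nat_lit 0x160014) (nat_lit 0) (p (nat_lit 0x68612) (nat_lit 0) (p (nat_lit 0x50592) (nat_lit 0) (p (nat_lit 0x38512) (nat_lit 0) (p (nat_lit 0x50392) (nat_lit 0) (p (nat_lit 0x38312) (nat_lit 0) (p (nat_lit 0x20292) (nat_lit 0) (p (nat_lit 0x38112) (nat_lit 0) (p (nat_lit 0x20092) (nat_lit 0) (p (nat_lit 0x8012) (nat_lit 0) pn))))))))))))))))) :=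
  Cl.node (nat_lit 0x98a8a09081a) (nat_lit 1) (by decide +kernel) (ClAll.succ ClAll.zero n143)

def n145 : Cl (O (nat_lit 3)) (R (nat_lit 14465))
    (p (nat_lit 0x8878908071a) (nat_lit 0) (p (nat_lit 0x80000800080887868a) (nat_lit 0) (p (nat_lit 0x8888070602) (nat_lit 0) (p (nat_lit 0x807868582) (nat_lit 0) (p (nat_lit 0x8587060502) (nat_lit 0) (p (nat_lit 0x506858482) (nat_lit 0) (p (nat_lit 0x160014) (nat_lit 0) (p (nat_lit 0x68612) (nat_lit 0) (p (nat_lit 0x50592) (nat_lit 0) (p (nat_lit 0x38512) (nat_lit 0) (p (nat_lit 0x50392) (nat_lit 0) (p (nat_lit 0x38312) (nat_lit 0) (p (nat_lit 0x20292) (nat_lit 0) (p (nat_lit 0x38112) (nat_lit 0) (p (nat_lit 0x20092) (nat_lit 0) (p (nat_lit 0x8012) (nat_lit 0) pn)))))))))))))))) :=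
  Cl.node (nat_lit 0x89080988879a) (nat_lit 1) (by decide +kernel) (ClAll.succ ClAll.zero n144)

def n146 : Cl (O (nat_lit 3)) (R (nat_lit 14465))
    (p (nat_lit 0x80000800080887868a) (nat_lit 0) (p (nat_lit 0x8888070602) (nat_lit 0) (p (nat_lit 0x807868582) (nat_lit 0) (p (nat_lit 0x8587060502) (nat_lit 0) (p (nat_lit 0x506858482) (nat_lit 0) (p (nat_lit 0x160014) (nat_lit 0) (p (nat_lit 0x68612) (nat_lit 0) (p (nat_lit 0x50592) (nat_lit 0) (p (nat_lit 0x38512) (nat_lit 0) (p (nat_lit 0x50392) (nat_lit 0) (p (nat_lit 0x38312) (nat_lit 0) (p (nat_lit 0x20292) (nat_lit 0) (p (nat_lit 0x38112) (nat_lit 0) (p (nat_lit 0x20092) (nat_lit 0) (p (nat_lit 0x8012) (nat_lit 0) pn))))))))))))))) :=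
  Cl.node (nat_lit 0x8878908071a) (nat_lit 1) (by decide +kernel) (ClAll.succ ClAll.zero n145)

def n147 : Cl (O (nat_lit 3)) (R (nat_lit 14465))
    (p (nat_lit 0x8888070602) (nat_lit 0) (p (nat_lit 0x807868582) (nat_lit 0) (p (nat_lit 0x8587060502) (nat_lit 0) (p (nat_lit 0x506858482) (nat_lit 0) (p (nat_lit 0x160014) (nat_lit 0) (p (nat_lit 0x68612) (nat_lit 0) (p (nat_lit 0x50592) (nat_lit 0) (p (nat_lit 0x38512) (nat_lit 0) (p (nat_lit 0x50392) (nat_lit 0) (p (nat_lit 0x38312) (nat_lit 0) (p (nat_lit 0x20292) (nat_lit 0) (p (nat_lit 0x38112) (nat_lit 0) (p (nat_lit 0x20092) (nat_lit 0) (p (nat_lit 0x8012) (nat_lit 0) pn)))))))))))))) :=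
  Cl.node (nat_lit 0x80000800080887868a) (nat_lit 1) (by decide +kernel) (ClAll.succ ClAll.zero n146)

def n148 : Cl (O (nat_lit 3)) (R (nat_lit 14465))
    (p (nat_lit 0x807868582) (nat_lit 0) (p (nat_lit 0x8587060502) (nat_lit 0) (p (nat_lit 0x506858482) (nat_lit 0) (p (nat_lit 0x160014) (nat_lit 0) (p (nat_lit 0x68612) (nat_lit 0) (p (nat_lit 0x50592) (nat_lit 0) (p (nat_lit 0x38512) (nat_lit 0) (p (nat_lit 0x50392) (nat_lit 0) (p (nat_lit 0x38312) (nat_lit 0) (p (nat_lit 0x20292) (nat_lit 0) (p (nat_lit 0x38112) (nat_lit 0) (p (nat_lit 0x20092) (nat_lit 0) (p (nat_lit 0x8012) (nat_lit 0) pn))))))))))))) :=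
  Cl.node (nat_lit 0x8888070602) (nat_lit 1) (by decide +kernel) (ClAll.succ ClAll.zero n147)

def n149 : Cl (O (nat_lit 3)) (R (nat_lit 14465))
    (p (nat_lit 0x8587060502) (nat_lit 0) (p (nat_lit 0x506858482) (nat_lit 0) (p (nat_lit 0x160014) (nat_lit 0) (p (nat_lit 0x68612) (nat_lit 0) (p (nat_lit 0x50592) (nat_lit 0) (p (nat_lit 0x38512) (nat_lit 0) (p (nat_lit 0x50392) (nat_lit 0) (p (nat_lit 0x38312) (nat_lit 0) (p (nat_lit 0x20292) (nat_lit 0) (p (nat_lit 0x38112) (nat_lit 0) (p (nat_lit 0x20092) (nat_lit 0) (p (nat_lit 0x8012) (nat_lit 0) pn)))))))))))) :=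
  Cl.node (nat_lit 0x807868582) (nat_lit 1) (by decide +kernel) (ClAll.succ ClAll.zero n148)

def n150 : Cl (O (nat_lit 3)) (R (nat_lit 14465))
    (p (nat_lit 0x506858482) (nat_lit 0) (p (nat_lit 0x160014) (nat_lit 0) (p (nat_lit 0x68612) (nat_lit 0) (p (nat_lit 0x50592) (nat_lit 0) (p (nat_lit 0x38512) (nat_lit 0) (p (nat_lit 0x50392) (nat_lit 0) (p (nat_lit 0x38312) (nat_lit 0) (p (nat_lit 0x20292) (nat_lit 0) (p (nat_lit 0x38112) (nat_lit 0) (p (nat_lit 0x20092) (nat_lit 0) (p (nat_lit 0x8012) (nat_lit 0) pn))))))))))) :=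
  Cl.node (nat_lit 0x8587060502) (nat_lit 1) (by decide +kernel) (ClAll.succ ClAll.zero n149)

def n151 : Cl (O (nat_lit 3)) (R (nat_lit 14465))
    (p (nat_lit 0x160014) (nat_lit 0) (p (nat_lit 0x68612) (nat_lit 0) (p (nat_lit 0x50592) (nat_lit 0) (p (nat_lit 0x38512) (nat_lit 0) (p (nat_lit 0x50392) (nat_lit 0) (p (nat_lit 0x38312) (nat_lit 0) (p (nat_lit 0x20292) (nat_lit 0) (p (nat_lit 0x38112) (nat_lit 0) (p (nat_lit 0x20092) (nat_lit 0) (p (nat_lit 0x8012) (nat_lit 0) pn)))))))))) :=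
  Cl.node (nat_lit 0x506858482) (nat_lit 1) (by decide +kernel) (ClAll.succ ClAll.zero n150)

def n152 : Cl (O (nat_lit 3)) (R (nat_lit 14465))
    (p (nat_lit 0x68612) (nat_lit 0) (p (nat_lit 0x50592) (nat_lit 0) (p (nat_lit 0x38512) (nat_lit 0) (p (nat_lit 0x50392) (nat_lit 0) (p (nat_lit 0x38312) (nat_lit 0) (p (nat_lit 0x20292) (nat_lit 0) (p (nat_lit 0x38112) (nat_lit 0) (p (nat_lit 0x20092) (nat_lit 0) (p (nat_lit 0x8012) (nat_lit 0) pn))))))))) :=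
  Cl.node (nat_lit 0x160014) (nat_lit 2) (by decide +kernel) (ClAll.succ (ClAll.succ ClAll.zero n151) s144)

def n153 : Cl (O (nat_lit 3)) (R (nat_lit 14465))
    (p (nat_lit 0x50592) (nat_lit 0) (p (nat_lit 0x38512) (nat_lit 0) (p (nat_lit 0x50392) (nat_lit 0) (p (nat_lit 0x38312) (nat_lit 0) (p (nat_lit 0x20292) (nat_lit 0) (p (nat_lit 0x38112) (nat_lit 0) (p (nat_lit 0x20092) (nat_lit 0) (p (nat_lit 0x8012) (nat_lit 0) pn)))))))) :=
  Cl.node (nat_lit 0x68612) (nat_lit 1) (by decide +kernel) (ClAll.succ ClAll.zero n152)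

def n154 : Cl (O (nat_lit 3)) (R (nat_lit 14465))
    (p (nat_lit 0x38512) (nat_lit 0) (p (nat_lit 0x50392) (nat_lit 0) (p (nat_lit 0x38312) (nat_lit 0) (p (nat_lit 0x20292) (nat_lit 0) (p (nat_lit 0x38112) (nat_lit 0) (p (nat_lit 0x20092) (nat_lit 0) (p (nat_lit 0x8012) (nat_lit 0) pn))))))) :=
  Cl.node (nat_lit 0x50592) (nat_lit 1) (by decide +kernel) (ClAll.succ ClAll.zero n153)

def n155 : Cl (O (nat_lit 3)) (R (nat_lit 14465))
    (p (nat_lit 0x50392) (nat_lit 0) (p (nat_lit 0x38312) (nat_lit 0) (p (nat_lit 0x20292) (nat_lit 0) (p (nat_lit 0x38112) (nat_lit 0) (p (nat_lit 0x20092) (nat_lit 0) (p (nat_lit 0x8012) (nat_lit 0) pn)))))) :=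
  Cl.node (nat_lit 0x38512) (nat_lit 1) (by decide +kernel) (ClAll.succ ClAll.zero n154)

def n156 : Cl (O (nat_lit 3)) (R (nat_lit 14465))
    (p (nat_lit 0x38312) (nat_lit 0) (p (nat_lit 0x20292) (nat_lit 0) (p (nat_lit 0x38112) (nat_lit 0) (p (nat_lit 0x20092) (nat_lit 0) (p (nat_lit 0x8012) (nat_lit 0) pn))))) :=
  Cl.node (nat_lit 0x50392) (nat_lit 1) (by decide +kernel) (ClAll.succ ClAll.zero n155)

def n157 : Cl (O (nat_lit 3)) (R (nat_lit 14465))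
    (p (nat_lit 0x20292) (nat_lit 0) (p (nat_lit 0x38112) (nat_lit 0) (p (nat_lit 0x20092) (nat_lit 0) (p (nat_lit 0x8012) (nat_lit 0) pn)))) :=
  Cl.node (nat_lit 0x38312) (nat_lit 1) (by decide +kernel) (ClAll.succ ClAll.zero n156)

def n158 : Cl (O (nat_lit 3)) (R (nat_lit 14465))
    (p (nat_lit 0x38112) (nat_lit 0) (p (nat_lit 0x20092) (nat_lit 0) (p (nat_lit 0x8012) (nat_lit 0) pn))) :=
  Cl.node (nat_lit 0x20292) (nat_lit 1) (by decide +kernel) (ClAll.succ ClAll.zero n157)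

def n159 : Cl (O (nat_lit 3)) (R (nat_lit 14465))
    (p (nat_lit 0x20092) (nat_lit 0) (p (nat_lit 0x8012) (nat_lit 0) pn)) :=
  Cl.node (nat_lit 0x38112) (nat_lit 1) (by decide +kernel) (ClAll.succ ClAll.zero n158)

def n160 : Cl (O (nat_lit 3)) (R (nat_lit 14465))
    (p (nat_lit 0x8012) (nat_lit 0) pn) :=
  Cl.node (nat_lit 0x20092) (nat_lit 1) (by decide +kernel) (ClAll.succ ClAll.zero n159)

def n161 : Cl (O (nat_lit 3)) (R (nat_lit 14465))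
    pn :=
  Cl.node (nat_lit 0x8012) (nat_lit 1) (by decide +kernel) (ClAll.succ ClAll.zero n160)

theorem top : Cl (O (nat_lit 3)) (R (nat_lit 14465)) pn := n161

end Pool.Agent.Gen.F5.X1C2D3Cm3
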